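import Pool.Agent.Helper26.LooseHC.Extract

set_option autoImplicit false

/-!
Blocks: reduced degrees and block families.
-/

namespace Pool.Agent.LooseHC

open Finset

variable {V : Type} [DecidableEq V]

omit [DecidableEq V] in
lemma ecount_symm1 (E : V → V → V → Prop) (h : ∀ a b d, E a b d → E b a d) (X Y Z : Finset V) :
    ecount E X Y Z = ecount E Y X Z := by
  classical
  unfold ecount
  apply Finset.card_bij (fun x _ => (x.2.1, x.1, x.2.2))
  · rintro ⟨a, b, d⟩ hx
    simp only [Finset.mem_filter, Finset.mem_product] at hx ⊢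
    exact ⟨⟨hx.1.2.1, hx.1.1, hx.1.2.2⟩, h _ _ _ hx.2⟩
  · rintro ⟨a, b, d⟩ _ ⟨a', b', d'⟩ _ hx
    simp only [Prod.mk.injEq] at hx ⊢
    exact ⟨hx.2.1, hx.1, hx.2.2⟩
  · rintro ⟨a, b, d⟩ hx
    simp only [Finset.mem_filter, Finset.mem_product] at hx
    refine ⟨(b, a, d), ?_, rfl⟩
    simp only [Finset.mem_filter, Finset.mem_product]
    exact ⟨⟨hx.1.2.1, hx.1.1, hx.1.2.2⟩, h _ _ _ hx.2⟩

omit [DecidableEq V] in
lemma ecount_symm2 (E : V → V → V → Prop) (h : ∀ a b d, E a b d → E a d b) (X Y Z : Finset V) :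
    ecount E X Y Z = ecount E X Z Y := by
  classical
  unfold ecount
  apply Finset.card_bij (fun x _ => (x.1, x.2.2, x.2.1))
  · rintro ⟨a, b, d⟩ hx
    simp only [Finset.mem_filter, Finset.mem_product] at hx ⊢
    exact ⟨⟨hx.1.1, hx.1.2.2, hx.1.2.1⟩, h _ _ _ hx.2⟩
  · rintro ⟨a, b, d⟩ _ ⟨a', b', d'⟩ _ hx
    simp only [Prod.mk.injEq] at hx ⊢
    exact ⟨hx.1, hx.2.2, hx.2.1⟩
  · rintro ⟨a, b, d⟩ hx
    simp only [Finset.mem_filter, Finset.mem_product] at hx
    refine ⟨(a, d, b), ?_, rfl⟩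
    simp only [Finset.mem_filter, Finset.mem_product]
    exact ⟨⟨hx.1.1, hx.1.2.2, hx.1.2.1⟩, h _ _ _ hx.2⟩

/-- Number of ordered pairs of `W` that form an edge (of some colour) with `v`. -/
noncomputable def dcount (C : Bool → V → V → V → Prop) (W : Finset V) (v : V) : ℕ := by
  classical
  exact ((W ×ˢ W).filter (fun x => ∃ c, C c v x.1 x.2)).card

/-- Reduced triple relation on blocks. -/
def RT (C : Bool → V → V → V → Prop) {ι : Type} (blk : ι → Finset V) (κ : ℝ) (p q r : ι) : Prop :=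
  p ≠ q ∧ p ≠ r ∧ q ≠ r ∧ ∃ c, κ ≤ (ecount (C c) (blk p) (blk q) (blk r) : ℝ)

omit [DecidableEq V] in
lemma RT_symm1 (C : Bool → V → V → V → Prop) (hsym1 : ∀ c a b d, C c a b d → C c b a d)
    {ι : Type} (blk : ι → Finset V) (κ : ℝ)
    (p q r : ι) (h : RT C blk κ p q r) : RT C blk κ q p r := by
  obtain ⟨h1, h2, h3, c, h4⟩ := h
  refine ⟨h1.symm, h3, h2, c, ?_⟩
  rw [ecount_symm1 (C c) (hsym1 c)]
  exact h4

omit [DecidableEq V] in
lemma RT_symm2 (C : Bool → V → V → V → Prop) (hsym2 : ∀ c a b d, C c a b d → C c a d b)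
    {ι : Type} (blk : ι → Finset V) (κ : ℝ)
    (p q r : ι) (h : RT C blk κ p q r) : RT C blk κ p r q := by
  obtain ⟨h1, h2, h3, c, h4⟩ := h
  refine ⟨h2, h1, h3.symm, c, ?_⟩
  rw [ecount_symm2 (C c) (hsym2 c)]
  exact h4

lemma block_degree (C : Bool → V → V → V → Prop) (α γ : ℝ) (hα : 0 < α) (hγ : 0 < γ)
    {ι : Type} [Fintype ι] [DecidableEq ι] (blk : ι → Finset V) (W : Finset V) (S : ℕ)
    (hS : 0 < S)
    (hcard : ∀ i, (blk i).card = S) (hdisj : ∀ i j, i ≠ j → Disjoint (blk i) (blk j))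
    (hsub : ∀ i, blk i ⊆ W) (hW : W.card < (Fintype.card ι + 1) * S)
    (hdeg : ∀ v ∈ W, (7 / 16 + α) * (W.card : ℝ) ^ 2 ≤ dcount C W v)
    [∀ p, DecidablePred (fun x : ι × ι => RT C blk (γ * (S : ℝ) ^ 3) p x.1 x.2)] (p : ι) :
    (7 / 16 + α - 2 * γ) * (Fintype.card ι : ℝ) ^ 2 - 5 * ((Fintype.card ι : ℝ) + 1) ≤
      ((univ.filter (fun x : ι × ι => RT C blk (γ * (S : ℝ) ^ 3) p x.1 x.2)).card : ℝ) := by
  classical
  set N : ℝ := (Fintype.card ι : ℝ) with hN
  have hSr : (0 : ℝ) < S := by exact_mod_cast hS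
  set R := W \ (univ.biUnion blk) with hR
  have hcov : (univ.biUnion blk).card = Fintype.card ι * S := by
    rw [Finset.card_biUnion]
    · rw [Finset.sum_congr rfl (fun i _ => hcard i), Finset.sum_const, Finset.card_univ,
        smul_eq_mul]
    · intro i _ j _ hij
      exact hdisj i j hij
  have hcovsub : univ.biUnion blk ⊆ W := by
    rw [Finset.biUnion_subset]; intro i _; exact hsub i
  have hWN : Fintype.card ι * S ≤ W.card := by rw [← hcov]; exact Finset.card_le_card hcovsub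
  have hRcard : R.card ≤ S := by
    have h1 : R.card = W.card - (univ.biUnion blk).card := by
      rw [hR, Finset.card_sdiff_of_subset hcovsub]
    rw [hcov] at h1
    have h2 : (Fintype.card ι + 1) * S = Fintype.card ι * S + S := by ring
    omega
  set Q : Finset (ι × ι) := univ.filter (fun x => p ≠ x.1 ∧ p ≠ x.2 ∧ x.1 ≠ x.2) with hQ
  -- bound for a single vertex
  have hsingle : ∀ x, (dcount C W x : ℝ) ≤
      ∑ qr ∈ Q, (((blk qr.1 ×ˢ blk qr.2).filter (fun y => ∃ c, C c x y.1 y.2)).card : ℝ)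
        + 5 * (S * W.card) := by
    intro x
    have hs : (W ×ˢ W).filter (fun y => ∃ c, C c x y.1 y.2) ⊆
        (Q.biUnion (fun qr => (blk qr.1 ×ˢ blk qr.2).filter (fun y => ∃ c, C c x y.1 y.2))) ∪
        (((blk p ×ˢ W) ∪ (W ×ˢ blk p)) ∪ (((R ×ˢ W) ∪ (W ×ˢ R)) ∪
          (univ.biUnion (fun q => blk q ×ˢ blk q)))) := by
      rintro ⟨a, b⟩ hab
      simp only [Finset.mem_filter, Finset.mem_product, Finset.mem_union, Finset.mem_biUnion,
        Finset.mem_univ, true_and, hR, Finset.mem_sdiff, hQ] at hab ⊢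
      obtain ⟨⟨ha, hb⟩, hc⟩ := hab
      by_cases h1 : ∃ q, a ∈ blk q
      · by_cases h2 : ∃ r, b ∈ blk r
        · obtain ⟨q, hq⟩ := h1
          obtain ⟨r, hr⟩ := h2
          by_cases h3 : p = q
          · right; left; left; subst h3; exact ⟨hq, hb⟩
          by_cases h4 : p = r
          · right; left; right; subst h4; exact ⟨ha, hr⟩
          by_cases h5 : q = r
          · right; right; right; subst h5; exact ⟨q, hq, hr⟩
          left
          exact ⟨(q, r), ⟨h3, h4, h5⟩, ⟨hq, hr⟩, hc⟩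
        · right; right; left; right; exact ⟨ha, hb, h2⟩
      · right; right; left; left; exact ⟨⟨ha, h1⟩, hb⟩
    have h1 := Finset.card_le_card hs
    have h2 : ((Q.biUnion (fun qr => (blk qr.1 ×ˢ blk qr.2).filter
        (fun y => ∃ c, C c x y.1 y.2))) ∪
        (((blk p ×ˢ W) ∪ (W ×ˢ blk p)) ∪ (((R ×ˢ W) ∪ (W ×ˢ R)) ∪
          (univ.biUnion (fun q => blk q ×ˢ blk q))))).card ≤
        ∑ qr ∈ Q, ((blk qr.1 ×ˢ blk qr.2).filter (fun y => ∃ c, C c x y.1 y.2)).card +
        ((S * W.card + W.card * S) + ((S * W.card + W.card * S) + S * W.card)) := by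
      refine (Finset.card_union_le _ _).trans (Nat.add_le_add Finset.card_biUnion_le ?_)
      refine (Finset.card_union_le _ _).trans (Nat.add_le_add ?_ ?_)
      · refine (Finset.card_union_le _ _).trans (Nat.add_le_add ?_ ?_)
        · rw [Finset.card_product, hcard]
        · rw [Finset.card_product, hcard]
      · refine (Finset.card_union_le _ _).trans (Nat.add_le_add ?_ ?_)
        · refine (Finset.card_union_le _ _).trans (Nat.add_le_add ?_ ?_)
          · rw [Finset.card_product]; exact Nat.mul_le_mul_right _ hRcard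
          · rw [Finset.card_product]; exact Nat.mul_le_mul_left _ hRcard
        · refine Finset.card_biUnion_le.trans ?_
          have : ∀ q ∈ (univ : Finset ι), (blk q ×ˢ blk q).card = S * S := by
            intro q _; rw [Finset.card_product, hcard]
          rw [Finset.sum_congr rfl this, Finset.sum_const, Finset.card_univ, smul_eq_mul]
          calc Fintype.card ι * (S * S) = S * (Fintype.card ι * S) := by ring
            _ ≤ S * W.card := Nat.mul_le_mul_left _ hWN
    have h3 : dcount C W x ≤ ∑ qr ∈ Q, ((blk qr.1 ×ˢ blk qr.2).filter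
        (fun y => ∃ c, C c x y.1 y.2)).card + 5 * (S * W.card) := by
      unfold dcount
      refine (h1.trans h2).trans (le_of_eq ?_)
      ring
    exact_mod_cast h3
  -- sum over x in blk p
  have hsum1 : (S : ℝ) * ((7 / 16 + α) * (W.card : ℝ) ^ 2) ≤ ∑ x ∈ blk p, (dcount C W x : ℝ) := by
    rw [← hcard p, ← nsmul_eq_mul, ← Finset.sum_const]
    apply Finset.sum_le_sum
    intro x hx
    exact hdeg x (hsub p hx)
  set EE : V → V → V → Prop := fun x a b => ∃ c, C c x a b with hEE
  have hsum2 : ∑ x ∈ blk p, (dcount C W x : ℝ) ≤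
      ∑ qr ∈ Q, (ecount EE (blk p) (blk qr.1) (blk qr.2) : ℝ) + S * (5 * (S * W.card)) := by
    refine (Finset.sum_le_sum (fun x _ => hsingle x)).trans ?_
    rw [Finset.sum_add_distrib, Finset.sum_const, hcard, nsmul_eq_mul, Finset.sum_comm]
    apply add_le_add _ le_rfl
    apply Finset.sum_le_sum
    intro qr _
    have h2 : ecount EE (blk p) (blk qr.1) (blk qr.2) =
        ∑ x ∈ blk p, ((blk qr.1 ×ˢ blk qr.2).filter (fun y => EE x y.1 y.2)).card := by
      unfold ecount
      simp only [Finset.card_filter]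
      rw [Finset.sum_product]
      refine Finset.sum_congr rfl (fun x _ => Finset.sum_congr rfl (fun y _ => ?_))
      split_ifs <;> first | rfl | contradiction
    rw [h2]
    push_cast
    exact le_rfl
  set TT : Finset (ι × ι) := univ.filter (fun x : ι × ι => RT C blk (γ * (S : ℝ) ^ 3) p x.1 x.2)
    with hTT
  have hsum3 : ∑ qr ∈ Q, (ecount EE (blk p) (blk qr.1) (blk qr.2) : ℝ) ≤
        TT.card * (S : ℝ) ^ 3 + N ^ 2 * (2 * γ * S ^ 3) := by
    have hpt : ∀ qr ∈ Q, (ecount EE (blk p) (blk qr.1) (blk qr.2) : ℝ) ≤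
        (if qr ∈ TT then (S : ℝ) ^ 3 else 0) + 2 * γ * S ^ 3 := by
      intro qr hqr
      by_cases h : qr ∈ TT
      · rw [if_pos h]
        have h1 := ecount_le EE (blk p) (blk qr.1) (blk qr.2)
        rw [hcard, hcard, hcard] at h1
        have : 0 ≤ 2 * γ * (S : ℝ) ^ 3 := by positivity
        nlinarith
      · rw [if_neg h]
        simp only [hQ, Finset.mem_filter, Finset.mem_univ, true_and] at hqr
        simp only [hTT, Finset.mem_filter, Finset.mem_univ, true_and, RT, not_and, not_exists,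
          not_le] at h
        have h1 := h hqr.1 hqr.2.1 hqr.2.2 true
        have h2 := h hqr.1 hqr.2.1 hqr.2.2 false
        have h3 : (ecount EE (blk p) (blk qr.1) (blk qr.2) : ℝ) ≤
            ecount (C true) (blk p) (blk qr.1) (blk qr.2) +
            ecount (C false) (blk p) (blk qr.1) (blk qr.2) := by
          have h4 : ecount EE (blk p) (blk qr.1) (blk qr.2) ≤
            ecount (C true) (blk p) (blk qr.1) (blk qr.2) +
            ecount (C false) (blk p) (blk qr.1) (blk qr.2) := by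
            unfold ecount
            refine le_trans (Finset.card_le_card ?_) (Finset.card_union_le _ _)
            rintro ⟨x, a, b⟩ hab
            simp only [Finset.mem_filter, Finset.mem_union, hEE] at hab ⊢
            obtain ⟨h3, c, h4⟩ := hab
            cases c
            · right; exact ⟨h3, h4⟩
            · left; exact ⟨h3, h4⟩
          exact_mod_cast h4
        linarith
    refine (Finset.sum_le_sum hpt).trans ?_
    rw [Finset.sum_add_distrib]
    apply add_le_add
    · refine (Finset.sum_le_sum_of_subset_of_nonneg (Finset.subset_univ Q) ?_).trans ?_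
      · intro i _ _; positivity
      · rw [Finset.sum_ite_mem, Finset.univ_inter, Finset.sum_const, nsmul_eq_mul]
    · rw [Finset.sum_const, nsmul_eq_mul]
      apply mul_le_mul_of_nonneg_right _ (by positivity)
      have h1 := Finset.card_le_univ Q
      rw [Fintype.card_prod] at h1
      have h2 : (Q.card : ℝ) ≤ ((Fintype.card ι * Fintype.card ι : ℕ) : ℝ) := by exact_mod_cast h1
      rw [Nat.cast_mul, ← hN] at h2
      rw [pow_two]; exact h2
  -- combine
  have hWlow : N * S ≤ (W.card : ℝ) := by rw [hN]; exact_mod_cast hWN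
  have hWup : (W.card : ℝ) ≤ (N + 1) * S := by
    rw [hN]; exact_mod_cast hW.le
  have hmain : (S : ℝ) * ((7 / 16 + α) * (W.card : ℝ) ^ 2) ≤
      TT.card * (S : ℝ) ^ 3 + N ^ 2 * (2 * γ * S ^ 3) + S * (5 * (S * W.card)) := by
    linarith
  have h1 : (S : ℝ) * ((7 / 16 + α) * (N * S) ^ 2) ≤ S * ((7 / 16 + α) * (W.card : ℝ) ^ 2) := by
    apply mul_le_mul_of_nonneg_left _ hSr.le
    apply mul_le_mul_of_nonneg_left _ (by positivity)
    apply pow_le_pow_left₀ (by positivity) hWlow
  have h2 : (S : ℝ) * (5 * (S * W.card)) ≤ S * (5 * (S * ((N + 1) * S))) := by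
    apply mul_le_mul_of_nonneg_left _ hSr.le
    apply mul_le_mul_of_nonneg_left _ (by norm_num)
    exact mul_le_mul_of_nonneg_left hWup hSr.le
  have h3 : ((7 / 16 + α - 2 * γ) * N ^ 2 - 5 * (N + 1)) * (S : ℝ) ^ 3 ≤ TT.card * (S : ℝ) ^ 3 := by
    nlinarith
  exact le_of_mul_le_mul_right h3 (by positivity)

/-- Disjoint chunks of a finset. -/
lemma chunks (S : ℕ) (hS : 0 < S) (k : ℕ) : ∀ (R : Finset V), k * S ≤ R.card →
    ∃ 𝓒 : Finset (Finset V), 𝓒.card = k ∧ (∀ X ∈ 𝓒, X ⊆ R ∧ X.card = S) ∧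
      ∀ X ∈ 𝓒, ∀ Y ∈ 𝓒, X ≠ Y → Disjoint X Y := by
  induction k with
  | zero => intro R _; exact ⟨∅, rfl, by simp, by simp⟩
  | succ k ih =>
    intro R hR
    have h1 : S ≤ R.card := by nlinarith
    obtain ⟨X, hX, cX⟩ := Finset.exists_subset_card_eq h1
    have h2 : k * S ≤ (R \ X).card := by
      rw [Finset.card_sdiff_of_subset hX, cX]
      have : (k + 1) * S = k * S + S := by ring
      omega
    obtain ⟨𝓒, c1, c2, c3⟩ := ih (R \ X) h2
    have hXn : X ∉ 𝓒 := by
      intro h
      have h3 := (c2 X h).1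
      have h4 : X.Nonempty := by rw [← Finset.card_pos]; omega
      obtain ⟨x, hx⟩ := h4
      exact (Finset.mem_sdiff.mp (h3 hx)).2 hx
    have hXd : ∀ Y ∈ 𝓒, Disjoint X Y := by
      intro Y hY
      exact Finset.disjoint_of_subset_right (c2 Y hY).1 Finset.disjoint_sdiff
    refine ⟨insert X 𝓒, by rw [Finset.card_insert_of_notMem hXn, c1], ?_, ?_⟩
    · intro Y hY
      rw [Finset.mem_insert] at hY
      rcases hY with rfl | hY
      · exact ⟨hX, cX⟩
      · exact ⟨(c2 Y hY).1.trans Finset.sdiff_subset, (c2 Y hY).2⟩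
    · intro Y hY Z hZ hYZ
      rw [Finset.mem_insert] at hY hZ
      rcases hY with rfl | hY <;> rcases hZ with rfl | hZ
      · exact absurd rfl hYZ
      · exact hXd Z hZ
      · exact (hXd Y hY).symm
      · exact c3 Y hY Z hZ hYZ

/-- The blocks of a tiling. -/
def partsOf : List (Tile V) → Finset (Finset V)
  | [] => ∅
  | T :: L => {T.A, T.B, T.D, T.D'} ∪ partsOf L

lemma mem_partsOf {L : List (Tile V)} {X : Finset V} :
    X ∈ partsOf L ↔ ∃ T ∈ L, X = T.A ∨ X = T.B ∨ X = T.D ∨ X = T.D' := by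
  induction L with
  | nil => simp [partsOf]
  | cons T L ih => simp [partsOf, ih, or_assoc]

lemma block_family (C : Bool → V → V → V → Prop) (S : ℕ) (hS : 0 < S) (W : Finset V)
    (L : List (Tile V)) (hL : Tiling C S W L) :
    ∃ 𝓑 : Finset (Finset V), (∀ X ∈ 𝓑, X ⊆ W ∧ X.card = S) ∧
      (∀ X ∈ 𝓑, ∀ Y ∈ 𝓑, X ≠ Y → Disjoint X Y) ∧
      (∀ T ∈ L, T.A ∈ 𝓑 ∧ T.B ∈ 𝓑 ∧ T.D ∈ 𝓑 ∧ T.D' ∈ 𝓑) ∧
      W.card < (𝓑.card + 1) * S := by
  classical
  obtain ⟨hv, hpw⟩ := hL
  -- properties of the parts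
  have hsubT : ∀ T : Tile V, T.A ⊆ T.verts ∧ T.B ⊆ T.verts ∧ T.D ⊆ T.verts ∧ T.D' ⊆ T.verts := by
    intro T
    unfold Tile.verts
    refine ⟨?_, ?_, ?_, ?_⟩ <;> intro x hx <;> simp only [Finset.mem_union] <;> tauto
  have p1 : ∀ X ∈ partsOf L, X ⊆ W ∧ X.card = S := by
    intro X hX
    rw [mem_partsOf] at hX
    obtain ⟨T, hT, h⟩ := hX
    obtain ⟨v, w⟩ := hv T hT
    obtain ⟨s1, s2, s3, s4⟩ := hsubT T
    rcases h with rfl | rfl | rfl | rfl
    · exact ⟨s1.trans w, v.cA⟩
    · exact ⟨s2.trans w, v.cB⟩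
    · exact ⟨s3.trans w, v.cD⟩
    · exact ⟨s4.trans w, v.cD'⟩
  have p2 : ∀ X ∈ partsOf L, ∀ Y ∈ partsOf L, X ≠ Y → Disjoint X Y := by
    intro X hX Y hY hXY
    rw [mem_partsOf] at hX hY
    obtain ⟨T, hT, h⟩ := hX
    obtain ⟨T', hT', h'⟩ := hY
    by_cases hTT : T = T'
    · subst hTT
      obtain ⟨v, _⟩ := hv T hT
      rcases h with rfl | rfl | rfl | rfl <;> rcases h' with rfl | rfl | rfl | rfl
      · exact absurd rfl hXY
      · exact v.dAB
      · exact v.dAD
      · exact v.dAD'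
      · exact v.dAB.symm
      · exact absurd rfl hXY
      · exact v.dBD
      · exact v.dBD'
      · exact v.dAD.symm
      · exact v.dBD.symm
      · exact absurd rfl hXY
      · exact v.dDD'
      · exact v.dAD'.symm
      · exact v.dBD'.symm
      · exact v.dDD'.symm
      · exact absurd rfl hXY
    · have : Std.Symm (fun T T' : Tile V => Disjoint T.verts T'.verts) :=
        ⟨fun _ _ h => h.symm⟩
      have hd : Disjoint T.verts T'.verts := hpw.forall hT hT' hTT
      obtain ⟨s1, s2, s3, s4⟩ := hsubT T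
      obtain ⟨s1', s2', s3', s4'⟩ := hsubT T'
      have e1 : X ⊆ T.verts := by rcases h with rfl | rfl | rfl | rfl <;> assumption
      have e2 : Y ⊆ T'.verts := by rcases h' with rfl | rfl | rfl | rfl <;> assumption
      exact hd.mono e1 e2
  set P := partsOf L with hP
  set R := W \ P.biUnion id with hR
  have hPW : P.biUnion id ⊆ W := by
    rw [Finset.biUnion_subset]; intro X hX; exact (p1 X hX).1
  have hPc : (P.biUnion id).card = P.card * S := by
    rw [Finset.card_biUnion]
    · simp only [id]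
      rw [Finset.sum_congr rfl (fun X hX => (p1 X hX).2), Finset.sum_const, smul_eq_mul]
    · intro X hX Y hY hXY
      exact p2 X hX Y hY hXY
  obtain ⟨𝓒, c1, c2, c3⟩ := chunks S hS (R.card / S) R (Nat.div_mul_le_self _ _)
  have hRd : ∀ X ∈ 𝓒, ∀ Y ∈ P, Disjoint X Y := by
    intro X hX Y hY
    refine Finset.disjoint_of_subset_left (c2 X hX).1 ?_
    refine Finset.disjoint_of_subset_right ?_ Finset.sdiff_disjoint
    exact Finset.subset_biUnion_of_mem id hY
  have hPC : Disjoint P 𝓒 := by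
    rw [Finset.disjoint_left]
    intro X hX hX'
    have h1 := hRd X hX' X hX
    rw [disjoint_self] at h1
    have h2 := (p1 X hX).2
    rw [h1] at h2
    simp at h2
    omega
  refine ⟨P ∪ 𝓒, ?_, ?_, ?_, ?_⟩
  · intro X hX
    rw [Finset.mem_union] at hX
    rcases hX with hX | hX
    · exact p1 X hX
    · exact ⟨(c2 X hX).1.trans Finset.sdiff_subset, (c2 X hX).2⟩
  · intro X hX Y hY hXY
    rw [Finset.mem_union] at hX hY
    rcases hX with hX | hX <;> rcases hY with hY | hY
    · exact p2 X hX Y hY hXY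
    · exact (hRd Y hY X hX).symm
    · exact hRd X hX Y hY
    · exact c3 X hX Y hY hXY
  · intro T hT
    simp only [Finset.mem_union]
    refine ⟨Or.inl ?_, Or.inl ?_, Or.inl ?_, Or.inl ?_⟩ <;> rw [hP, mem_partsOf] <;>
      exact ⟨T, hT, by simp⟩
  · rw [Finset.card_union_of_disjoint hPC, c1]
    have h1 : R.card = W.card - P.card * S := by
      rw [hR, Finset.card_sdiff_of_subset hPW, hPc]
    have h2 : P.card * S ≤ W.card := by rw [← hPc]; exact Finset.card_le_card hPW
    have h3 : R.card < (R.card / S + 1) * S := by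
      have := Nat.lt_div_mul_add hS (a := R.card)
      have h4 : (R.card / S + 1) * S = R.card / S * S + S := by ring
      omega
    have h5 : (P.card + R.card / S + 1) * S = P.card * S + (R.card / S + 1) * S := by ring
    omega

end Pool.Agent.LooseHC
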