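import Mathlib

set_option autoImplicit false

/-!
Dense common neighbourhoods and complete tripartite sub-triples (Kovari, Sos and Turan / Erdos).
-/

namespace Pool.Agent.LooseHC

open Finset

lemma common_nbhd {α β : Type*} [DecidableEq α] [DecidableEq β] (γ : ℝ) (hγ : 0 < γ)
    (hγ1 : γ ≤ 1) (t : ℕ) (P : Finset α) (Z : Finset β) (r : α → β → Prop)
    [∀ a b, Decidable (r a b)]
    (hZ : 4 * (t : ℝ) ≤ γ * Z.card) (hZ0 : 0 < Z.card)
    (h : γ * (P.card * Z.card) ≤ ∑ p ∈ P, ((Z.filter (r p)).card : ℝ)) :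
    ∃ Z' ⊆ Z, Z'.card = t ∧
      (γ / 2) * (γ / 4) ^ t * P.card ≤ ((P.filter (fun p => ∀ z ∈ Z', r p z)).card : ℝ) := by
  have htM : t ≤ Z.card := by
    have h1 : (0 : ℝ) ≤ Z.card := by positivity
    have h2 : (t : ℝ) ≤ Z.card := by
      have : (0 : ℝ) ≤ t := by positivity
      nlinarith
    exact_mod_cast h2
  set M : ℝ := (Z.card : ℝ) with hM
  have hMpos : 0 < M := by rw [hM]; exact_mod_cast hZ0
  -- good p
  set P' := P.filter (fun p => γ / 2 * M ≤ ((Z.filter (r p)).card : ℝ)) with hP'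
  have hP'card : γ / 2 * P.card ≤ (P'.card : ℝ) := by
    have h1 : ∑ p ∈ P, ((Z.filter (r p)).card : ℝ) ≤ P'.card * M + P.card * (γ / 2 * M) := by
      rw [← Finset.sum_filter_add_sum_filter_not P
        (fun p => γ / 2 * M ≤ ((Z.filter (r p)).card : ℝ))]
      apply add_le_add
      · calc ∑ p ∈ P', ((Z.filter (r p)).card : ℝ) ≤ ∑ p ∈ P', M := by
              apply Finset.sum_le_sum
              intro p _
              rw [hM]
              exact_mod_cast Finset.card_filter_le _ _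
          _ = P'.card * M := by rw [Finset.sum_const, nsmul_eq_mul]
      · calc ∑ p ∈ P.filter (fun p => ¬ (γ / 2 * M ≤ ((Z.filter (r p)).card : ℝ))),
              ((Z.filter (r p)).card : ℝ)
            ≤ ∑ p ∈ P.filter (fun p => ¬ (γ / 2 * M ≤ ((Z.filter (r p)).card : ℝ))),
              (γ / 2 * M) := by
              apply Finset.sum_le_sum
              intro p hp
              rw [Finset.mem_filter] at hp
              exact (not_le.mp hp.2).le
          _ = (P.filter (fun p => ¬ (γ / 2 * M ≤ ((Z.filter (r p)).card : ℝ)))).card *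
              (γ / 2 * M) := by rw [Finset.sum_const, nsmul_eq_mul]
          _ ≤ P.card * (γ / 2 * M) := by
              apply mul_le_mul_of_nonneg_right _ (by positivity)
              exact_mod_cast Finset.card_filter_le _ _
    have h2 : γ * (P.card * M) ≤ P'.card * M + P.card * (γ / 2 * M) := h.trans h1
    have h3 : (γ / 2 * P.card) * M ≤ (P'.card : ℝ) * M := by linarith
    exact le_of_mul_le_mul_right h3 hMpos
  -- double counting
  have hdc : ∑ Z' ∈ Finset.powersetCard t Z, (P.filter (fun p => ∀ z ∈ Z', r p z)).card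
      = ∑ p ∈ P, ((Z.filter (r p)).card).choose t := by
    have h1 := Finset.sum_card_bipartiteAbove_eq_sum_card_bipartiteBelow
      (fun (Z' : Finset β) (p : α) => ∀ z ∈ Z', r p z) (s := Finset.powersetCard t Z) (t := P)
    unfold Finset.bipartiteAbove Finset.bipartiteBelow at h1
    rw [h1]
    apply Finset.sum_congr rfl
    intro p _
    rw [← Finset.card_powersetCard]
    congr 1
    ext W
    simp only [Finset.mem_filter, Finset.mem_powersetCard, Finset.subset_iff]
    constructor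
    · rintro ⟨⟨h1, h2⟩, h3⟩
      exact ⟨fun z hz => ⟨h1 hz, h3 z hz⟩, h2⟩
    · rintro ⟨h1, h2⟩
      exact ⟨⟨fun z hz => (h1 hz).1, h2⟩, fun z hz => (h1 hz).2⟩
  have hlow : (γ / 2) * (γ / 4) ^ t * P.card * (M ^ t / (t.factorial : ℝ)) ≤
      ∑ p ∈ P, (((Z.filter (r p)).card).choose t : ℝ) := by
    calc (γ / 2) * (γ / 4) ^ t * P.card * (M ^ t / (t.factorial : ℝ))
        = (γ / 2 * P.card) * ((γ / 4 * M) ^ t / (t.factorial : ℝ)) := by rw [mul_pow]; ring
      _ ≤ P'.card * ((γ / 4 * M) ^ t / (t.factorial : ℝ)) := by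
          apply mul_le_mul_of_nonneg_right hP'card (by positivity)
      _ = ∑ p ∈ P', ((γ / 4 * M) ^ t / (t.factorial : ℝ)) := by
          rw [Finset.sum_const, nsmul_eq_mul]
      _ ≤ ∑ p ∈ P', (((Z.filter (r p)).card).choose t : ℝ) := by
          apply Finset.sum_le_sum
          intro p hp
          rw [hP', Finset.mem_filter] at hp
          refine le_trans ?_ (Nat.pow_le_choose (α := ℝ) t _)
          apply div_le_div_of_nonneg_right _ (by positivity)
          apply pow_le_pow_left₀ (by positivity)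
          have h1 := hp.2
          have h2 : t ≤ (Z.filter (r p)).card + 1 := by
            have : (t : ℝ) ≤ ((Z.filter (r p)).card : ℝ) + 1 := by
              have : (0 : ℝ) ≤ t := by positivity
              linarith
            exact_mod_cast this
          rw [Nat.cast_sub h2]
          push_cast
          linarith
      _ ≤ ∑ p ∈ P, (((Z.filter (r p)).card).choose t : ℝ) := by
          apply Finset.sum_le_sum_of_subset_of_nonneg (Finset.filter_subset _ _)
          intros; positivity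
  -- averaging
  have hne : (Finset.powersetCard t Z).Nonempty := by
    rw [Finset.powersetCard_nonempty]; exact htM
  have hsum : ∑ Z' ∈ Finset.powersetCard t Z, ((γ / 2) * (γ / 4) ^ t * P.card) ≤
      ∑ Z' ∈ Finset.powersetCard t Z, ((P.filter (fun p => ∀ z ∈ Z', r p z)).card : ℝ) := by
    have h1 : ∑ Z' ∈ Finset.powersetCard t Z, ((P.filter (fun p => ∀ z ∈ Z', r p z)).card : ℝ)
        = ∑ p ∈ P, (((Z.filter (r p)).card).choose t : ℝ) := by exact_mod_cast hdc
    rw [h1, Finset.sum_const, Finset.card_powersetCard, nsmul_eq_mul]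
    refine le_trans ?_ hlow
    rw [mul_comm]
    apply mul_le_mul_of_nonneg_left (Nat.choose_le_pow_div t _) (by positivity)
  obtain ⟨Z', hZ', hle⟩ := Finset.exists_le_of_sum_le hne hsum
  rw [Finset.mem_powersetCard] at hZ'
  exact ⟨Z', hZ'.1, hZ'.2, hle⟩

/-- Dense tripartite triple systems contain complete tripartite subsystems. -/
theorem exists_complete_tripartite (γ : ℝ) (hγ : 0 < γ) (t : ℕ) :
    ∃ S₀ : ℕ, ∀ {V : Type} [DecidableEq V] (X Y Z : Finset V) (E : V → V → V → Prop)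
      [∀ a b c, Decidable (E a b c)],
      S₀ ≤ X.card → S₀ ≤ Y.card → S₀ ≤ Z.card →
      γ * (X.card * Y.card * Z.card) ≤
        (((X ×ˢ Y ×ˢ Z).filter (fun x => E x.1 x.2.1 x.2.2)).card : ℝ) →
      ∃ X' ⊆ X, ∃ Y' ⊆ Y, ∃ Z' ⊆ Z, X'.card = t ∧ Y'.card = t ∧ Z'.card = t ∧
        ∀ x ∈ X', ∀ y ∈ Y', ∀ z ∈ Z', E x y z := by
  -- reduce to γ ≤ 1
  set γ1 : ℝ := min γ 1 with hγ1
  have hγ1pos : 0 < γ1 := lt_min hγ one_pos
  have hγ1le : γ1 ≤ 1 := min_le_right _ _
  set κ1 : ℝ := (γ1 / 2) * (γ1 / 4) ^ t with hκ1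
  have hκ1pos : 0 < κ1 := by positivity
  have hκ1le : κ1 ≤ 1 := by
    have h1 : (γ1 / 4) ^ t ≤ 1 := pow_le_one₀ (by positivity) (by linarith)
    have h2 : γ1 / 2 ≤ 1 := by linarith
    exact mul_le_one₀ h2 (by positivity) h1
  set κ2 : ℝ := (κ1 / 2) * (κ1 / 4) ^ t with hκ2
  have hκ2pos : 0 < κ2 := by positivity
  obtain ⟨S₀, hS₀⟩ := exists_nat_gt (max (max (4 * t / γ1) (4 * t / κ1)) (t / κ2))
  refine ⟨S₀ + 1, ?_⟩
  intro V _ X Y Z E _ hX hY hZ hdens
  have hS1 : 4 * (t : ℝ) / γ1 < S₀ := lt_of_le_of_lt ((le_max_left _ _).trans (le_max_left _ _)) hS₀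
  have hS2 : 4 * (t : ℝ) / κ1 < S₀ := lt_of_le_of_lt ((le_max_right _ _).trans (le_max_left _ _)) hS₀
  have hS3 : (t : ℝ) / κ2 < S₀ := lt_of_le_of_lt (le_max_right _ _) hS₀
  rw [div_lt_iff₀ hγ1pos] at hS1
  rw [div_lt_iff₀ hκ1pos] at hS2
  rw [div_lt_iff₀ hκ2pos] at hS3
  have hXr : (S₀ : ℝ) ≤ X.card := by exact_mod_cast (Nat.le_succ _).trans hX
  have hYr : (S₀ : ℝ) ≤ Y.card := by exact_mod_cast (Nat.le_succ _).trans hY
  have hZr : (S₀ : ℝ) ≤ Z.card := by exact_mod_cast (Nat.le_succ _).trans hZ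
  -- first application: P = X × Y, Z
  have hd1 : γ1 * (((X ×ˢ Y).card : ℝ) * Z.card) ≤
      ∑ p ∈ X ×ˢ Y, ((Z.filter (fun z => E p.1 p.2 z)).card : ℝ) := by
    have h1 : (((X ×ˢ Y ×ˢ Z).filter (fun x => E x.1 x.2.1 x.2.2)).card : ℝ)
        = ∑ p ∈ X ×ˢ Y, ((Z.filter (fun z => E p.1 p.2 z)).card : ℝ) := by
      have h2 : ((X ×ˢ Y ×ˢ Z).filter (fun x => E x.1 x.2.1 x.2.2)).card
        = ∑ p ∈ X ×ˢ Y, ((Z.filter (fun z => E p.1 p.2 z)).card) := by
        simp only [Finset.card_filter]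
        rw [Finset.sum_product, Finset.sum_product]
        apply Finset.sum_congr rfl
        intro x _
        rw [Finset.sum_product]
      exact_mod_cast h2
    rw [← h1]
    refine le_trans ?_ hdens
    rw [Finset.card_product]
    push_cast
    apply mul_le_mul_of_nonneg_right (min_le_left _ _) (by positivity)
  obtain ⟨Z', hZ'sub, hZ'card, hZ'⟩ := common_nbhd γ1 hγ1pos hγ1le t (X ×ˢ Y) Z
    (fun p z => E p.1 p.2 z) (by nlinarith) (by omega) hd1
  set L := (X ×ˢ Y).filter (fun p => ∀ z ∈ Z', E p.1 p.2 z) with hL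
  -- second application
  have hd2 : κ1 * ((X.card : ℝ) * Y.card) ≤
      ∑ x ∈ X, ((Y.filter (fun y => ∀ z ∈ Z', E x y z)).card : ℝ) := by
    have h1 : (L.card : ℝ) = ∑ x ∈ X, ((Y.filter (fun y => ∀ z ∈ Z', E x y z)).card : ℝ) := by
      have h2 : L.card = ∑ x ∈ X, ((Y.filter (fun y => ∀ z ∈ Z', E x y z)).card) := by
        rw [hL]
        simp only [Finset.card_filter]
        rw [Finset.sum_product]
      exact_mod_cast h2
    rw [← h1]
    rw [Finset.card_product] at hZ'
    push_cast at hZ'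
    exact hZ'
  obtain ⟨Y', hY'sub, hY'card, hY'⟩ := common_nbhd κ1 hκ1pos hκ1le t X Y
    (fun x y => ∀ z ∈ Z', E x y z) (by nlinarith) (by omega) hd2
  have hXt : t ≤ (X.filter (fun x => ∀ y ∈ Y', ∀ z ∈ Z', E x y z)).card := by
    have h1 : (t : ℝ) ≤ ((X.filter (fun x => ∀ y ∈ Y', ∀ z ∈ Z', E x y z)).card : ℝ) := by
      refine le_trans ?_ hY'
      nlinarith
    exact_mod_cast h1
  obtain ⟨X', hX'sub, hX'card⟩ := Finset.exists_subset_card_eq hXt
  refine ⟨X', hX'sub.trans (Finset.filter_subset _ _), Y', hY'sub, Z', hZ'sub, hX'card, hY'card,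
    hZ'card, ?_⟩
  intro x hx y hy z hz
  have := hX'sub hx
  rw [Finset.mem_filter] at this
  exact this.2 y hy z hz

end Pool.Agent.LooseHC
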