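import Mathlib

set_option autoImplicit false

/-!
Counting absorbers and connecting triples.
-/

namespace Pool.Agent.LooseHC

open Finset

section

variable {V : Type} [Fintype V] [DecidableEq V]

/-- Codegree. -/
noncomputable def nb (E : V → V → V → Prop) (x v : V) : Finset V := by
  classical
  exact univ.filter (fun w => E x v w)

omit [DecidableEq V] in
lemma mem_nb {E : V → V → V → Prop} {x v w : V} : w ∈ nb E x v ↔ E x v w := by
  simp [nb]

/-- Vertices with large codegree with `x`. -/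
noncomputable def DD (E : V → V → V → Prop) (γ : ℝ) (x : V) : Finset V := by
  classical
  exact univ.filter (fun v => γ * (Fintype.card V : ℝ) ≤ ((nb E x v).card : ℝ))

omit [DecidableEq V] in
lemma mem_DD {E : V → V → V → Prop} {γ : ℝ} {x v : V} :
    v ∈ DD E γ x ↔ γ * (Fintype.card V : ℝ) ≤ ((nb E x v).card : ℝ) := by
  simp [DD]

/-- Link (ordered pairs). -/
noncomputable def link (E : V → V → V → Prop) (x : V) : Finset (V × V) := by
  classical
  exact univ.filter (fun p => E x p.1 p.2)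

omit [DecidableEq V] in
lemma mem_link {E : V → V → V → Prop} {x : V} {p : V × V} : p ∈ link E x ↔ E x p.1 p.2 := by
  simp [link]

/-- number of link pairs whose first coordinate is not in `DD` -/
lemma link_outside_left (E : V → V → V → Prop) (γ : ℝ) (hγ : 0 ≤ γ) (x : V) :
    (((link E x).filter (fun p => p.1 ∉ DD E γ x)).card : ℝ) ≤ γ * (Fintype.card V : ℝ) ^ 2 := by
  classical
  have h1 : (link E x).filter (fun p => p.1 ∉ DD E γ x) ⊆
      ((univ.filter (fun v => v ∉ DD E γ x)).biUnion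
        (fun v => (nb E x v).image (fun w => (v, w)))) := by
    rintro ⟨a, b⟩ h
    rw [Finset.mem_filter, mem_link] at h
    rw [Finset.mem_biUnion]
    exact ⟨a, by simpa using h.2, Finset.mem_image.mpr ⟨b, mem_nb.mpr h.1, rfl⟩⟩
  have h2 := (Finset.card_le_card h1).trans Finset.card_biUnion_le
  have h3 : (((link E x).filter (fun p => p.1 ∉ DD E γ x)).card : ℝ) ≤
      ∑ v ∈ univ.filter (fun v => v ∉ DD E γ x), (γ * (Fintype.card V : ℝ)) := by
    have h2' : (((link E x).filter (fun p => p.1 ∉ DD E γ x)).card : ℝ) ≤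
        ∑ v ∈ univ.filter (fun v => v ∉ DD E γ x),
          (((nb E x v).image (fun w => (v, w))).card : ℝ) := by exact_mod_cast h2
    refine le_trans h2' ?_
    apply Finset.sum_le_sum
    intro v hv
    rw [Finset.mem_filter, mem_DD, not_le] at hv
    refine le_trans ?_ hv.2.le
    exact_mod_cast Finset.card_image_le
  refine h3.trans ?_
  rw [Finset.sum_const, nsmul_eq_mul]
  have h4 : ((univ.filter (fun v => v ∉ DD E γ x)).card : ℝ) ≤ (Fintype.card V : ℝ) := by
    exact_mod_cast Finset.card_le_univ _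
  have h5 : 0 ≤ γ * (Fintype.card V : ℝ) := by positivity
  nlinarith

lemma link_outside_right (E : V → V → V → Prop) (hsym2 : ∀ a b c, E a b c → E a c b) (γ : ℝ)
    (hγ : 0 ≤ γ) (x : V) :
    (((link E x).filter (fun p => p.2 ∉ DD E γ x)).card : ℝ) ≤ γ * (Fintype.card V : ℝ) ^ 2 := by
  classical
  refine le_trans ?_ (link_outside_left E γ hγ x)
  have : ((link E x).filter (fun p => p.2 ∉ DD E γ x)).card ≤
      ((link E x).filter (fun p => p.1 ∉ DD E γ x)).card := by
    apply Finset.card_le_card_of_injOn (fun p => (p.2, p.1))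
    · rintro ⟨a, b⟩ h
      simp only [Finset.coe_filter, mem_link, Set.mem_ofPred_eq] at h ⊢
      exact ⟨hsym2 _ _ _ h.1, h.2⟩
    · rintro ⟨a, b⟩ _ ⟨a', b'⟩ _ h
      simp only [Prod.mk.injEq] at h ⊢
      exact ⟨h.2, h.1⟩
  exact_mod_cast this

/-- The link is mostly inside `DD × DD`. -/
lemma link_card_le (E : V → V → V → Prop) (hsym2 : ∀ a b c, E a b c → E a c b) (γ : ℝ)
    (hγ : 0 ≤ γ) (x : V) :
    ((link E x).card : ℝ) ≤
      (((link E x).filter (fun p => p.1 ∈ DD E γ x ∧ p.2 ∈ DD E γ x)).card : ℝ)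
      + 2 * (γ * (Fintype.card V : ℝ) ^ 2) := by
  classical
  have h1 : link E x ⊆ ((link E x).filter (fun p => p.1 ∈ DD E γ x ∧ p.2 ∈ DD E γ x)) ∪
      (((link E x).filter (fun p => p.1 ∉ DD E γ x)) ∪
        ((link E x).filter (fun p => p.2 ∉ DD E γ x))) := by
    intro p hp
    simp only [Finset.mem_union, Finset.mem_filter]
    tauto
  have h2 := (Finset.card_le_card h1).trans ((Finset.card_union_le _ _).trans
    (Nat.add_le_add_left (Finset.card_union_le _ _) _))
  have h3 := link_outside_left E γ hγ x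
  have h4 := link_outside_right E hsym2 γ hγ x
  have h5 : ((link E x).card : ℝ) ≤
      (((link E x).filter (fun p => p.1 ∈ DD E γ x ∧ p.2 ∈ DD E γ x)).card : ℝ) +
      ((((link E x).filter (fun p => p.1 ∉ DD E γ x)).card : ℝ) +
        (((link E x).filter (fun p => p.2 ∉ DD E γ x)).card : ℝ)) := by
    exact_mod_cast h2
  linarith

/-- `|DD x| ≥ 13/20 n`. -/
lemma DD_card (E : V → V → V → Prop) (hsym2 : ∀ a b c, E a b c → E a c b) (x : V)
    (hdeg : 7 / 16 * (Fintype.card V : ℝ) ^ 2 ≤ ((link E x).card : ℝ)) :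
    13 / 20 * (Fintype.card V : ℝ) ≤ ((DD E (1 / 200) x).card : ℝ) := by
  classical
  set N : ℝ := (Fintype.card V : ℝ) with hN
  have hN0 : 0 ≤ N := by positivity
  have h1 := link_card_le E hsym2 (1 / 200) (by norm_num) x
  have h2 : ((link E x).filter (fun p => p.1 ∈ DD E (1 / 200) x ∧ p.2 ∈ DD E (1 / 200) x)).card
      ≤ (DD E (1 / 200) x).card * (DD E (1 / 200) x).card := by
    rw [← Finset.card_product]
    apply Finset.card_le_card
    intro p hp
    rw [Finset.mem_filter] at hp
    rw [Finset.mem_product]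
    exact hp.2
  have h3 : (((link E x).filter
      (fun p => p.1 ∈ DD E (1 / 200) x ∧ p.2 ∈ DD E (1 / 200) x)).card : ℝ) ≤
      ((DD E (1 / 200) x).card : ℝ) * (DD E (1 / 200) x).card := by exact_mod_cast h2
  by_contra hcon
  push Not at hcon
  have h4 : ((DD E (1 / 200) x).card : ℝ) * (DD E (1 / 200) x).card ≤
      (13 / 20 * N) * (13 / 20 * N) :=
    mul_le_mul hcon.le hcon.le (by positivity) (by positivity)
  rcases hN0.eq_or_lt with h | h
  · rw [← h] at hcon
    have : (0 : ℝ) ≤ ((DD E (1 / 200) x).card : ℝ) := by positivity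
    linarith
  · have : 0 < N ^ 2 := by positivity
    nlinarith

/-- Good middle vertices. -/
noncomputable def QQ (E : V → V → V → Prop) (x y : V) : Finset V := by
  classical
  exact (DD E (9 / 25) x ∩ DD E (1 / 200) y)

omit [DecidableEq V] in
lemma DD_mono (E : V → V → V → Prop) (γ γ' : ℝ) (h : γ ≤ γ') (x : V) :
    DD E γ' x ⊆ DD E γ x := by
  intro v hv
  rw [mem_DD] at hv ⊢
  refine le_trans ?_ hv
  exact mul_le_mul_of_nonneg_right h (by positivity)

lemma link_bound (E : V → V → V → Prop) (hsym2 : ∀ a b c, E a b c → E a c b) (x : V)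
    (hdeg : 7 / 16 * (Fintype.card V : ℝ) ^ 2 ≤ ((link E x).card : ℝ)) :
    7 / 16 * (Fintype.card V : ℝ) ^ 2 ≤
      ((DD E (9 / 25) x).card : ℝ) * (DD E (1 / 200) x).card +
      (((DD E (1 / 200) x).card : ℝ) - (DD E (9 / 25) x).card) *
        (9 / 25 * (Fintype.card V : ℝ)) + 1 / 100 * (Fintype.card V : ℝ) ^ 2 := by
  classical
  set N : ℝ := (Fintype.card V : ℝ) with hN
  have h1 := link_card_le E hsym2 (1 / 200) (by norm_num) x
  set D := DD E (1 / 200) x with hD
  set H := DD E (9 / 25) x with hH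
  have hHD : H ⊆ D := DD_mono E _ _ (by norm_num) x
  have h2 : (link E x).filter (fun p => p.1 ∈ D ∧ p.2 ∈ D) ⊆
      (H ×ˢ D) ∪ ((D \ H).biUnion (fun v => (nb E x v).image (fun w => (v, w)))) := by
    rintro ⟨a, b⟩ h
    rw [Finset.mem_filter, mem_link] at h
    simp only [Finset.mem_union, Finset.mem_product, Finset.mem_biUnion, Finset.mem_sdiff,
      Finset.mem_image]
    by_cases ha : a ∈ H
    · left; exact ⟨ha, h.2.2⟩
    · right; exact ⟨a, ⟨h.2.1, ha⟩, b, mem_nb.mpr h.1, rfl⟩
  have h3 := (Finset.card_le_card h2).trans ((Finset.card_union_le _ _).trans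
    (Nat.add_le_add_left Finset.card_biUnion_le _))
  rw [Finset.card_product] at h3
  have h4 : (((link E x).filter (fun p => p.1 ∈ D ∧ p.2 ∈ D)).card : ℝ) ≤
      (H.card : ℝ) * D.card + ∑ v ∈ D \ H, (((nb E x v).image (fun w => (v, w))).card : ℝ) := by
    exact_mod_cast h3
  have h5 : ∑ v ∈ D \ H, (((nb E x v).image (fun w => (v, w))).card : ℝ) ≤
      ∑ v ∈ D \ H, (9 / 25 * N) := by
    apply Finset.sum_le_sum
    intro v hv
    rw [Finset.mem_sdiff] at hv
    have hv2 := hv.2
    rw [hH, mem_DD, not_le] at hv2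
    refine le_trans ?_ hv2.le
    exact_mod_cast Finset.card_image_le
  rw [Finset.sum_const, nsmul_eq_mul, Finset.card_sdiff_of_subset hHD,
    Nat.cast_sub (Finset.card_le_card hHD)] at h5
  linarith

/-- There are many good middle vertices. -/
lemma QQ_card (E : V → V → V → Prop) (hsym2 : ∀ a b c, E a b c → E a c b)
    (hdeg : ∀ x, 7 / 16 * (Fintype.card V : ℝ) ^ 2 ≤ ((link E x).card : ℝ)) (x y : V) :
    1 / 200 * (Fintype.card V : ℝ) ≤ ((QQ E x y).card : ℝ) ∨
    1 / 200 * (Fintype.card V : ℝ) ≤ ((QQ E y x).card : ℝ) := by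
  classical
  set N : ℝ := (Fintype.card V : ℝ) with hN
  have hN0 : 0 ≤ N := by positivity
  by_contra hcon
  push Not at hcon
  obtain ⟨c1, c2⟩ := hcon
  have key : ∀ a b, ((QQ E a b).card : ℝ) < 1 / 200 * N →
      ((DD E (9 / 25) a).card : ℝ) + (DD E (1 / 200) b).card ≤ N + 1 / 200 * N := by
    intro a b h
    have h1 := Finset.card_union_add_card_inter (DD E (9 / 25) a) (DD E (1 / 200) b)
    have h2 := Finset.card_le_univ (DD E (9 / 25) a ∪ DD E (1 / 200) b)
    have h3 : ((DD E (9 / 25) a).card : ℝ) + (DD E (1 / 200) b).card ≤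
        (Fintype.card V : ℝ) + ((DD E (9 / 25) a ∩ DD E (1 / 200) b).card : ℝ) := by
      have : (DD E (9 / 25) a).card + (DD E (1 / 200) b).card ≤
        Fintype.card V + (DD E (9 / 25) a ∩ DD E (1 / 200) b).card := by omega
      exact_mod_cast this
    have h4 : (QQ E a b).card = (DD E (9 / 25) a ∩ DD E (1 / 200) b).card := by
      unfold QQ; congr
    rw [h4] at h
    rw [← hN] at h3
    linarith
  have k1 := key x y c1
  have k2 := key y x c2
  have b1 := link_bound E hsym2 x (hdeg x)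
  have b2 := link_bound E hsym2 y (hdeg y)
  rw [← hN] at b1 b2
  set hx : ℝ := ((DD E (9 / 25) x).card : ℝ)
  set hy : ℝ := ((DD E (9 / 25) y).card : ℝ)
  set dx : ℝ := ((DD E (1 / 200) x).card : ℝ)
  set dy : ℝ := ((DD E (1 / 200) y).card : ℝ)
  have hx0 : 0 ≤ hx := by positivity
  have hy0 : 0 ≤ hy := by positivity
  rcases hN0.eq_or_lt with h | hNpos
  · rw [← h] at c1
    have : (0 : ℝ) ≤ ((QQ E x y).card : ℝ) := by positivity
    linarith
  -- normalised inequality
  have main : ∀ h h' d : ℝ, 0 ≤ h → h ≤ h' → d + h' ≤ N + 1 / 200 * N →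
      7 / 16 * N ^ 2 ≤ h * d + (d - h) * (9 / 25 * N) + 1 / 100 * N ^ 2 → False := by
    intro h h' d h0 hh hd hineq
    have e1 : h * d + (d - h) * (9 / 25 * N) ≤
        h * (N + 1 / 200 * N - h) + (N + 1 / 200 * N - 2 * h) * (9 / 25 * N) := by
      have e2 : d ≤ N + 1 / 200 * N - h := by linarith
      have e3 : h * d ≤ h * (N + 1 / 200 * N - h) := mul_le_mul_of_nonneg_left e2 h0
      have e4 : d * (9 / 25 * N) ≤ (N + 1 / 200 * N - h) * (9 / 25 * N) :=
        mul_le_mul_of_nonneg_right e2 (by positivity)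
      linarith
    have e5 : 0 < N ^ 2 := by positivity
    nlinarith [sq_nonneg (h - (57 / 400) * N)]
  rcases le_total hx hy with h | h
  · exact main hx hy dx hx0 h (by linarith) b1
  · exact main hy hx dy hy0 h (by linarith) b2

end

end Pool.Agent.LooseHC
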