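import Pool.Agent.Helper26.LooseHC.Counts

set_option autoImplicit false

/-!
Counting absorbers and connecting triples, as functions on `Fin k`.
-/

namespace Pool.Agent.LooseHC

open Finset

lemma card_pairs_ge {α β : Type} [Fintype α] [Fintype β] (P : α → β → Prop)
    [∀ a b, Decidable (P a b)] (A : Finset α) (b : ℝ)
    (h : ∀ a ∈ A, b ≤ ((univ.filter (fun y => P a y)).card : ℝ)) :
    (A.card : ℝ) * b ≤ ((univ.filter (fun x : α × β => P x.1 x.2)).card : ℝ) := by
  classical
  have h1 : (univ.filter (fun x : α × β => P x.1 x.2)).card =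
      ∑ a, (univ.filter (fun y => P a y)).card := by
    simp only [Finset.card_filter]
    rw [Fintype.sum_prod_type]
  rw [h1]
  push_cast
  calc (A.card : ℝ) * b = ∑ a ∈ A, b := by rw [Finset.sum_const, nsmul_eq_mul]
    _ ≤ ∑ a ∈ A, ((univ.filter (fun y => P a y)).card : ℝ) := Finset.sum_le_sum h
    _ ≤ _ := Finset.sum_le_sum_of_subset_of_nonneg (Finset.subset_univ _)
        (fun _ _ _ => by positivity)

section

variable {V : Type} [Fintype V] [DecidableEq V]

/-- Connecting triples. -/
def Con (E : V → V → V → Prop) (a b : V) (t : Fin 3 → V) : Prop :=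
  E a (t 0) (t 1) ∧ E (t 1) (t 2) b

/-- Absorbers. -/
def Abs (E : V → V → V → Prop) (x y : V) (t : Fin 7 → V) : Prop :=
  E (t 0) (t 1) (t 2) ∧ E (t 2) (t 3) (t 4) ∧ E (t 4) (t 5) (t 6) ∧ E (t 1) x (t 3) ∧
    E (t 3) y (t 5)

lemma con_count (E : V → V → V → Prop) [∀ a b t, Decidable (Con E a b t)]
    (hsym1 : ∀ a b c, E a b c → E b a c) (hsym2 : ∀ a b c, E a b c → E a c b)
    (hdeg : ∀ x, 7 / 16 * (Fintype.card V : ℝ) ^ 2 ≤ ((link E x).card : ℝ)) (a b : V) :
    3 / 400000 * (Fintype.card V : ℝ) ^ 3 ≤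
      ((univ.filter (fun t : Fin 3 → V => Con E a b t)).card : ℝ) := by
  classical
  set N : ℝ := (Fintype.card V : ℝ) with hN
  have hN0 : 0 ≤ N := by positivity
  set A := DD E (1 / 200) a ∩ DD E (1 / 200) b with hA
  have hAcard : 3 / 10 * N ≤ (A.card : ℝ) := by
    have h1 := DD_card E hsym2 a (hdeg a)
    have h2 := DD_card E hsym2 b (hdeg b)
    have h3 := Finset.card_union_add_card_inter (DD E (1 / 200) a) (DD E (1 / 200) b)
    have h4 := Finset.card_le_univ (DD E (1 / 200) a ∪ DD E (1 / 200) b)
    have h5 : ((DD E (1 / 200) a).card : ℝ) + (DD E (1 / 200) b).card ≤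
        (Fintype.card V : ℝ) + (A.card : ℝ) := by
      have : (DD E (1 / 200) a).card + (DD E (1 / 200) b).card ≤
        Fintype.card V + A.card := by rw [hA]; omega
      exact_mod_cast this
    rw [← hN] at h1 h2 h5
    linarith
  have h1 := card_pairs_ge (fun (t1 : V) (x : V × V) => E a x.1 t1 ∧ E t1 x.2 b) A
    ((1 / 200 * N) * (1 / 200 * N)) (by
      intro t1 ht1
      rw [hA, Finset.mem_inter, mem_DD, mem_DD] at ht1
      have h2 : (nb E a t1) ×ˢ (nb E b t1) ⊆
          univ.filter (fun x : V × V => E a x.1 t1 ∧ E t1 x.2 b) := by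
        rintro ⟨u, w⟩ h
        rw [Finset.mem_product, mem_nb, mem_nb] at h
        simp only [Finset.mem_filter, Finset.mem_univ, true_and]
        exact ⟨hsym2 _ _ _ h.1, hsym2 _ _ _ (hsym1 _ _ _ h.2)⟩
      have h3 := Finset.card_le_card h2
      rw [Finset.card_product] at h3
      have h4 : ((nb E a t1).card : ℝ) * (nb E b t1).card ≤
          ((univ.filter (fun x : V × V => E a x.1 t1 ∧ E t1 x.2 b)).card : ℝ) := by
        exact_mod_cast h3
      refine le_trans ?_ h4
      exact mul_le_mul ht1.1 ht1.2 (by positivity) (by positivity))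
  have h2 : (univ.filter (fun x : V × (V × V) => E a x.2.1 x.1 ∧ E x.1 x.2.2 b)).card ≤
      (univ.filter (fun t : Fin 3 → V => Con E a b t)).card := by
    apply Finset.card_le_card_of_injOn (fun x => ![x.2.1, x.1, x.2.2])
    · rintro ⟨t1, t0, t2⟩ h
      simp only [Finset.coe_filter, Finset.mem_univ, true_and, Set.mem_ofPred_eq] at h ⊢
      simpa [Con] using h
    · rintro ⟨t1, t0, t2⟩ _ ⟨t1', t0', t2'⟩ _ h
      have e0 := congrFun h 0
      have e1 := congrFun h 1
      have e2 := congrFun h 2
      simp at e0 e1 e2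
      simp [e0, e1, e2]
  have h3 : ((univ.filter (fun x : V × (V × V) => E a x.2.1 x.1 ∧ E x.1 x.2.2 b)).card : ℝ) ≤
      ((univ.filter (fun t : Fin 3 → V => Con E a b t)).card : ℝ) := by exact_mod_cast h2
  have h4 : (3 / 10 * N) * ((1 / 200 * N) * (1 / 200 * N)) ≤
      (A.card : ℝ) * ((1 / 200 * N) * (1 / 200 * N)) :=
    mul_le_mul_of_nonneg_right hAcard (by positivity)
  calc 3 / 400000 * N ^ 3 = (3 / 10 * N) * ((1 / 200 * N) * (1 / 200 * N)) := by ring
    _ ≤ _ := h4
    _ ≤ _ := h1
    _ ≤ _ := h3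

lemma abs_count_aux (E : V → V → V → Prop) [∀ a b t, Decidable (Abs E a b t)]
    (hsym1 : ∀ a b c, E a b c → E b a c) (hsym2 : ∀ a b c, E a b c → E a c b)
    (hdeg : ∀ x, 7 / 16 * (Fintype.card V : ℝ) ^ 2 ≤ ((link E x).card : ℝ)) (x y : V)
    (hQ : 1 / 200 * (Fintype.card V : ℝ) ≤ ((QQ E x y).card : ℝ)) :
    (1 / 10 ^ 13) * (Fintype.card V : ℝ) ^ 7 ≤
      ((univ.filter (fun t : Fin 7 → V => Abs E x y t)).card : ℝ) := by
  classical
  set N : ℝ := (Fintype.card V : ℝ) with hN
  have hN0 : 0 ≤ N := by positivity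
  -- P v3 (v5, ((v2, v4), (v6, (v1, v0))))
  set P : V → (V × ((V × V) × (V × (V × V)))) → Prop := fun v3 r =>
    E y v3 r.1 ∧ E v3 r.2.1.1 r.2.1.2 ∧ E r.1 r.2.1.2 r.2.2.1 ∧ E x v3 r.2.2.2.1 ∧
      E r.2.1.1 r.2.2.2.1 r.2.2.2.2 with hP
  have h1 := card_pairs_ge P (QQ E x y)
    ((1 / 200 * N) * ((7 / 80 * N ^ 2) * ((1 / 200 * N) * ((1 / 100 * N) * (1 / 200 * N))))) (by
      intro v3 hv3
      have hv3' : v3 ∈ DD E (9 / 25) x ∧ v3 ∈ DD E (1 / 200) y := by
        unfold QQ at hv3
        rw [Finset.mem_inter] at hv3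
        exact hv3
      obtain ⟨hx3, hy3⟩ := hv3'
      rw [mem_DD] at hx3 hy3
      rw [← hN] at hx3 hy3
      -- choose v5
      have h2 := card_pairs_ge (fun (v5 : V) (r : (V × V) × (V × (V × V))) =>
          E y v3 v5 ∧ E v3 r.1.1 r.1.2 ∧ E v5 r.1.2 r.2.1 ∧ E x v3 r.2.2.1 ∧
          E r.1.1 r.2.2.1 r.2.2.2) (nb E y v3)
        ((7 / 80 * N ^ 2) * ((1 / 200 * N) * ((1 / 100 * N) * (1 / 200 * N)))) (by
          intro v5 hv5
          rw [mem_nb] at hv5
          -- choose (v2, v4)
          set B := (link E v3).filter (fun p => p.2 ∈ DD E (1 / 200) v5) with hB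
          have hBcard : 7 / 80 * N ^ 2 ≤ (B.card : ℝ) := by
            have hs : link E v3 ⊆ B ∪ (univ ×ˢ (univ \ DD E (1 / 200) v5)) := by
              intro p hp
              simp only [hB, Finset.mem_union, Finset.mem_filter, Finset.mem_product,
                Finset.mem_univ, true_and, Finset.mem_sdiff]
              tauto
            have e1 := (Finset.card_le_card hs).trans (Finset.card_union_le _ _)
            rw [Finset.card_product, Finset.card_univ] at e1
            have e2 : ((univ \ DD E (1 / 200) v5).card : ℝ) ≤ 7 / 20 * N := by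
              have e3 := Finset.card_sdiff_add_card_eq_card
                (Finset.subset_univ (DD E (1 / 200) v5))
              rw [Finset.card_univ] at e3
              have e4 : ((univ \ DD E (1 / 200) v5).card : ℝ) + (DD E (1 / 200) v5).card = N := by
                rw [hN]; exact_mod_cast e3
              have e5 := DD_card E hsym2 v5 (hdeg v5)
              rw [← hN] at e5
              linarith
            have e6 : ((link E v3).card : ℝ) ≤ (B.card : ℝ) + N * (univ \ DD E (1 / 200) v5).card := by
              rw [hN]; exact_mod_cast e1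
            have e7 := hdeg v3
            have e8 : N * ((univ \ DD E (1 / 200) v5).card : ℝ) ≤ N * (7 / 20 * N) :=
              mul_le_mul_of_nonneg_left e2 hN0
            nlinarith
          have h3 := card_pairs_ge (fun (q : V × V) (r : V × (V × V)) =>
              E y v3 v5 ∧ E v3 q.1 q.2 ∧ E v5 q.2 r.1 ∧ E x v3 r.2.1 ∧
              E q.1 r.2.1 r.2.2) B
            ((1 / 200 * N) * ((1 / 100 * N) * (1 / 200 * N))) (by
              rintro ⟨v2, v4⟩ hq
              rw [hB, Finset.mem_filter, mem_link] at hq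
              obtain ⟨hq1, hq2⟩ := hq
              simp only at hq1 hq2
              rw [mem_DD, ← hN] at hq2
              have h4 := card_pairs_ge (fun (v6 : V) (r : V × V) =>
                E y v3 v5 ∧ E v3 v2 v4 ∧ E v5 v4 v6 ∧ E x v3 r.1 ∧
                E v2 r.1 r.2) (nb E v5 v4) ((1 / 100 * N) * (1 / 200 * N)) (by
                  intro v6 hv6
                  rw [mem_nb] at hv6
                  set G := (nb E x v3) ∩ (DD E (1 / 200) v2) with hG
                  have hGcard : 1 / 100 * N ≤ (G.card : ℝ) := by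
                    have g1 := DD_card E hsym2 v2 (hdeg v2)
                    have g3 := Finset.card_union_add_card_inter (nb E x v3) (DD E (1 / 200) v2)
                    have g4 := Finset.card_le_univ ((nb E x v3) ∪ (DD E (1 / 200) v2))
                    have g5 : ((nb E x v3).card : ℝ) + (DD E (1 / 200) v2).card ≤
                        N + (G.card : ℝ) := by
                      have : (nb E x v3).card + (DD E (1 / 200) v2).card ≤
                        Fintype.card V + G.card := by rw [hG]; omega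
                      rw [hN]; exact_mod_cast this
                    rw [← hN] at g1
                    linarith
                  have h5 := card_pairs_ge (fun (v1 : V) (v0 : V) =>
                    E y v3 v5 ∧ E v3 v2 v4 ∧ E v5 v4 v6 ∧ E x v3 v1 ∧
                    E v2 v1 v0) G (1 / 200 * N) (by
                      intro v1 hv1
                      rw [hG, Finset.mem_inter, mem_nb, mem_DD, ← hN] at hv1
                      refine hv1.2.trans ?_
                      apply Nat.cast_le.mpr
                      apply Finset.card_le_card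
                      intro v0 hv0
                      rw [mem_nb] at hv0
                      simp only [Finset.mem_filter, Finset.mem_univ, true_and]
                      exact ⟨hv5, hq1, hv6, hv1.1, hv0⟩)
                  refine le_trans ?_ h5
                  exact mul_le_mul_of_nonneg_right hGcard (by positivity))
              refine le_trans ?_ h4
              exact mul_le_mul_of_nonneg_right hq2 (by positivity))
          refine le_trans ?_ h3
          exact mul_le_mul_of_nonneg_right hBcard (by positivity))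
      refine le_trans ?_ h2
      exact mul_le_mul_of_nonneg_right hy3 (by positivity))
  have h2 : (univ.filter (fun r : V × (V × ((V × V) × (V × (V × V)))) => P r.1 r.2)).card ≤
      (univ.filter (fun t : Fin 7 → V => Abs E x y t)).card := by
    apply Finset.card_le_card_of_injOn (fun r =>
      ![r.2.2.2.2.2, r.2.2.2.2.1, r.2.2.1.1, r.1, r.2.2.1.2, r.2.1, r.2.2.2.1])
    · rintro ⟨v3, v5, ⟨v2, v4⟩, v6, v1, v0⟩ h
      simp only [Finset.coe_filter, Finset.mem_univ, true_and, Set.mem_ofPred_eq, hP] at h ⊢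
      obtain ⟨k1, k2, k3, k4, k5⟩ := h
      have a1 : E v0 v1 v2 := hsym1 _ _ _ (hsym2 _ _ _ (hsym1 _ _ _ k5))
      have a2 : E v2 v3 v4 := hsym1 _ _ _ k2
      have a3 : E v4 v5 v6 := hsym1 _ _ _ k3
      have a4 : E v1 x v3 := hsym1 _ _ _ (hsym2 _ _ _ k4)
      have a5 : E v3 y v5 := hsym1 _ _ _ k1
      exact ⟨a1, a2, a3, a4, a5⟩
    · rintro ⟨v3, v5, ⟨v2, v4⟩, v6, v1, v0⟩ _ ⟨v3', v5', ⟨v2', v4'⟩, v6', v1', v0'⟩ _ h
      have e0 := congrFun h 0
      have e1 := congrFun h 1
      have e2 := congrFun h 2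
      have e3 := congrFun h 3
      have e4 := congrFun h 4
      have e5 := congrFun h 5
      have e6 := congrFun h 6
      simp at e0 e1 e2 e3 e4 e5 e6
      simp [e0, e1, e2, e3, e4, e5, e6]
  have h3 : ((univ.filter (fun r : V × (V × ((V × V) × (V × (V × V)))) => P r.1 r.2)).card : ℝ) ≤
      ((univ.filter (fun t : Fin 7 → V => Abs E x y t)).card : ℝ) := by exact_mod_cast h2
  have h4 : (1 / 200 * N) * ((1 / 200 * N) * ((7 / 80 * N ^ 2) * ((1 / 200 * N) *
      ((1 / 100 * N) * (1 / 200 * N))))) ≤ ((QQ E x y).card : ℝ) *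
      ((1 / 200 * N) * ((7 / 80 * N ^ 2) * ((1 / 200 * N) * ((1 / 100 * N) * (1 / 200 * N))))) :=
    mul_le_mul_of_nonneg_right hQ (by positivity)
  have h5 : (1 / 10 ^ 13) * N ^ 7 ≤ (1 / 200 * N) * ((1 / 200 * N) * ((7 / 80 * N ^ 2) *
      ((1 / 200 * N) * ((1 / 100 * N) * (1 / 200 * N))))) := by
    have : (1 / 200 * N) * ((1 / 200 * N) * ((7 / 80 * N ^ 2) *
      ((1 / 200 * N) * ((1 / 100 * N) * (1 / 200 * N))))) = (7 / (80 * 100 * 200 ^ 4)) * N ^ 7 := by
      ring
    rw [this]
    apply mul_le_mul_of_nonneg_right _ (by positivity)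
    norm_num
  exact h5.trans (h4.trans (h1.trans h3))

lemma abs_count (E : V → V → V → Prop) [∀ a b t, Decidable (Abs E a b t)]
    (hsym1 : ∀ a b c, E a b c → E b a c) (hsym2 : ∀ a b c, E a b c → E a c b)
    (hdeg : ∀ x, 7 / 16 * (Fintype.card V : ℝ) ^ 2 ≤ ((link E x).card : ℝ)) (x y : V) :
    (1 / 10 ^ 13) * (Fintype.card V : ℝ) ^ 7 ≤
      ((univ.filter (fun t : Fin 7 → V => Abs E x y t)).card : ℝ) := by
  classical
  rcases QQ_card E hsym2 hdeg x y with h | h
  · exact abs_count_aux E hsym1 hsym2 hdeg x y h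
  · refine (abs_count_aux E hsym1 hsym2 hdeg y x h).trans ?_
    apply Nat.cast_le.mpr
    apply Finset.card_le_card_of_injOn (fun t => t ∘ Fin.rev)
    · intro t ht
      simp only [Finset.coe_filter, Finset.mem_univ, true_and, Set.mem_ofPred_eq] at ht ⊢
      obtain ⟨k1, k2, k3, k4, k5⟩ := ht
      have r0 : (t ∘ Fin.rev) 0 = t 6 := rfl
      have r1 : (t ∘ Fin.rev) 1 = t 5 := rfl
      have r2 : (t ∘ Fin.rev) 2 = t 4 := rfl
      have r3 : (t ∘ Fin.rev) 3 = t 3 := rfl
      have r4 : (t ∘ Fin.rev) 4 = t 2 := rfl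
      have r5 : (t ∘ Fin.rev) 5 = t 1 := rfl
      have r6 : (t ∘ Fin.rev) 6 = t 0 := rfl
      unfold Abs
      rw [r0, r1, r2, r3, r4, r5, r6]
      have rv : ∀ a b c, E a b c → E c b a := fun a b c h => hsym1 _ _ _ (hsym2 _ _ _ (hsym1 _ _ _ h))
      exact ⟨rv _ _ _ k3, rv _ _ _ k2, rv _ _ _ k1, rv _ _ _ k5, rv _ _ _ k4⟩
    · intro t _ t' _ h
      funext i
      have := congrFun h (Fin.rev i)
      simpa using this

/-- Tuples with a coincidence are few. -/
lemma card_coincide {I : Type} [Fintype I] [DecidableEq I] (p q : I) (hpq : p ≠ q) :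
    (univ.filter (fun g : I → V => g p = g q)).card ≤
      (Fintype.card V) ^ (Fintype.card I - 1) := by
  classical
  have h1 : (univ.filter (fun g : I → V => g p = g q)).card ≤
      (univ : Finset ({l : I // l ≠ q} → V)).card := by
    apply Finset.card_le_card_of_injOn (fun g l => g l.1)
    · intro g _; simp
    · intro g hg g' hg' h
      simp only [Finset.coe_filter, Finset.mem_univ, true_and, Set.mem_ofPred_eq] at hg hg'
      funext l
      by_cases hl : l = q
      · subst hl
        rw [← hg, ← hg']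
        exact congrFun h ⟨p, hpq⟩
      · exact congrFun h ⟨l, hl⟩
  refine h1.trans ?_
  rw [Finset.card_univ, Fintype.card_fun]
  apply le_of_eq
  congr 1
  rw [Fintype.card_subtype_compl, Fintype.card_subtype_eq]

/-- Tuples hitting a set at a given position. -/
lemma card_hit {k : ℕ} (Z : Finset V) (i : Fin k) :
    (univ.filter (fun t : Fin k → V => t i ∈ Z)).card ≤ Z.card * (Fintype.card V) ^ (k - 1) := by
  classical
  have h1 : (univ.filter (fun t : Fin k → V => t i ∈ Z)).card ≤
      (Z ×ˢ (univ : Finset ({l : Fin k // l ≠ i} → V))).card := by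
    apply Finset.card_le_card_of_injOn (fun g => (g i, fun l => g l.1))
    · intro g hg
      simp only [Finset.coe_filter, Finset.mem_univ, true_and, Set.mem_ofPred_eq] at hg
      simpa using hg
    · intro g _ g' _ h
      simp only [Prod.mk.injEq] at h
      funext l
      by_cases hl : l = i
      · subst hl; exact h.1
      · exact congrFun h.2 ⟨l, hl⟩
  refine h1.trans ?_
  rw [Finset.card_product, Finset.card_univ, Fintype.card_fun]
  apply le_of_eq
  congr 2
  rw [Fintype.card_subtype_compl, Fintype.card_subtype_eq, Fintype.card_fin]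

/-- Number of non-injective or `Z`-hitting tuples. -/
lemma card_bad {k : ℕ} (Z : Finset V) :
    ((univ.filter (fun t : Fin k → V => ¬ (Function.Injective t ∧ ∀ i, t i ∉ Z))).card : ℝ) ≤
      (k ^ 2 + k * Z.card) * (Fintype.card V : ℝ) ^ (k - 1) := by
  classical
  have h1 : (univ.filter (fun t : Fin k → V => ¬ (Function.Injective t ∧ ∀ i, t i ∉ Z))) ⊆
      ((univ.filter (fun p : Fin k × Fin k => p.1 ≠ p.2)).biUnion
        (fun p => univ.filter (fun t : Fin k → V => t p.1 = t p.2))) ∪
      ((univ : Finset (Fin k)).biUnion (fun i => univ.filter (fun t : Fin k → V => t i ∈ Z))) := by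
    intro t ht
    simp only [Finset.mem_filter, Finset.mem_univ, true_and, Finset.mem_union,
      Finset.mem_biUnion] at ht ⊢
    rw [not_and_or] at ht
    rcases ht with ht | ht
    · left
      unfold Function.Injective at ht
      push Not at ht
      obtain ⟨a, b, hab, hne⟩ := ht
      exact ⟨(a, b), hne, hab⟩
    · right
      push Not at ht
      exact ht
  have h2 := (Finset.card_le_card h1).trans ((Finset.card_union_le _ _).trans
    (Nat.add_le_add Finset.card_biUnion_le Finset.card_biUnion_le))
  have h3 : ∑ p ∈ univ.filter (fun p : Fin k × Fin k => p.1 ≠ p.2),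
      (univ.filter (fun t : Fin k → V => t p.1 = t p.2)).card ≤
      k ^ 2 * (Fintype.card V) ^ (k - 1) := by
    calc ∑ p ∈ univ.filter (fun p : Fin k × Fin k => p.1 ≠ p.2),
        (univ.filter (fun t : Fin k → V => t p.1 = t p.2)).card
        ≤ ∑ p ∈ univ.filter (fun p : Fin k × Fin k => p.1 ≠ p.2),
          (Fintype.card V) ^ (k - 1) := by
          apply Finset.sum_le_sum
          intro p hp
          rw [Finset.mem_filter] at hp
          have := card_coincide (V := V) p.1 p.2 hp.2
          rwa [Fintype.card_fin] at this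
      _ ≤ _ := by
          rw [Finset.sum_const, smul_eq_mul]
          apply Nat.mul_le_mul_right
          refine (Finset.card_le_univ _).trans ?_
          rw [Fintype.card_prod, Fintype.card_fin, pow_two]
  have h4 : ∑ i : Fin k, (univ.filter (fun t : Fin k → V => t i ∈ Z)).card ≤
      k * (Z.card * (Fintype.card V) ^ (k - 1)) := by
    calc ∑ i : Fin k, (univ.filter (fun t : Fin k → V => t i ∈ Z)).card
        ≤ ∑ _i : Fin k, Z.card * (Fintype.card V) ^ (k - 1) :=
          Finset.sum_le_sum (fun i _ => card_hit Z i)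
      _ = _ := by rw [Finset.sum_const, Finset.card_univ, Fintype.card_fin, smul_eq_mul]
  have h5 : (univ.filter (fun t : Fin k → V => ¬ (Function.Injective t ∧ ∀ i, t i ∉ Z))).card ≤
      k ^ 2 * (Fintype.card V) ^ (k - 1) + k * (Z.card * (Fintype.card V) ^ (k - 1)) :=
    h2.trans (Nat.add_le_add h3 h4)
  have h6 : ((univ.filter (fun t : Fin k → V =>
      ¬ (Function.Injective t ∧ ∀ i, t i ∉ Z))).card : ℝ) ≤
      ((k ^ 2 * (Fintype.card V) ^ (k - 1) + k * (Z.card * (Fintype.card V) ^ (k - 1)) : ℕ) : ℝ) := by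
    exact_mod_cast h5
  push_cast at h6
  linarith

end

end Pool.Agent.LooseHC
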