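import Pool.Agent.Helper26.LooseHC.Tile

set_option autoImplicit false

/-!
Greedy extraction of tiles from dense blocks.
-/

namespace Pool.Agent.LooseHC

open Finset

variable {V : Type} [DecidableEq V]

/-- Number of triples of `X × Y × Z` in the relation `E`. -/
noncomputable def ecount (E : V → V → V → Prop) (X Y Z : Finset V) : ℕ := by
  classical
  exact ((X ×ˢ Y ×ˢ Z).filter (fun x => E x.1 x.2.1 x.2.2)).card

omit [DecidableEq V] in
lemma ecount_le (E : V → V → V → Prop) (X Y Z : Finset V) :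
    (ecount E X Y Z : ℝ) ≤ X.card * Y.card * Z.card := by
  classical
  unfold ecount
  have h1 := Finset.card_filter_le (X ×ˢ Y ×ˢ Z) (fun x => E x.1 x.2.1 x.2.2)
  rw [Finset.card_product, Finset.card_product] at h1
  have : ((((X ×ˢ Y ×ˢ Z).filter (fun x => E x.1 x.2.1 x.2.2)).card : ℕ) : ℝ) ≤
    ((X.card * (Y.card * Z.card) : ℕ) : ℝ) := by exact_mod_cast h1
  push_cast at this
  linarith

lemma ecount_remove (E : V → V → V → Prop) (X Y Z U : Finset V) :
    (ecount E X Y Z : ℝ) ≤ ecount E (X \ U) (Y \ U) (Z \ U) +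
      ((U ∩ X).card * Y.card * Z.card + X.card * (U ∩ Y).card * Z.card +
        X.card * Y.card * (U ∩ Z).card) := by
  classical
  unfold ecount
  have hsub : (X ×ˢ Y ×ˢ Z).filter (fun x => E x.1 x.2.1 x.2.2) ⊆
      (((X \ U) ×ˢ (Y \ U) ×ˢ (Z \ U)).filter (fun x => E x.1 x.2.1 x.2.2)) ∪
      (((U ∩ X) ×ˢ Y ×ˢ Z) ∪ ((X ×ˢ (U ∩ Y) ×ˢ Z) ∪ (X ×ˢ Y ×ˢ (U ∩ Z)))) := by
    rintro ⟨a, b, d⟩ h
    simp only [Finset.mem_filter, Finset.mem_product, Finset.mem_union, Finset.mem_sdiff,
      Finset.mem_inter] at h ⊢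
    tauto
  have h1 := Finset.card_le_card hsub
  have h2 := Finset.card_union_le
    (((X \ U) ×ˢ (Y \ U) ×ˢ (Z \ U)).filter (fun x => E x.1 x.2.1 x.2.2))
    (((U ∩ X) ×ˢ Y ×ˢ Z) ∪ ((X ×ˢ (U ∩ Y) ×ˢ Z) ∪ (X ×ˢ Y ×ˢ (U ∩ Z))))
  have h3 := Finset.card_union_le ((U ∩ X) ×ˢ Y ×ˢ Z) ((X ×ˢ (U ∩ Y) ×ˢ Z) ∪ (X ×ˢ Y ×ˢ (U ∩ Z)))
  have h4 := Finset.card_union_le (X ×ˢ (U ∩ Y) ×ˢ Z) (X ×ˢ Y ×ˢ (U ∩ Z))
  simp only [Finset.card_product] at h3 h4
  have h5 : ((X ×ˢ Y ×ˢ Z).filter (fun x => E x.1 x.2.1 x.2.2)).card ≤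
      (((X \ U) ×ˢ (Y \ U) ×ˢ (Z \ U)).filter (fun x => E x.1 x.2.1 x.2.2)).card +
      ((U ∩ X).card * (Y.card * Z.card) + (X.card * ((U ∩ Y).card * Z.card) +
        X.card * (Y.card * (U ∩ Z).card))) := by omega
  have h6 : ((((X ×ˢ Y ×ˢ Z).filter (fun x => E x.1 x.2.1 x.2.2)).card : ℕ) : ℝ) ≤
      (((((X \ U) ×ˢ (Y \ U) ×ˢ (Z \ U)).filter (fun x => E x.1 x.2.1 x.2.2)).card +
      ((U ∩ X).card * (Y.card * Z.card) + (X.card * ((U ∩ Y).card * Z.card) +
        X.card * (Y.card * (U ∩ Z).card))) : ℕ) : ℝ) := by exact_mod_cast h5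
  push_cast at h6
  linarith

/-- All vertices used by a list of tiles. -/
def used : List (Tile V) → Finset V
  | [] => ∅
  | T :: L => T.verts ∪ used L

lemma mem_used {L : List (Tile V)} {x : V} : x ∈ used L ↔ ∃ T ∈ L, x ∈ T.verts := by
  induction L with
  | nil => simp [used]
  | cons T L ih => simp [used, ih]

lemma verts_subset_used {L : List (Tile V)} {T : Tile V} (h : T ∈ L) : T.verts ⊆ used L :=
  fun _ hx => mem_used.mpr ⟨T, h, hx⟩

lemma extract (γ : ℝ) (hγ : 0 < γ) (hγ1 : γ ≤ 1) (s : ℕ) :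
    ∃ S₁ : ℕ, ∀ {V : Type} [DecidableEq V] (C : Bool → V → V → V → Prop),
      (∀ c a b d, C c a b d → C c b a d) → (∀ c a b d, C c a b d → C c a d b) →
      ∀ S : ℕ, S₁ ≤ S → ∀ {ι : Type} [DecidableEq ι] (blk : ι → Finset V),
      (∀ i, (blk i).card = S) → (∀ i j, i ≠ j → Disjoint (blk i) (blk j)) →
      ∀ (col : ι × ι × ι → Bool) (reqs : List (ι × ι × ι)),
      (∀ j ∈ reqs, j.1 ≠ j.2.1 ∧ j.1 ≠ j.2.2 ∧ j.2.1 ≠ j.2.2 ∧
        γ * (S : ℝ) ^ 3 ≤ ecount (C (col j)) (blk j.1) (blk j.2.1) (blk j.2.2)) →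
      (∀ v, (reqs.map (fun j => 2 * (s : ℝ) * use j v)).sum ≤ γ / 6 * S) →
      ∃ L : List (Tile V), L.length = reqs.length ∧
        imb L = (reqs.map (fun j => sgn (col j))).sum ∧
        (∀ T ∈ L, T.Valid C s ∧ ∀ x ∈ T.verts, ∃ i, x ∈ blk i) ∧
        L.Pairwise (fun T T' => Disjoint T.verts T'.verts) ∧
        ∀ v, ((used L ∩ blk v).card : ℝ) ≤ (reqs.map (fun j => 2 * (s : ℝ) * use j v)).sum := by
  classical
  obtain ⟨S₀, hS₀⟩ := exists_complete_tripartite (γ / 2) (by positivity) (2 * s)
  refine ⟨2 * S₀ + 1, ?_⟩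
  intro V _ C hsym1 hsym2 S hS ι _ blk hcard hdisj col reqs
  induction reqs with
  | nil =>
    intro _ _
    refine ⟨[], rfl, by simp [imb], by simp, List.Pairwise.nil, ?_⟩
    intro v; simp [used]
  | cons j reqs ih =>
    intro hreq huse
    have huse' : ∀ v, (reqs.map (fun j => 2 * (s : ℝ) * use j v)).sum ≤ γ / 6 * S := by
      intro v
      have h1 := huse v
      rw [List.map_cons, List.sum_cons] at h1
      have h2 : 0 ≤ 2 * (s : ℝ) * use j v := by have := use_nonneg j v; positivity
      linarith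
    obtain ⟨L, hlen, himb, hval, hpw, hused⟩ :=
      ih (fun j hj => hreq j (List.mem_cons_of_mem _ hj)) huse'
    obtain ⟨hpq, hpr, hqr, hdens⟩ := hreq j List.mem_cons_self
    set U := used L with hU
    obtain ⟨p, q, r⟩ := j
    simp only at hpq hpr hqr hdens
    have hSpos : (0 : ℝ) < S := by
      have : 0 < S := by omega
      exact_mod_cast this
    have hUb : ∀ v, ((U ∩ blk v).card : ℝ) ≤ γ / 6 * S := fun v => (hused v).trans (huse' v)
    have hsz : ∀ v, (S : ℝ) - γ / 6 * S ≤ ((blk v \ U).card : ℝ) := by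
      intro v
      have h1 : (blk v \ U).card + (U ∩ blk v).card = S := by
        rw [Finset.inter_comm, Finset.card_sdiff_add_card_inter, hcard]
      have h2 : ((blk v \ U).card : ℝ) + (U ∩ blk v).card = S := by exact_mod_cast h1
      have := hUb v
      linarith
    have hszle : ∀ v, ((blk v \ U).card : ℝ) ≤ S := by
      intro v
      have h1 : (blk v \ U).card ≤ (blk v).card := Finset.card_le_card Finset.sdiff_subset
      rw [hcard] at h1
      exact_mod_cast h1
    have hbig : ∀ v, S₀ ≤ (blk v \ U).card := by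
      intro v
      have h1 := hsz v
      have h2 : (2 * (S₀ : ℝ) + 1) ≤ S := by exact_mod_cast hS
      have h3 : (S₀ : ℝ) ≤ ((blk v \ U).card : ℝ) := by nlinarith
      exact_mod_cast h3
    have hd : γ / 2 * (((blk p \ U).card : ℝ) * ((blk q \ U).card) * ((blk r \ U).card)) ≤
        (((blk p \ U) ×ˢ (blk q \ U) ×ˢ (blk r \ U)).filter
          (fun x => C (col (p, q, r)) x.1 x.2.1 x.2.2)).card := by
      have h1 := ecount_remove (C (col (p, q, r))) (blk p) (blk q) (blk r) U
      have h2 : (((blk p \ U) ×ˢ (blk q \ U) ×ˢ (blk r \ U)).filter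
          (fun x => C (col (p, q, r)) x.1 x.2.1 x.2.2)).card =
          ecount (C (col (p, q, r))) (blk p \ U) (blk q \ U) (blk r \ U) := by
        unfold ecount; congr
      rw [h2]
      rw [hcard, hcard, hcard] at h1
      have h3 : ((U ∩ blk p).card : ℝ) * S * S ≤ γ / 6 * S * S * S := by
        apply mul_le_mul_of_nonneg_right _ hSpos.le
        exact mul_le_mul_of_nonneg_right (hUb p) hSpos.le
      have h4 : (S : ℝ) * (U ∩ blk q).card * S ≤ S * (γ / 6 * S) * S := by
        apply mul_le_mul_of_nonneg_right _ hSpos.le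
        exact mul_le_mul_of_nonneg_left (hUb q) hSpos.le
      have h5 : (S : ℝ) * S * (U ∩ blk r).card ≤ S * S * (γ / 6 * S) :=
        mul_le_mul_of_nonneg_left (hUb r) (by positivity)
      have h6 : ((blk p \ U).card : ℝ) * ((blk q \ U).card) * ((blk r \ U).card) ≤ S * S * S :=
        mul_le_mul (mul_le_mul (hszle p) (hszle q) (by positivity) hSpos.le) (hszle r)
          (by positivity) (by positivity)
      have h7 : γ / 2 * (((blk p \ U).card : ℝ) * ((blk q \ U).card) * ((blk r \ U).card)) ≤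
          γ / 2 * (S * S * S) := mul_le_mul_of_nonneg_left h6 (by positivity)
      nlinarith
    obtain ⟨X', hX', Y', hY', Z', hZ', cX, cY, cZ, hcomp⟩ :=
      hS₀ (blk p \ U) (blk q \ U) (blk r \ U) (C (col (p, q, r))) (hbig p) (hbig q) (hbig r) hd
    obtain ⟨A, hA, cA⟩ := Finset.exists_subset_card_eq (show s ≤ Y'.card by omega)
    obtain ⟨B, hB, cB⟩ := Finset.exists_subset_card_eq (show s ≤ Z'.card by omega)
    obtain ⟨D, hD, cD⟩ := Finset.exists_subset_card_eq (show s ≤ X'.card by omega)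
    have cD' : (X' \ D).card = s := by
      rw [Finset.card_sdiff_of_subset hD]; omega
    have sA : A ⊆ blk q := (hA.trans hY').trans Finset.sdiff_subset
    have sB : B ⊆ blk r := (hB.trans hZ').trans Finset.sdiff_subset
    have sX : X' ⊆ blk p := hX'.trans Finset.sdiff_subset
    set T : Tile V := ⟨A, B, D, X' \ D, col (p, q, r)⟩ with hT
    have hTverts : T.verts = A ∪ B ∪ X' := by
      unfold Tile.verts
      simp only [hT]
      rw [Finset.union_sdiff_of_subset hD]
    have hTU : Disjoint T.verts U := by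
      rw [hTverts, Finset.disjoint_left]
      intro x hx
      simp only [Finset.mem_union] at hx
      rcases hx with (h | h) | h
      · exact (Finset.mem_sdiff.mp (hY' (hA h))).2
      · exact (Finset.mem_sdiff.mp (hZ' (hB h))).2
      · exact (Finset.mem_sdiff.mp (hX' h)).2
    refine ⟨T :: L, by simp [hlen], ?_, ?_, ?_, ?_⟩
    · have : imb (T :: L) = sgn T.c + imb L := by simp [imb]
      rw [this, himb, List.map_cons, List.sum_cons]
    · intro T' hT'
      rw [List.mem_cons] at hT'
      rcases hT' with rfl | hT'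
      · refine ⟨⟨cA, cB, cD, cD', ?_, ?_, ?_, ?_, ?_, ?_, ?_⟩, ?_⟩
        · exact (hdisj q r hqr).mono sA sB
        · exact (hdisj q p (Ne.symm hpq)).mono sA (hD.trans sX)
        · exact (hdisj q p (Ne.symm hpq)).mono sA (Finset.sdiff_subset.trans sX)
        · exact (hdisj r p (Ne.symm hpr)).mono sB (hD.trans sX)
        · exact (hdisj r p (Ne.symm hpr)).mono sB (Finset.sdiff_subset.trans sX)
        · exact Finset.disjoint_sdiff
        · intro a ha b hb d hd'
          have hdX : d ∈ X' := by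
            rcases hd' with h | h
            · exact hD h
            · exact (Finset.mem_sdiff.mp h).1
          exact hsym2 _ _ _ _ (hsym1 _ _ _ _ (hcomp d hdX a (hA ha) b (hB hb)))
        · intro x hx
          rw [hTverts] at hx
          simp only [Finset.mem_union] at hx
          rcases hx with (h | h) | h
          · exact ⟨q, sA h⟩
          · exact ⟨r, sB h⟩
          · exact ⟨p, sX h⟩
      · exact hval T' hT'
    · rw [List.pairwise_cons]
      refine ⟨?_, hpw⟩
      intro T' hT'
      exact hTU.mono_right (verts_subset_used hT')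
    · intro v
      rw [List.map_cons, List.sum_cons]
      have h1 : used (T :: L) = T.verts ∪ U := rfl
      rw [h1, Finset.union_inter_distrib_right]
      have h2 : (((T.verts ∩ blk v) ∪ (U ∩ blk v)).card : ℝ) ≤
          ((T.verts ∩ blk v).card : ℝ) + (U ∩ blk v).card := by
        exact_mod_cast Finset.card_union_le _ _
      have h3 : ((T.verts ∩ blk v).card : ℝ) ≤ 2 * (s : ℝ) * use (p, q, r) v := by
        have h4 : T.verts ∩ blk v = (A ∩ blk v) ∪ (B ∩ blk v) ∪ (X' ∩ blk v) := by
          rw [hTverts, Finset.union_inter_distrib_right, Finset.union_inter_distrib_right]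
        have h5 : (T.verts ∩ blk v).card ≤ (A ∩ blk v).card + (B ∩ blk v).card +
            (X' ∩ blk v).card := by
          rw [h4]
          exact (Finset.card_union_le _ _).trans (Nat.add_le_add_right (Finset.card_union_le _ _) _)
        have key : ∀ (Q : Finset V) (i : ι), Q ⊆ blk i →
            ((Q ∩ blk v).card : ℝ) ≤ (if v = i then (Q.card : ℝ) else 0) := by
          intro Q i hQ
          split_ifs with h
          · exact_mod_cast Finset.card_le_card Finset.inter_subset_left
          · have : Q ∩ blk v = ∅ := by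
              rw [← Finset.disjoint_iff_inter_eq_empty]
              exact (hdisj i v (Ne.symm h)).mono_left hQ
            rw [this]; simp
        have k1 := key A q sA
        have k2 := key B r sB
        have k3 := key X' p sX
        rw [cA] at k1
        rw [cB] at k2
        rw [cX] at k3
        have h6 : ((T.verts ∩ blk v).card : ℝ) ≤ ((A ∩ blk v).card : ℝ) + (B ∩ blk v).card +
            (X' ∩ blk v).card := by exact_mod_cast h5
        have h7 : 2 * (s : ℝ) * use (p, q, r) v = (if v = q then (s : ℝ) else 0) +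
            (if v = r then (s : ℝ) else 0) + (if v = p then ((2 * s : ℕ) : ℝ) else 0) := by
          unfold use
          simp only
          push_cast
          split_ifs <;> ring
        rw [h7]
        linarith
      have h8 := hused v
      linarith

end Pool.Agent.LooseHC
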