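import Pool.Agent.Helper26.LooseHC.TwoVar

set_option autoImplicit false

/-!
LP duality lemma: fractional tilings of a 3-uniform structure with a colour bias.
-/

namespace Pool.Agent.LooseHC

open Finset

variable {ι : Type*} [Fintype ι] [DecidableEq ι]

/-- Usage vector of the oriented triple `(p, q, r)`: one unit at `p`, half a unit at `q`, `r`. -/
noncomputable def use (j : ι × ι × ι) (v : ι) : ℝ :=
  (if v = j.1 then 1 else 0) + (if v = j.2.1 then 1 / 2 else 0) + (if v = j.2.2 then 1 / 2 else 0)

omit [Fintype ι] in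
lemma use_nonneg (j : ι × ι × ι) (v : ι) : 0 ≤ use j v := by
  unfold use
  positivity

lemma sum_mul_use (y : ι → ℝ) (j : ι × ι × ι) :
    ∑ v, y v * use j v = y j.1 + y j.2.1 / 2 + y j.2.2 / 2 := by
  simp only [use, mul_add, Finset.sum_add_distrib, mul_ite, mul_one, mul_zero,
    Finset.sum_ite_eq', Finset.mem_univ, if_true]
  ring

lemma sum_use (j : ι × ι × ι) : ∑ v, use j v = 2 := by
  have := sum_mul_use (fun _ => (1 : ℝ)) j
  simp only [one_mul] at this
  rw [this]; norm_num

omit [DecidableEq ι] in
/-- Lower bound for dual feasible vectors. -/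
lemma dual_lower [Nonempty ι] (T : ι → ι → ι → Prop) (α : ℝ) (hα : 0 < α)
    [∀ p, DecidablePred (fun x : ι × ι => T p x.1 x.2)]
    (hdeg : ∀ p, (7 / 16 + α) * (Fintype.card ι : ℝ) ^ 2 ≤
      ((univ.filter (fun x : ι × ι => T p x.1 x.2)).card : ℝ))
    (u : ι → ℝ) (hu : ∀ p q r, T p q r → 0 ≤ u p + u q / 2 + u r / 2) :
    0 ≤ ∑ v, u v ∧ ∀ v, α * (Fintype.card ι : ℝ) * (-(u v)) ≤ ∑ v, u v := by
  obtain ⟨v0, hv0⟩ := Finite.exists_min u
  rcases le_or_gt 0 (u v0) with h0 | h0
  · have h1 : ∀ v, 0 ≤ u v := fun v => h0.trans (hv0 v)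
    have h2 : 0 ≤ ∑ v, u v := Finset.sum_nonneg (fun v _ => h1 v)
    refine ⟨h2, fun v => ?_⟩
    have : 0 ≤ α * (Fintype.card ι : ℝ) * (u v) := by have := h1 v; positivity
    linarith
  · set M : ℝ := -(u v0) with hM
    have hMpos : 0 < M := by linarith
    set x : ι → ℝ := fun v => (u v + M) / (4 * M) with hx
    have hx0 : ∀ v, 0 ≤ x v := fun v => by
      have := hv0 v
      apply div_nonneg <;> linarith
    have hsub : (univ.filter (fun x : ι × ι => T v0 x.1 x.2)) ⊆
        (univ.filter (fun p : ι × ι => 1 ≤ x p.1 + x p.2)) := by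
      rintro ⟨q, r⟩ h
      simp only [Finset.mem_filter, Finset.mem_univ, true_and] at h ⊢
      have h1 := hu v0 q r h
      simp only [hx]
      rw [← add_div, le_div_iff₀ (by positivity)]
      linarith
    have h1 : (7 / 16 + α) * (Fintype.card ι : ℝ) ^ 2 ≤
        ((univ.filter (fun p : ι × ι => 1 ≤ x p.1 + x p.2)).card : ℝ) := by
      refine (hdeg v0).trans ?_
      exact_mod_cast Finset.card_le_card hsub
    have h2 := two_var x hx0 α hα.le h1
    have h3 : ∑ i, x i = (∑ v, u v + (Fintype.card ι : ℝ) * M) / (4 * M) := by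
      simp only [hx]
      rw [← Finset.sum_div, Finset.sum_add_distrib]
      simp
    rw [h3, le_div_iff₀ (by positivity)] at h2
    have h4 : α * (Fintype.card ι : ℝ) * M ≤ ∑ v, u v := by nlinarith
    have h5 : 0 ≤ α * (Fintype.card ι : ℝ) * M := by positivity
    refine ⟨h5.trans h4, fun v => ?_⟩
    have h6 : -(u v) ≤ M := by have := hv0 v; linarith
    have h7 : α * (Fintype.card ι : ℝ) * (-(u v)) ≤ α * (Fintype.card ι : ℝ) * M :=
      mul_le_mul_of_nonneg_left h6 (by positivity)
    linarith

/-- The contradiction from two dual certificates. -/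
lemma dual_contra [Nonempty ι] (T : ι → ι → ι → Prop) (α : ℝ) (hα : 0 < α) (hα1 : α ≤ 1)
    [∀ p, DecidablePred (fun x : ι × ι => T p x.1 x.2)]
    (hsym1 : ∀ p q r, T p q r → T q p r) (hsym2 : ∀ p q r, T p q r → T p r q)
    (hdeg : ∀ p, (7 / 16 + α) * (Fintype.card ι : ℝ) ^ 2 ≤
      ((univ.filter (fun x : ι × ι => T p x.1 x.2)).card : ℝ))
    (c : ι → ι → ι → ℝ) (hc : ∀ p q r, c p q r = 1 ∨ c p q r = -1)
    (hc1 : ∀ p q r, c p q r = c q p r) (hc2 : ∀ p q r, c p q r = c p r q)
    (y z : ι → ℝ)
    (hy : ∀ p q r, T p q r → c p q r < y p + y q / 2 + y r / 2)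
    (hz : ∀ p q r, T p q r → - c p q r < z p + z q / 2 + z r / 2)
    (hys : ∑ v, y v < α / 80000 * (Fintype.card ι : ℝ))
    (hzs : ∑ v, z v < α / 80000 * (Fintype.card ι : ℝ)) : False := by
  classical
  set N : ℝ := (Fintype.card ι : ℝ) with hN
  have hNpos : 0 < N := by
    rw [hN]; exact_mod_cast Fintype.card_pos
  set u : ι → ℝ := fun v => y v + z v with hu
  have husum : ∑ v, u v = ∑ v, y v + ∑ v, z v := by
    simp only [hu, Finset.sum_add_distrib]
  have hu0 : ∀ p q r, T p q r → 0 ≤ u p + u q / 2 + u r / 2 := by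
    intro p q r h
    have h1 := hy p q r h
    have h2 := hz p q r h
    simp only [hu]
    linarith
  obtain ⟨hus0, hulow⟩ := dual_lower T α hα hdeg u hu0
  -- u v ≥ -1/20000
  have hulow' : ∀ v, -(1 / 20000) ≤ u v := by
    intro v
    have h1 := hulow v
    by_contra hcon
    push Not at hcon
    have h2 : α * N * (1 / 20000) < α * N * (-(u v)) :=
      mul_lt_mul_of_pos_left (by linarith) (by positivity)
    have : 0 < α * N := by positivity
    nlinarith
  set Bad : Finset ι := univ.filter (fun v => 1 / 100 < u v) with hBad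
  have hBadcard : (Bad.card : ℝ) ≤ N / 100 := by
    have h1 : ∑ v ∈ Bad, (1 / 100 : ℝ) ≤ ∑ v, (u v + 1 / 20000) := by
      calc ∑ v ∈ Bad, (1 / 100 : ℝ) ≤ ∑ v ∈ Bad, (u v + 1 / 20000) := by
            apply Finset.sum_le_sum
            intro v hv
            simp only [hBad, Finset.mem_filter, Finset.mem_univ, true_and] at hv
            linarith
        _ ≤ ∑ v, (u v + 1 / 20000) := by
            apply Finset.sum_le_sum_of_subset_of_nonneg (Finset.subset_univ _)
            intro v _ _
            have := hulow' v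
            linarith
    rw [Finset.sum_const, Finset.sum_add_distrib, Finset.sum_const, Finset.card_univ] at h1
    simp only [nsmul_eq_mul] at h1
    have h2 : ∑ v, u v ≤ α / 40000 * N := by rw [husum]; linarith
    have h3 : α / 40000 * N ≤ 1 / 40000 * N := by
      apply mul_le_mul_of_nonneg_right _ hNpos.le
      linarith
    rw [← hN] at h1
    linarith
  -- good edge estimates
  have hgood : ∀ p q r, T p q r → p ∉ Bad → q ∉ Bad → r ∉ Bad →
      c p q r / 2 - 3 / 100 < y p ∧ y p < c p q r / 2 + 4 / 100 := by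
    intro p q r h hp hq hr
    simp only [hBad, Finset.mem_filter, Finset.mem_univ, true_and, not_lt] at hp hq hr
    have t1 := h
    have t2 := hsym1 _ _ _ h
    have t3 := hsym1 _ _ _ (hsym2 _ _ _ h)
    have y1 := hy _ _ _ t1
    have y2 := hy _ _ _ t2
    have y3 := hy _ _ _ t3
    have z1 := hz _ _ _ t1
    have z2 := hz _ _ _ t2
    have z3 := hz _ _ _ t3
    rw [← hc1 p q r] at y2 z2
    rw [← hc1 p r q, ← hc2 p q r] at y3 z3
    simp only [hu] at hp hq hr
    constructor <;> linarith
  -- number of pairs touching Bad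
  have hbadpairs : ((univ.filter (fun x : ι × ι => x.1 ∈ Bad ∨ x.2 ∈ Bad)).card : ℝ) ≤
      N ^ 2 / 50 := by
    have h1 : (univ.filter (fun x : ι × ι => x.1 ∈ Bad ∨ x.2 ∈ Bad)) ⊆
        (Bad ×ˢ univ) ∪ (univ ×ˢ Bad) := by
      rintro ⟨a, b⟩ h
      simpa using h
    have h2 : (univ.filter (fun x : ι × ι => x.1 ∈ Bad ∨ x.2 ∈ Bad)).card ≤
        Bad.card * Fintype.card ι + Fintype.card ι * Bad.card := by
      refine (Finset.card_le_card h1).trans ((Finset.card_union_le _ _).trans ?_)
      rw [Finset.card_product, Finset.card_product, Finset.card_univ]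
    have h3 : ((univ.filter (fun x : ι × ι => x.1 ∈ Bad ∨ x.2 ∈ Bad)).card : ℝ) ≤
        (Bad.card : ℝ) * N + N * Bad.card := by rw [hN]; exact_mod_cast h2
    nlinarith
  -- every vertex has a good link pair
  have hlink : ∀ p, ∃ q r, T p q r ∧ q ∉ Bad ∧ r ∉ Bad := by
    intro p
    by_contra hcon
    push Not at hcon
    have h1 : (univ.filter (fun x : ι × ι => T p x.1 x.2)) ⊆
        (univ.filter (fun x : ι × ι => x.1 ∈ Bad ∨ x.2 ∈ Bad)) := by
      rintro ⟨a, b⟩ h
      simp only [Finset.mem_filter, Finset.mem_univ, true_and] at h ⊢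
      by_cases ha : a ∈ Bad
      · left; exact ha
      · right; exact hcon a b h ha
    have h2 : ((univ.filter (fun x : ι × ι => T p x.1 x.2)).card : ℝ) ≤
        ((univ.filter (fun x : ι × ι => x.1 ∈ Bad ∨ x.2 ∈ Bad)).card : ℝ) := by
      exact_mod_cast Finset.card_le_card h1
    have h3 := hdeg p
    have h4 : 0 < N ^ 2 := by positivity
    nlinarith
  set P : Finset ι := univ.filter (fun v => v ∉ Bad ∧ 0 < y v) with hP
  set Q : Finset ι := univ.filter (fun v => v ∉ Bad ∧ y v ≤ 0) with hQ
  -- if p ∈ P then |P| > 0.6 N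
  have hPlarge : P.Nonempty → 6 / 10 * N < (P.card : ℝ) := by
    rintro ⟨p, hp⟩
    simp only [hP, Finset.mem_filter, Finset.mem_univ, true_and] at hp
    have h1 : (univ.filter (fun x : ι × ι => T p x.1 x.2)) ⊆
        (P ×ˢ P) ∪ (univ.filter (fun x : ι × ι => x.1 ∈ Bad ∨ x.2 ∈ Bad)) := by
      rintro ⟨a, b⟩ h
      simp only [Finset.mem_filter, Finset.mem_univ, true_and, Finset.mem_union,
        Finset.mem_product] at h ⊢
      by_cases ha : a ∈ Bad
      · right; left; exact ha
      by_cases hb : b ∈ Bad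
      · right; right; exact hb
      left
      have g1 := hgood p a b h hp.1 ha hb
      have hcp : c p a b = 1 := by
        rcases hc p a b with h | h
        · exact h
        · rw [h] at g1; linarith
      have t2 := hsym1 _ _ _ h
      have t3 := hsym1 _ _ _ (hsym2 _ _ _ h)
      have g2 := hgood _ _ _ t2 ha hp.1 hb
      have g3 := hgood _ _ _ t3 hb hp.1 ha
      rw [← hc1 p a b, hcp] at g2
      rw [← hc1 p b a, ← hc2 p a b, hcp] at g3
      simp only [hP, Finset.mem_filter, Finset.mem_univ, true_and]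
      exact ⟨⟨ha, by linarith⟩, ⟨hb, by linarith⟩⟩
    have h2 : ((univ.filter (fun x : ι × ι => T p x.1 x.2)).card : ℝ) ≤
        (P.card : ℝ) * P.card + N ^ 2 / 50 := by
      have h3 := (Finset.card_le_card h1).trans (Finset.card_union_le _ _)
      rw [Finset.card_product] at h3
      have h4 : ((univ.filter (fun x : ι × ι => T p x.1 x.2)).card : ℝ) ≤
        (P.card : ℝ) * P.card +
          ((univ.filter (fun x : ι × ι => x.1 ∈ Bad ∨ x.2 ∈ Bad)).card : ℝ) := by
        exact_mod_cast h3
      linarith
    have h3 := hdeg p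
    by_contra hcon
    push Not at hcon
    have h4 : (P.card : ℝ) * P.card ≤ (6 / 10 * N) * (6 / 10 * N) :=
      mul_le_mul hcon hcon (by positivity) (by positivity)
    have h5 : 0 < N ^ 2 := by positivity
    nlinarith
  have hQlarge : Q.Nonempty → 6 / 10 * N < (Q.card : ℝ) := by
    rintro ⟨p, hp⟩
    simp only [hQ, Finset.mem_filter, Finset.mem_univ, true_and] at hp
    have h1 : (univ.filter (fun x : ι × ι => T p x.1 x.2)) ⊆
        (Q ×ˢ Q) ∪ (univ.filter (fun x : ι × ι => x.1 ∈ Bad ∨ x.2 ∈ Bad)) := by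
      rintro ⟨a, b⟩ h
      simp only [Finset.mem_filter, Finset.mem_univ, true_and, Finset.mem_union,
        Finset.mem_product] at h ⊢
      by_cases ha : a ∈ Bad
      · right; left; exact ha
      by_cases hb : b ∈ Bad
      · right; right; exact hb
      left
      have g1 := hgood p a b h hp.1 ha hb
      have hcp : c p a b = -1 := by
        rcases hc p a b with h | h
        · rw [h] at g1; linarith
        · exact h
      have t2 := hsym1 _ _ _ h
      have t3 := hsym1 _ _ _ (hsym2 _ _ _ h)
      have g2 := hgood _ _ _ t2 ha hp.1 hb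
      have g3 := hgood _ _ _ t3 hb hp.1 ha
      rw [← hc1 p a b, hcp] at g2
      rw [← hc1 p b a, ← hc2 p a b, hcp] at g3
      simp only [hQ, Finset.mem_filter, Finset.mem_univ, true_and]
      exact ⟨⟨ha, by linarith⟩, ⟨hb, by linarith⟩⟩
    have h2 : ((univ.filter (fun x : ι × ι => T p x.1 x.2)).card : ℝ) ≤
        (Q.card : ℝ) * Q.card + N ^ 2 / 50 := by
      have h3 := (Finset.card_le_card h1).trans (Finset.card_union_le _ _)
      rw [Finset.card_product] at h3
      have h4 : ((univ.filter (fun x : ι × ι => T p x.1 x.2)).card : ℝ) ≤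
        (Q.card : ℝ) * Q.card +
          ((univ.filter (fun x : ι × ι => x.1 ∈ Bad ∨ x.2 ∈ Bad)).card : ℝ) := by
        exact_mod_cast h3
      linarith
    have h3 := hdeg p
    by_contra hcon
    push Not at hcon
    have h4 : (Q.card : ℝ) * Q.card ≤ (6 / 10 * N) * (6 / 10 * N) :=
      mul_le_mul hcon hcon (by positivity) (by positivity)
    have h5 : 0 < N ^ 2 := by positivity
    nlinarith
  have hPQ : (P.card : ℝ) + Q.card ≤ N := by
    have hdisj : Disjoint P Q := by
      rw [Finset.disjoint_left]
      intro v h1 h2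
      simp only [hP, hQ, Finset.mem_filter, Finset.mem_univ, true_and] at h1 h2
      linarith [h1.2, h2.2]
    have h1 := Finset.card_union_of_disjoint hdisj
    have h2 := Finset.card_le_univ (P ∪ Q)
    rw [h1] at h2
    rw [hN]; exact_mod_cast h2
  -- bad sum estimate: general
  have hfinal : ∀ g : ι → ℝ, (∀ v, v ∉ Bad → 45 / 100 ≤ g v) → (∀ v, -2 ≤ g v) →
      α / 80000 * N < ∑ v, g v := by
    intro g hg1 hg2
    have h1 : ∀ v, (45 / 100 : ℝ) - (if v ∈ Bad then 245 / 100 else 0) ≤ g v := by
      intro v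
      by_cases hv : v ∈ Bad
      · rw [if_pos hv]; have := hg2 v; linarith
      · rw [if_neg hv]; have := hg1 v hv; linarith
    have h2 : ∑ v, ((45 / 100 : ℝ) - (if v ∈ Bad then 245 / 100 else 0)) ≤ ∑ v, g v :=
      Finset.sum_le_sum (fun v _ => h1 v)
    rw [Finset.sum_sub_distrib, Finset.sum_const, Finset.card_univ, Finset.sum_ite_mem,
      Finset.univ_inter, Finset.sum_const] at h2
    simp only [nsmul_eq_mul] at h2
    rw [← hN] at h2
    have h3 : α / 80000 * N ≤ 1 / 80000 * N := by
      apply mul_le_mul_of_nonneg_right _ hNpos.le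
      linarith
    linarith
  have hcm1 : ∀ p q r, -1 ≤ c p q r ∧ c p q r ≤ 1 := by
    intro p q r
    rcases hc p q r with h | h <;> rw [h] <;> norm_num
  -- bounds of |y| for good vertices
  have hyabs : ∀ v, v ∉ Bad → -(54 / 100) ≤ y v ∧ y v ≤ 54 / 100 := by
    intro v hv
    obtain ⟨q, r, h, hq, hr⟩ := hlink v
    have g := hgood v q r h hv hq hr
    have := hcm1 v q r
    constructor <;> linarith [g.1, g.2, this.1, this.2]
  rcases Q.eq_empty_or_nonempty with hQe | hQn
  · -- all good vertices have y > 0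
    have h1 : ∀ v, v ∉ Bad → 45 / 100 ≤ y v := by
      intro v hv
      have hpos : 0 < y v := by
        by_contra hcon
        push Not at hcon
        have : v ∈ Q := by simp only [hQ, Finset.mem_filter, Finset.mem_univ, true_and]; exact ⟨hv, hcon⟩
        rw [hQe] at this; simp at this
      obtain ⟨q, r, h, hq, hr⟩ := hlink v
      have g := hgood v q r h hv hq hr
      rcases hc v q r with h' | h'
      · rw [h'] at g; linarith [g.1]
      · rw [h'] at g; linarith [g.2]
    have h2 : ∀ v, -2 ≤ y v := by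
      intro v
      obtain ⟨q, r, h, hq, hr⟩ := hlink v
      have := hy v q r h
      have := hcm1 v q r
      have := hyabs q hq
      have := hyabs r hr
      linarith
    have := hfinal y h1 h2
    linarith
  · rcases P.eq_empty_or_nonempty with hPe | hPn
    · have h0 : ∀ v, v ∉ Bad → y v ≤ -(46 / 100) := by
        intro v hv
        have hneg : y v ≤ 0 := by
          by_contra hcon
          push Not at hcon
          have : v ∈ P := by simp only [hP, Finset.mem_filter, Finset.mem_univ, true_and]; exact ⟨hv, hcon⟩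
          rw [hPe] at this; simp at this
        obtain ⟨q, r, h, hq, hr⟩ := hlink v
        have g := hgood v q r h hv hq hr
        rcases hc v q r with h' | h'
        · rw [h'] at g; linarith [g.1]
        · rw [h'] at g; linarith [g.2]
      have h1 : ∀ v, v ∉ Bad → 45 / 100 ≤ z v := by
        intro v hv
        have h3 := hulow' v
        have h4 := h0 v hv
        simp only [hu] at h3
        linarith
      have h2 : ∀ v, -2 ≤ z v := by
        intro v
        obtain ⟨q, r, h, hq, hr⟩ := hlink v
        have e1 := hz v q r h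
        have e2 := hcm1 v q r
        have e3 := hyabs q hq
        have e4 := hyabs r hr
        have e5 : u q ≤ 1 / 100 := by
          simp only [hBad, Finset.mem_filter, Finset.mem_univ, true_and, not_lt] at hq
          exact hq
        have e6 : u r ≤ 1 / 100 := by
          simp only [hBad, Finset.mem_filter, Finset.mem_univ, true_and, not_lt] at hr
          exact hr
        simp only [hu] at e5 e6
        linarith
      have := hfinal z h1 h2
      linarith
    · have h1 := hPlarge hPn
      have h2 := hQlarge hQn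
      linarith

end Pool.Agent.LooseHC
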