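import Pool.Agent.Helper26.LooseHC.LP

set_option autoImplicit false

/-!
LP duality lemma, second part: separation and Caratheodory.
-/

namespace Pool.Agent.LooseHC

open Finset

variable {ι : Type*} [Fintype ι] [DecidableEq ι]

lemma clm_formula (f : ((ι → ℝ) × ℝ) →L[ℝ] ℝ) :
    ∃ (Y : ι → ℝ) (s : ℝ), ∀ x, f x = ∑ v, x.1 v * Y v + x.2 * s := by
  refine ⟨fun v => f (fun j => if v = j then 1 else 0, 0), f (0, 1), fun x => ?_⟩
  have h : x = (x.1, 0) + x.2 • ((0 : ι → ℝ), (1 : ℝ)) := by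
    ext <;> simp
  have h2 : f (x.1, 0) = ∑ v, x.1 v * f (fun j => if v = j then 1 else 0, 0) := by
    have := LinearMap.pi_apply_eq_sum_univ
      ((f : ((ι → ℝ) × ℝ) →ₗ[ℝ] ℝ).comp (LinearMap.inl ℝ (ι → ℝ) ℝ)) x.1
    simpa using this
  conv_lhs => rw [h]
  rw [map_add, map_smul, h2]
  simp

/-- The vector attached to an oriented triple. -/
noncomputable def vec (c : ι → ι → ι → ℝ) (j : ι × ι × ι) : (ι → ℝ) × ℝ :=
  (use j, c j.1 j.2.1 j.2.2)

/-- The set of vectors. -/
def vecs (T : ι → ι → ι → Prop) (c : ι → ι → ι → ℝ) : Set ((ι → ℝ) × ℝ) :=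
  (vec c) '' {j | T j.1 j.2.1 j.2.2}

lemma separation [Nonempty ι] (T : ι → ι → ι → Prop) (c : ι → ι → ι → ℝ) (δ : ℝ)
    (h : ∀ x ∈ convexHull ℝ (vecs T c), x.1 = (fun _ => 2 / (Fintype.card ι : ℝ)) → x.2 < 2 * δ) :
    ∃ (y : ι → ℝ) (s : ℝ), 0 ≤ s ∧
      (∀ p q r, T p q r → s * c p q r < y p + y q / 2 + y r / 2) ∧
      ∑ v, y v < s * (δ * (Fintype.card ι : ℝ)) := by
  set N : ℝ := (Fintype.card ι : ℝ) with hN
  have hNpos : 0 < N := by rw [hN]; exact_mod_cast Fintype.card_pos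
  have hfin : (vecs T c).Finite := (Set.toFinite _).image _
  have hcomp : IsCompact (convexHull ℝ (vecs T c)) := hfin.isCompact_convexHull ℝ
  set D : Set ((ι → ℝ) × ℝ) := {((fun _ => 2 / N) : ι → ℝ)} ×ˢ Set.Ici (2 * δ) with hD
  have hDconv : Convex ℝ D := (convex_singleton (𝕜 := ℝ) _).prod (convex_Ici (𝕜 := ℝ) _)
  have hDclosed : IsClosed D := isClosed_singleton.prod isClosed_Ici
  have hdisj : Disjoint (convexHull ℝ (vecs T c)) D := by
    rw [Set.disjoint_left]
    intro x hx hxD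
    rw [hD, Set.mem_prod, Set.mem_singleton_iff, Set.mem_Ici] at hxD
    have := h x hx hxD.1
    linarith [hxD.2]
  obtain ⟨f, u, v, hu, huv, hv⟩ :=
    geometric_hahn_banach_compact_closed (convex_convexHull ℝ _) hcomp hDconv hDclosed hdisj
  obtain ⟨Y, s, hf⟩ := clm_formula f
  -- f b > v on D
  have hDval : ∀ τ, 2 * δ ≤ τ → v < 2 / N * ∑ w, Y w + τ * s := by
    intro τ hτ
    have hmem : (((fun _ => 2 / N) : ι → ℝ), τ) ∈ D := by
      rw [hD, Set.mem_prod]; exact ⟨rfl, hτ⟩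
    have := hv _ hmem
    rw [hf] at this
    simp only at this
    rw [← Finset.mul_sum] at this
    exact this
  have hs : 0 ≤ s := by
    by_contra hcon
    push Not at hcon
    -- choose τ large
    set τ : ℝ := max (2 * δ) ((v - 2 / N * ∑ w, Y w) / s) with hτ
    have h1 := hDval τ (le_max_left _ _)
    have h2 : (v - 2 / N * ∑ w, Y w) / s ≤ τ := le_max_right _ _
    rw [div_le_iff_of_neg hcon] at h2
    linarith
  refine ⟨fun w => u / 2 - Y w, s, hs, ?_, ?_⟩
  · intro p q r hT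
    have hmem : vec c (p, q, r) ∈ convexHull ℝ (vecs T c) :=
      subset_convexHull ℝ _ ⟨(p, q, r), hT, rfl⟩
    have h1 := hu _ hmem
    rw [hf] at h1
    simp only [vec] at h1
    have h2 : ∑ w, use (p, q, r) w * Y w = Y p + Y q / 2 + Y r / 2 := by
      rw [← sum_mul_use Y (p, q, r)]
      exact Finset.sum_congr rfl (fun _ _ => mul_comm _ _)
    rw [h2] at h1
    simp only
    linarith
  · have h1 := hDval (2 * δ) le_rfl
    rw [Finset.sum_sub_distrib, Finset.sum_const, Finset.card_univ]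
    simp only [nsmul_eq_mul]
    rw [← hN]
    have h2 : u < 2 / N * ∑ w, Y w + 2 * δ * s := huv.trans h1
    have h3 : N / 2 * u < N / 2 * (2 / N * ∑ w, Y w + 2 * δ * s) :=
      mul_lt_mul_of_pos_left h2 (by positivity)
    have h4 : N / 2 * (2 / N * ∑ w, Y w + 2 * δ * s) = ∑ w, Y w + s * (δ * N) := by
      field_simp
    rw [h4] at h3
    linarith

/-- Existence of a biased point of the convex hull. -/
lemma exists_biased [Nonempty ι] (T : ι → ι → ι → Prop) (α : ℝ) (hα : 0 < α) (hα1 : α ≤ 1)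
    [∀ p, DecidablePred (fun x : ι × ι => T p x.1 x.2)]
    (hsym1 : ∀ p q r, T p q r → T q p r) (hsym2 : ∀ p q r, T p q r → T p r q)
    (hdeg : ∀ p, (7 / 16 + α) * (Fintype.card ι : ℝ) ^ 2 ≤
      ((univ.filter (fun x : ι × ι => T p x.1 x.2)).card : ℝ))
    (c : ι → ι → ι → ℝ) (hc : ∀ p q r, c p q r = 1 ∨ c p q r = -1)
    (hc1 : ∀ p q r, c p q r = c q p r) (hc2 : ∀ p q r, c p q r = c p r q) :
    ∃ x ∈ convexHull ℝ (vecs T c), x.1 = (fun _ => 2 / (Fintype.card ι : ℝ)) ∧
      (2 * (α / 80000) ≤ x.2 ∨ x.2 ≤ -(2 * (α / 80000))) := by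
  by_contra hcon
  push Not at hcon
  set N : ℝ := (Fintype.card ι : ℝ) with hN
  have hNpos : 0 < N := by rw [hN]; exact_mod_cast Fintype.card_pos
  have hA : ∀ x ∈ convexHull ℝ (vecs T c), x.1 = (fun _ => 2 / N) → x.2 < 2 * (α / 80000) :=
    fun x hx hx1 => (hcon x hx hx1).1
  -- the negated colouring
  have hB : ∀ x ∈ convexHull ℝ (vecs T (fun p q r => - c p q r)),
      x.1 = (fun _ => 2 / N) → x.2 < 2 * (α / 80000) := by
    intro x hx hx1
    -- map by (id, neg)
    let L : ((ι → ℝ) × ℝ) →ₗ[ℝ] ((ι → ℝ) × ℝ) :=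
      LinearMap.prodMap LinearMap.id (-LinearMap.id)
    have himg : L '' (vecs T (fun p q r => - c p q r)) = vecs T c := by
      unfold vecs
      rw [← Set.image_comp]
      congr 1
      funext j
      simp [L, vec]
    have h1 : L x ∈ convexHull ℝ (vecs T c) := by
      rw [← himg, ← LinearMap.image_convexHull]
      exact ⟨x, hx, rfl⟩
    have h2 := (hcon (L x) h1 (by simpa [L] using hx1)).2
    simp only [L, LinearMap.prodMap_apply, LinearMap.neg_apply, LinearMap.id_apply] at h2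
    linarith
  obtain ⟨y, s, hs, hy, hys⟩ := separation T c (α / 80000) hA
  obtain ⟨z, s', hs', hz, hzs⟩ := separation T (fun p q r => - c p q r) (α / 80000) hB
  -- degenerate cases
  rcases hs.eq_or_lt with hs0 | hspos
  · have h1 : ∀ p q r, T p q r → 0 ≤ y p + y q / 2 + y r / 2 := by
      intro p q r h
      have := hy p q r h
      rw [← hs0] at this; linarith
    have h2 := (dual_lower T α hα hdeg y h1).1
    rw [← hs0] at hys; linarith
  rcases hs'.eq_or_lt with hs0' | hspos'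
  · have h1 : ∀ p q r, T p q r → 0 ≤ z p + z q / 2 + z r / 2 := by
      intro p q r h
      have := hz p q r h
      rw [← hs0'] at this; linarith
    have h2 := (dual_lower T α hα hdeg z h1).1
    rw [← hs0'] at hzs; linarith
  -- normalise
  refine dual_contra T α hα hα1 hsym1 hsym2 hdeg c hc hc1 hc2 (fun v => y v / s)
    (fun v => z v / s') ?_ ?_ ?_ ?_
  · intro p q r h
    have := hy p q r h
    have h2 : y p / s + y q / s / 2 + y r / s / 2 = (y p + y q / 2 + y r / 2) / s := by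
      field_simp
    rw [h2, lt_div_iff₀ hspos]
    linarith
  · intro p q r h
    have := hz p q r h
    have h2 : z p / s' + z q / s' / 2 + z r / s' / 2 = (z p + z q / 2 + z r / 2) / s' := by
      field_simp
    rw [h2, lt_div_iff₀ hspos']
    linarith
  · rw [← Finset.sum_div, div_lt_iff₀ hspos]
    linarith
  · rw [← Finset.sum_div, div_lt_iff₀ hspos']
    linarith

/-- Fractional tiling with bounded support and a colour bias. -/
theorem lp_bias [Nonempty ι] (T : ι → ι → ι → Prop) (α : ℝ) (hα : 0 < α) (hα1 : α ≤ 1)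
    [∀ p, DecidablePred (fun x : ι × ι => T p x.1 x.2)]
    (hsym1 : ∀ p q r, T p q r → T q p r) (hsym2 : ∀ p q r, T p q r → T p r q)
    (hdeg : ∀ p, (7 / 16 + α) * (Fintype.card ι : ℝ) ^ 2 ≤
      ((univ.filter (fun x : ι × ι => T p x.1 x.2)).card : ℝ))
    (c : ι → ι → ι → ℝ) (hc : ∀ p q r, c p q r = 1 ∨ c p q r = -1)
    (hc1 : ∀ p q r, c p q r = c q p r) (hc2 : ∀ p q r, c p q r = c p r q) :
    ∃ (J : Finset (ι × ι × ι)) (w : ι × ι × ι → ℝ), (∀ j ∈ J, T j.1 j.2.1 j.2.2) ∧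
      (∀ j ∈ J, 0 ≤ w j) ∧ J.card ≤ Fintype.card ι + 2 ∧
      (∀ v, ∑ j ∈ J, w j * use j v = 1) ∧
      ∑ j ∈ J, w j = (Fintype.card ι : ℝ) / 2 ∧
      (α / 80000 * (Fintype.card ι : ℝ) ≤ ∑ j ∈ J, w j * c j.1 j.2.1 j.2.2 ∨
        ∑ j ∈ J, w j * c j.1 j.2.1 j.2.2 ≤ -(α / 80000 * (Fintype.card ι : ℝ))) := by
  classical
  obtain ⟨x, hx, hx1, hx2⟩ := exists_biased T α hα hα1 hsym1 hsym2 hdeg c hc hc1 hc2
  set N : ℝ := (Fintype.card ι : ℝ) with hN
  have hNpos : 0 < N := by rw [hN]; exact_mod_cast Fintype.card_pos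
  rw [convexHull_eq_union] at hx
  simp only [Set.mem_iUnion] at hx
  obtain ⟨t, ht, hind, hxt⟩ := hx
  rw [Finset.mem_convexHull] at hxt
  obtain ⟨w, hw0, hw1, hwx⟩ := hxt
  -- choose preimages
  have hpre : ∀ a : {a // a ∈ t}, ∃ j : ι × ι × ι, T j.1 j.2.1 j.2.2 ∧ vec c j = a.1 := by
    intro a
    exact ht a.2
  choose g hgT hgv using hpre
  have hginj : Function.Injective g := by
    intro a b hab
    apply Subtype.ext
    rw [← hgv a, ← hgv b, hab]
  set J : Finset (ι × ι × ι) := Finset.univ.image g with hJ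
  have hgJ : ∀ (F : ι × ι × ι → ℝ), ∑ j ∈ J, F j = ∑ a : {a // a ∈ t}, F (g a) := by
    intro F
    rw [hJ, Finset.sum_image]
    intro a _ b _ h
    exact hginj h
  have hcenter : ∑ a : {a // a ∈ t}, w a.1 • a.1 = x := by
    rw [← hwx, Finset.centerMass_eq_of_sum_1 _ _ hw1]
    rw [← Finset.sum_coe_sort t]
    rfl
  refine ⟨J, fun j => N / 2 * w (vec c j), ?_, ?_, ?_, ?_, ?_, ?_⟩
  · intro j hj
    rw [hJ, Finset.mem_image] at hj
    obtain ⟨a, _, rfl⟩ := hj
    exact hgT a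
  · intro j hj
    rw [hJ, Finset.mem_image] at hj
    obtain ⟨a, _, rfl⟩ := hj
    have h1 := hw0 a.1 a.2
    simp only [hgv a]
    positivity
  · have h1 : J.card = t.card := by
      rw [hJ, Finset.card_image_of_injective _ hginj]
      simp
    have h2 := hind.card_le_finrank_succ
    have h3 : Module.finrank ℝ (vectorSpan ℝ (Set.range (Subtype.val : {a // a ∈ t} → (ι → ℝ) × ℝ)))
        ≤ Module.finrank ℝ ((ι → ℝ) × ℝ) := Submodule.finrank_le _
    have h4 : Module.finrank ℝ ((ι → ℝ) × ℝ) = Fintype.card ι + 1 := by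
      rw [Module.finrank_prod]; simp
    have h5 : Fintype.card {a // a ∈ t} = t.card := by simp
    rw [h1]
    omega
  · intro v
    rw [hgJ (fun j => N / 2 * w (vec c j) * use j v)]
    have h1 : ∀ a : {a // a ∈ t}, N / 2 * w (vec c (g a)) * use (g a) v
        = N / 2 * (w a.1 • a.1).1 v := by
      intro a
      have h2 : use (g a) v = a.1.1 v := by
        have := congrArg (fun z : (ι → ℝ) × ℝ => z.1 v) (hgv a)
        simpa [vec] using this
      rw [hgv a, h2]
      simp only [Prod.smul_fst, Pi.smul_apply, smul_eq_mul]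
      ring
    rw [Finset.sum_congr rfl (fun a _ => h1 a), ← Finset.mul_sum]
    have h3 : ∑ a : {a // a ∈ t}, (w a.1 • a.1).1 v = x.1 v := by
      rw [← hcenter, Prod.fst_sum, Finset.sum_apply]
    rw [h3, hx1]
    field_simp
  · rw [hgJ (fun j => N / 2 * w (vec c j))]
    have h1 : ∀ a : {a // a ∈ t}, N / 2 * w (vec c (g a)) = N / 2 * w a.1 := by
      intro a; rw [hgv a]
    rw [Finset.sum_congr rfl (fun a _ => h1 a), ← Finset.mul_sum]
    have h3 : ∑ a : {a // a ∈ t}, w a.1 = 1 := by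
      rw [← hw1, ← Finset.sum_coe_sort t]
    rw [h3]; ring
  · have hkey : ∑ j ∈ J, N / 2 * w (vec c j) * c j.1 j.2.1 j.2.2 = N / 2 * x.2 := by
      rw [hgJ (fun j => N / 2 * w (vec c j) * c j.1 j.2.1 j.2.2)]
      have h1 : ∀ a : {a // a ∈ t}, N / 2 * w (vec c (g a)) * c (g a).1 (g a).2.1 (g a).2.2
          = N / 2 * (w a.1 • a.1).2 := by
        intro a
        have h2 : c (g a).1 (g a).2.1 (g a).2.2 = a.1.2 := by
          have := congrArg (fun z : (ι → ℝ) × ℝ => z.2) (hgv a)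
          simpa [vec] using this
        rw [hgv a, h2]
        simp only [Prod.smul_snd, smul_eq_mul]
        ring
      rw [Finset.sum_congr rfl (fun a _ => h1 a), ← Finset.mul_sum]
      rw [← hcenter, Prod.snd_sum]
    rw [hkey]
    rcases hx2 with h | h
    · left; nlinarith
    · right; nlinarith

end Pool.Agent.LooseHC
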