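import Pool.Agent.Helper26.LooseHC.Prep

set_option autoImplicit false

/-!
Assembly of the colour-biased loose Hamilton cycle.
-/

namespace Pool.Agent.LooseHC

open Finset

/-- Degree inside a subset. -/
lemma dcount_ge {V : Type} [Fintype V] [DecidableEq V] (C : Bool → V → V → V → Prop)
    (α ρ : ℝ) (_hα : 0 < α) (hρ : ρ ≤ α / 8) (W : Finset V)
    (hW : ((univ \ W).card : ℝ) ≤ ρ * Fintype.card V) (v : V)
    (hdeg : (7 / 16 + α) * (Fintype.card V : ℝ) ^ 2 ≤
      ((link (fun a b d => ∃ c, C c a b d) v).card : ℝ)) :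
    (7 / 16 + α / 4) * (W.card : ℝ) ^ 2 ≤ dcount C W v := by
  classical
  set n : ℝ := (Fintype.card V : ℝ) with hn
  have hn0 : 0 ≤ n := by positivity
  have h1 : link (fun a b d => ∃ c, C c a b d) v ⊆
      ((W ×ˢ W).filter (fun x => ∃ c, C c v x.1 x.2)) ∪
        (((univ \ W) ×ˢ univ) ∪ (univ ×ˢ (univ \ W))) := by
    rintro ⟨a, b⟩ h
    rw [mem_link] at h
    simp only [Finset.mem_union, Finset.mem_filter, Finset.mem_product, Finset.mem_sdiff,
      Finset.mem_univ, true_and, and_true]
    by_cases ha : a ∈ W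
    · by_cases hb : b ∈ W
      · left; exact ⟨⟨ha, hb⟩, h⟩
      · right; right; exact hb
    · right; left; exact ha
  have h2 := (Finset.card_le_card h1).trans ((Finset.card_union_le _ _).trans
    (Nat.add_le_add_left (Finset.card_union_le _ _) _))
  rw [Finset.card_product, Finset.card_product, Finset.card_univ] at h2
  have h3 : ((link (fun a b d => ∃ c, C c a b d) v).card : ℝ) ≤
      (dcount C W v : ℝ) + (((univ \ W).card : ℝ) * n + n * (univ \ W).card) := by
    have : dcount C W v = ((W ×ˢ W).filter (fun x => ∃ c, C c v x.1 x.2)).card := by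
      unfold dcount; congr
    rw [this, hn]
    exact_mod_cast h2
  have h4 : ((univ \ W).card : ℝ) * n ≤ ρ * n * n := mul_le_mul_of_nonneg_right hW hn0
  have h5 : (W.card : ℝ) ≤ n := by rw [hn]; exact_mod_cast Finset.card_le_univ W
  have h6 : (W.card : ℝ) ^ 2 ≤ n ^ 2 := pow_le_pow_left₀ (by positivity) h5 2
  have h7 : (7 / 16 + α / 4) * (W.card : ℝ) ^ 2 ≤ (7 / 16 + α / 4) * n ^ 2 :=
    mul_le_mul_of_nonneg_left h6 (by linarith)
  have h8 : 0 ≤ n ^ 2 := by positivity
  nlinarith

lemma forall₂_right {α β : Type} {R : α → β → Prop} {l : List α} {l' : List β}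
    (h : List.Forall₂ R l l') : ∀ t ∈ l', ∃ π ∈ l, R π t := by
  induction h with
  | nil => intro t ht; simp at ht
  | cons hab _ ih =>
    intro t ht
    rw [List.mem_cons] at ht
    rcases ht with rfl | ht
    · exact ⟨_, List.mem_cons_self, hab⟩
    · obtain ⟨π, h1, h2⟩ := ih t ht
      exact ⟨π, List.mem_cons_of_mem _ h1, h2⟩

theorem main_graph (α : ℝ) (hα : 0 < α) (hα1 : α ≤ 1) :
    ∃ δ : ℝ, 0 < δ ∧ ∃ n₀ : ℕ, ∀ {V : Type} [Fintype V] [DecidableEq V]
      (C : Bool → V → V → V → Prop),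
      (∀ c a b d, C c a b d → C c b a d) → (∀ c a b d, C c a b d → C c a d b) →
      n₀ ≤ Fintype.card V → Even (Fintype.card V) →
      (∀ v, (7 / 16 + α) * (Fintype.card V : ℝ) ^ 2 ≤
        ((link (fun a b d => ∃ c, C c a b d) v).card : ℝ)) →
      ∃ (u : V) (L : List V) (c : Bool), LPath (fun a b d => ∃ c, C c a b d) u L u ∧ L.Nodup ∧
        (∀ v, v ∈ L) ∧ (1 / 4 + δ) * (Fintype.card V : ℝ) ≤ (cnt (C c) u L : ℝ) := by
  classical
  obtain ⟨β0, hβ0, htile⟩ := tiling_main (α / 4) (by positivity) (by linarith)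
  set β : ℝ := min β0 1 with hβ
  have hβpos : 0 < β := lt_min hβ0 one_pos
  have hβ1 : β ≤ 1 := min_le_right _ _
  have hβ2 : β ≤ β0 := min_le_left _ _
  set ρ : ℝ := min (α / 8) (β / 8) with hρ
  have hρpos : 0 < ρ := lt_min (by positivity) (by positivity)
  have hρ1 : ρ ≤ α / 8 := min_le_left _ _
  have hρ2 : ρ ≤ β / 8 := min_le_right _ _
  set c7 : ℝ := 1 / (2 * 10 ^ 13) with hc7
  have hc7pos : 0 < c7 := by positivity
  set c3 : ℝ := 3 / 800000 with hc3
  have hc3pos : 0 < c3 := by positivity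
  set βA : ℝ := min (min (ρ / 20) (1 / 10 ^ 8)) (c7 / (16 * 49)) with hβA
  have hβApos : 0 < βA := lt_min (lt_min (by positivity) (by norm_num)) (by positivity)
  have hβA1 : βA ≤ ρ / 20 := (min_le_left _ _).trans (min_le_left _ _)
  have hβA2 : βA ≤ 1 / 10 ^ 8 := (min_le_left _ _).trans (min_le_right _ _)
  have hβA3 : βA ≤ c7 / (16 * 49) := min_le_right _ _
  set κA : ℝ := c7 * βA / 16 with hκA
  have hκApos : 0 < κA := by positivity
  set βC : ℝ := min (min (ρ / 6) (κA / 40)) (c3 / (16 * 9)) with hβC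
  have hβCpos : 0 < βC := lt_min (lt_min (by positivity) (by positivity)) (by positivity)
  have hβC1 : βC ≤ ρ / 6 := (min_le_left _ _).trans (min_le_left _ _)
  have hβC2 : βC ≤ κA / 40 := (min_le_left _ _).trans (min_le_right _ _)
  have hβC3 : βC ≤ c3 / (16 * 9) := min_le_right _ _
  set κC : ℝ := c3 * βC / 16 with hκC
  have hκCpos : 0 < κC := by positivity
  set η : ℝ := min ρ (κA / 12) with hη
  have hηpos : 0 < η := lt_min hρpos (by positivity)
  have hη1 : η ≤ ρ := min_le_left _ _
  have hη2 : η ≤ κA / 12 := min_le_right _ _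
  obtain ⟨s, hs⟩ := exists_nat_gt (max (3 / κA) (max (3 / κC) (4 / β)))
  have hs1 : 3 / κA < s := lt_of_le_of_lt (le_max_left _ _) hs
  have hs2 : 3 / κC < s := lt_of_le_of_lt ((le_max_left _ _).trans (le_max_right _ _)) hs
  have hs3 : 4 / β < s := lt_of_le_of_lt ((le_max_right _ _).trans (le_max_right _ _)) hs
  have hsr : (0 : ℝ) < s := lt_trans (by positivity) hs3
  have hspos : 0 < s := by exact_mod_cast hsr
  obtain ⟨nT, hnT⟩ := htile s hspos η hηpos
  obtain ⟨nA, hnA⟩ := selection 7 (by norm_num) c7 hc7pos (by rw [hc7]; norm_num) βA hβApos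
    (by push_cast; linarith only [hβA3])
  obtain ⟨nC, hnC⟩ := selection 3 (by norm_num) c3 hc3pos (by rw [hc3]; norm_num) βC hβCpos
    (by push_cast; linarith only [hβC3])
  obtain ⟨nE, hnE⟩ := exists_nat_gt (max (49 / c7) (12 / κC))
  refine ⟨β / 16, by positivity, max (max (2 * nT) nA) (max nC (max nE (10 ^ 7))), ?_⟩
  intro V _ _ C hsym1 hsym2 hn heven hdeg
  have hn1 : 2 * nT ≤ Fintype.card V := (le_max_left _ _).trans ((le_max_left _ _).trans hn)
  have hn2 : nA ≤ Fintype.card V := (le_max_right _ _).trans ((le_max_left _ _).trans hn)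
  have hn3 : nC ≤ Fintype.card V := (le_max_left _ _).trans ((le_max_right _ _).trans hn)
  have hn4 : nE ≤ Fintype.card V :=
    (le_max_left _ _).trans ((le_max_right _ _).trans ((le_max_right _ _).trans hn))
  have hn5 : 10 ^ 7 ≤ Fintype.card V :=
    (le_max_right _ _).trans ((le_max_right _ _).trans ((le_max_right _ _).trans hn))
  set n : ℝ := (Fintype.card V : ℝ) with hndef
  have hn5r : (10 ^ 7 : ℝ) ≤ n := by rw [hndef]; exact_mod_cast hn5
  have hnpos : 0 < n := lt_of_lt_of_le (by norm_num) hn5r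
  have hn4r : (nE : ℝ) ≤ n := by rw [hndef]; exact_mod_cast hn4
  have hn6 : 49 / c7 < n := lt_of_le_of_lt (le_max_left _ _) (lt_of_lt_of_le hnE hn4r)
  have hn7 : 12 / κC < n := lt_of_le_of_lt (le_max_right _ _) (lt_of_lt_of_le hnE hn4r)
  rw [div_lt_iff₀ hc7pos] at hn6
  rw [div_lt_iff₀ hκCpos] at hn7
  set E : V → V → V → Prop := fun a b d => ∃ c, C c a b d with hE
  have hE1 : ∀ a b d, E a b d → E b a d := fun a b d ⟨c, h⟩ => ⟨c, hsym1 _ _ _ _ h⟩
  have hE2 : ∀ a b d, E a b d → E a d b := fun a b d ⟨c, h⟩ => ⟨c, hsym2 _ _ _ _ h⟩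
  have hdeg716 : ∀ x, 7 / 16 * n ^ 2 ≤ ((link E x).card : ℝ) := by
    intro x
    refine le_trans ?_ (hdeg x)
    exact mul_le_mul_of_nonneg_right (by linarith only [hα]) (by positivity)
  have hVne : Nonempty V := by
    rw [← Fintype.card_pos_iff]; omega
  obtain ⟨v0⟩ := hVne
  -- absorbers
  set A7 : V → V → Finset (Fin 7 → V) := fun x y =>
    univ.filter (fun t => Abs E x y t ∧ Function.Injective t ∧ ∀ i, t i ∉ (∅ : Finset V)) with hA7
  have hA7c : ∀ x y, c7 * n ^ 7 ≤ ((A7 x y).card : ℝ) := by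
    intro x y
    have h1 := abs_count E hE1 hE2 hdeg716 x y
    have h2 := filter_good_ge (k := 7) (fun t => Abs E x y t) (∅ : Finset V)
    have h3 : ((7 : ℕ) : ℝ) ^ 2 + (7 : ℕ) * ((∅ : Finset V).card : ℝ) = 49 := by
      simp; norm_num
    rw [h3, ← hndef] at h2
    have h4 : (49 : ℝ) * n ^ (7 - 1) ≤ c7 * n ^ 7 := by
      have : c7 * n ^ 7 = (n * c7) * n ^ 6 := by ring
      rw [this]
      apply mul_le_mul_of_nonneg_right hn6.le (by positivity)
    have h5 : (1 / 10 ^ 13 : ℝ) * n ^ 7 = 2 * c7 * n ^ 7 := by rw [hc7]; ring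
    rw [← hndef, h5] at h1
    simp only [hA7]
    linarith only [h1, h2, h4]
  obtain ⟨FA, hFA1, hFA2, hFA3, hFA4⟩ := hnA hn2 A7 hA7c
  have hFApos : 0 < FA.card := by
    have h1 := hFA4 v0 v0
    have h2 : ((FA ∩ A7 v0 v0).card : ℝ) ≤ FA.card := by
      exact_mod_cast Finset.card_le_card Finset.inter_subset_left
    have h3 : (0 : ℝ) < FA.card := by
      have : 0 < c7 * βA / 16 * n := by positivity
      exact lt_of_lt_of_le this (h1.trans h2)
    exact_mod_cast h3
  set a : ℕ := FA.card with ha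
  have har : (a : ℝ) ≤ βA * n := hFA1
  -- list of absorbers
  have htl : ∃ t0 tl', FA.toList = t0 :: tl' := by
    cases h : FA.toList with
    | nil =>
      have : FA.toList.length = 0 := by rw [h]; rfl
      rw [Finset.length_toList] at this
      omega
    | cons t0 tl' => exact ⟨t0, tl', rfl⟩
  obtain ⟨t0, tl', htl⟩ := htl
  have htllen : tl'.length + 1 = a := by
    have : FA.toList.length = a := Finset.length_toList _
    rw [htl] at this
    simpa using this
  have htlmem : ∀ t, t ∈ t0 :: tl' ↔ t ∈ FA := by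
    intro t; rw [← htl, Finset.mem_toList]
  have htlnd : (t0 :: tl').Nodup := by rw [← htl]; exact Finset.nodup_toList _
  have hFAinj : ∀ t ∈ FA, Function.Injective t := by
    intro t ht
    obtain ⟨x, y, hxy⟩ := hFA2 t ht
    simp only [hA7, Finset.mem_filter] at hxy
    exact hxy.2.2.1
  have hFAok : ∀ t ∈ FA, (baseSeg t).Ok E := by
    intro t ht
    obtain ⟨x, y, hxy⟩ := hFA2 t ht
    simp only [hA7, Finset.mem_filter] at hxy
    exact baseSeg_ok E x y t hxy.2.1
  have htlpw : (t0 :: tl').Pairwise (fun t t' => ∀ i j, t i ≠ t' j) := by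
    refine htlnd.imp_of_mem ?_
    intro t t' ht ht' hne i j
    exact hFA3 t ((htlmem t).mp ht) t' ((htlmem t').mp ht') hne i j
  set rest : List (Seg V) := tl'.map baseSeg with hrest
  set Z0 : Finset V := FA.biUnion (fun t => univ.image t) with hZ0
  have hZ0c : Z0.card ≤ 7 * a := card_biUnion_image_le FA
  -- availability of connecting triples
  have havail : Avail (Con E) (10 * a) := by
    apply avail_of_count (Con E) (3 / 400000) (10 * a)
    · intro x y; exact con_count E hE1 hE2 hdeg716 x y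
    · push_cast
      have h1 : (a : ℝ) ≤ 1 / 10 ^ 8 * n := har.trans (mul_le_mul_of_nonneg_right hβA2 hnpos.le)
      have h2 : (3 : ℝ) ^ 2 + 3 * (10 * a) < 3 / 400000 * n := by
        norm_num at h1 hn5r ⊢
        linarith only [h1, hn5r]
      rw [← hndef]
      calc ((3 : ℝ) ^ 2 + 3 * (10 * a)) * n ^ (3 - 1) < (3 / 400000 * n) * n ^ (3 - 1) :=
            mul_lt_mul_of_pos_right h2 (by positivity)
        _ = 3 / 400000 * n ^ 3 := by ring
  obtain ⟨gs, hgs1, hgs2, hgs3⟩ := greedy (Con E) (10 * a) havail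
    (creqs (baseSeg t0).e rest) Z0 (by
      rw [length_creqs, hrest, List.length_map]; omega)
  have hgslen : gs.length = tl'.length := by
    have := hgs1.length_eq
    rw [length_creqs, hrest, List.length_map] at this
    exact this.symm
  set Z1 : Finset V := Z0 ∪ gs.toFinset.biUnion (fun t => univ.image t) with hZ1
  have hZ1c : Z1.card ≤ 7 * a + 3 * gs.length := by
    refine (Finset.card_union_le _ _).trans (Nat.add_le_add hZ0c ?_)
    refine (card_biUnion_image_le _).trans (Nat.mul_le_mul_left _ ?_)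
    exact List.toFinset_card_le gs
  have hZ1c' : Z1.card ≤ 10 * a := by omega
  have hZ1r : (Z1.card : ℝ) ≤ 10 * a := by exact_mod_cast hZ1c'
  -- reservoir
  set A3 : V → V → Finset (Fin 3 → V) := fun x y =>
    univ.filter (fun t => Con E x y t ∧ Function.Injective t ∧ ∀ i, t i ∉ Z1) with hA3
  have hA3c : ∀ x y, c3 * n ^ 3 ≤ ((A3 x y).card : ℝ) := by
    intro x y
    have h1 := con_count E hE1 hE2 hdeg716 x y
    have h2 := filter_good_ge (k := 3) (fun t => Con E x y t) Z1
    rw [← hndef] at h1 h2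
    have h3 : (((3 : ℕ) : ℝ) ^ 2 + (3 : ℕ) * (Z1.card : ℝ)) * n ^ (3 - 1) ≤ c3 * n ^ 3 := by
      have h4 : (a : ℝ) ≤ 1 / 10 ^ 8 * n := har.trans (mul_le_mul_of_nonneg_right hβA2 hnpos.le)
      have h5 : ((3 : ℕ) : ℝ) ^ 2 + (3 : ℕ) * (Z1.card : ℝ) ≤ c3 * n := by
        push_cast
        rw [hc3]
        norm_num at h4 hn5r ⊢
        linarith only [h4, hn5r, hZ1r]
      calc (((3 : ℕ) : ℝ) ^ 2 + (3 : ℕ) * (Z1.card : ℝ)) * n ^ (3 - 1) ≤ (c3 * n) * n ^ (3 - 1) :=
            mul_le_mul_of_nonneg_right h5 (by positivity)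
        _ = c3 * n ^ 3 := by ring
    have h6 : (3 / 400000 : ℝ) * n ^ 3 = 2 * c3 * n ^ 3 := by rw [hc3]; ring
    rw [h6] at h1
    simp only [hA3]
    linarith only [h1, h2, h3]
  obtain ⟨FC, hFC1, hFC2, hFC3, hFC4⟩ := hnC hn3 A3 hA3c
  set R : Finset V := FC.biUnion (fun t => univ.image t) with hR
  have hRc : R.card ≤ 3 * FC.card := card_biUnion_image_le FC
  have hRr : (R.card : ℝ) ≤ 3 * (βC * n) := by
    have : (R.card : ℝ) ≤ 3 * FC.card := by exact_mod_cast hRc
    rw [← hndef] at hFC1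
    linarith only [this, hFC1]
  have hFCavoid : ∀ t ∈ FC, ∀ i, t i ∉ Z1 := by
    intro t ht
    obtain ⟨x, y, hxy⟩ := hFC2 t ht
    simp only [hA3, Finset.mem_filter] at hxy
    exact hxy.2.2.2
  set W : Finset V := univ \ (Z1 ∪ R) with hW
  have hWcomp : ((univ \ W).card : ℝ) ≤ ρ * n := by
    have h1 : univ \ W = Z1 ∪ R := by
      rw [hW]; simp
    rw [h1]
    have h2 : ((Z1 ∪ R).card : ℝ) ≤ (Z1.card : ℝ) + R.card := by
      exact_mod_cast Finset.card_union_le _ _
    have h3 : 10 * (a : ℝ) ≤ ρ / 2 * n := by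
      have : (a : ℝ) ≤ ρ / 20 * n := har.trans (mul_le_mul_of_nonneg_right hβA1 hnpos.le)
      linarith only [this]
    have h4 : 3 * (βC * n) ≤ ρ / 2 * n := by
      have : βC * n ≤ ρ / 6 * n := mul_le_mul_of_nonneg_right hβC1 hnpos.le
      linarith only [this]
    linarith only [h2, h3, h4, hZ1r, hRr]
  have hWsplit : ((univ \ W).card : ℝ) + W.card = n := by
    have := Finset.card_sdiff_add_card_eq_card (Finset.subset_univ W)
    rw [Finset.card_univ] at this
    rw [hndef]; exact_mod_cast this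
  have hWlow : (1 - ρ) * n ≤ (W.card : ℝ) := by linarith only [hWsplit, hWcomp]
  have hWle : (W.card : ℝ) ≤ n := by
    have : (0 : ℝ) ≤ ((univ \ W).card : ℝ) := by positivity
    linarith only [this, hWsplit]
  have hWdeg : ∀ v ∈ W, (7 / 16 + α / 4) * (W.card : ℝ) ^ 2 ≤ dcount C W v := by
    intro v _
    exact dcount_ge C α ρ hα hρ1 W hWcomp v (hdeg v)
  have hWnT : nT ≤ W.card := by
    have h1 : (nT : ℝ) ≤ W.card := by
      have h2 : 2 * (nT : ℝ) ≤ n := by rw [hndef]; exact_mod_cast hn1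
      have h3 : (7 / 8) * n ≤ (1 - ρ) * n :=
        mul_le_mul_of_nonneg_right (by linarith only [hρ2, hβ1]) hnpos.le
      linarith only [h2, h3, hWlow, hnpos]
    exact_mod_cast h1
  obtain ⟨L, hL, hLc, hLimb⟩ := hnT C hsym1 hsym2 W hWnT hWdeg
  obtain ⟨tsegs, ht1, ht2, ht3, ht4, ht5, ht6⟩ := tile_segs C hsym1 hsym2 s hspos L
    (fun T hT => (hL.1 T hT).1) hL.2
  have husedW : used L ⊆ W := by
    intro x hx
    rw [mem_used] at hx
    obtain ⟨T, hT, hx⟩ := hx
    exact (hL.1 T hT).2 hx
  have hLlen : 4 * (s : ℝ) * L.length ≤ n := by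
    have h1 := length_tiling_le C s L (fun T hT => (hL.1 T hT).1) hL.2
    have h2 := Finset.card_le_card husedW
    rw [h1] at h2
    have h3 : 4 * (s : ℝ) * L.length ≤ W.card := by exact_mod_cast h2
    exact h3.trans hWle
  have hLlen2 : (L.length : ℝ) ≤ κA / 12 * n := by
    rw [div_lt_iff₀ hκApos] at hs1
    have h0 : (0 : ℝ) ≤ L.length := by positivity
    have : 4 * 3 * (L.length : ℝ) ≤ κA * n := by
      calc 4 * 3 * (L.length : ℝ) ≤ 4 * (s * κA) * L.length :=
            mul_le_mul_of_nonneg_right (by linarith only [hs1]) h0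
        _ = κA * (4 * s * L.length) := by ring
        _ ≤ κA * n := mul_le_mul_of_nonneg_left hLlen hκApos.le
    linarith only [this]
  have hLlen3 : (L.length : ℝ) ≤ κC / 12 * n := by
    rw [div_lt_iff₀ hκCpos] at hs2
    have h0 : (0 : ℝ) ≤ L.length := by positivity
    have : 4 * 3 * (L.length : ℝ) ≤ κC * n := by
      calc 4 * 3 * (L.length : ℝ) ≤ 4 * (s * κC) * L.length :=
            mul_le_mul_of_nonneg_right (by linarith only [hs2]) h0
        _ = κC * (4 * s * L.length) := by ring
        _ ≤ κC * n := mul_le_mul_of_nonneg_left hLlen hκCpos.le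
    linarith only [this]
  -- connect through the reservoir
  set e1 : V := lastE (baseSeg t0).e rest with he1
  set u : V := lastE e1 tsegs with hu
  have havailC : Avail (fun x y t => t ∈ FC ∧ t ∈ A3 x y) (3 * (1 + L.length)) := by
    apply avail_of_family (by norm_num) FC A3
    · intro x y t ht
      simp only [hA3, Finset.mem_filter] at ht
      exact ht.2.2.1
    · exact hFC3
    · intro x y
      have h1 := hFC4 x y
      have h2 : ((3 * (1 + L.length) : ℕ) : ℝ) < ((FC ∩ A3 x y).card : ℝ) := by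
        refine lt_of_lt_of_le ?_ h1
        push_cast
        rw [← hκC, ← hndef]
        linarith only [hLlen3, hn7]
      exact_mod_cast h2
  obtain ⟨rs, hrs1, hrs2, hrs3⟩ := greedy _ _ havailC
    ((u, (baseSeg t0).s) :: creqs e1 tsegs) ∅ (by
      rw [List.length_cons, length_creqs, ht1, Finset.card_empty]; omega)
  rw [List.forall₂_cons_left_iff] at hrs1
  obtain ⟨r0, rs', hr0, hrs1', rfl⟩ := hrs1
  have hrs'len : rs'.length = L.length := by
    have := hrs1'.length_eq
    rw [length_creqs, ht1] at this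
    exact this.symm
  have hmemA3 : ∀ x y t, t ∈ A3 x y → Con E x y t := by
    intro x y t ht
    simp only [hA3, Finset.mem_filter] at ht
    exact ht.2.1
  -- all members of r0 :: rs' belong to FC
  have hrsFC : ∀ t ∈ r0 :: rs', t ∈ FC := by
    intro t ht
    rw [List.mem_cons] at ht
    rcases ht with rfl | ht
    · exact hr0.1
    · obtain ⟨π, _, hπ⟩ := forall₂_right hrs1' t ht
      exact hπ.1
  set absS : List (Seg V) := baseSeg t0 :: rest with habsS
  set TS : List (Fin 3 → V) := r0 :: (gs ++ rs') with hTS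
  have hCon : List.Forall₂ (fun (π : V × V) t => Con E π.1 π.2 t)
      (creqs u (absS ++ tsegs)) TS := by
    rw [creqs_append, habsS]
    simp only [creqs, lastE]
    rw [← he1, hTS, List.cons_append]
    refine List.Forall₂.cons (hmemA3 _ _ _ hr0.2) ?_
    exact List.rel_append hgs1 (hrs1'.imp (fun π t h => hmemA3 _ _ _ h.2))
  have habsok : ∀ S ∈ absS, S.Ok E := by
    intro S hS
    have : absS = (t0 :: tl').map baseSeg := by rw [habsS, hrest]; rfl
    rw [this, List.mem_map] at hS
    obtain ⟨t, ht, rfl⟩ := hS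
    exact hFAok t ((htlmem t).mp ht)
  set L0 : List V := join (absS ++ tsegs) TS with hL0
  have hlenSS : (absS ++ tsegs).length = TS.length := by
    rw [hTS, habsS, hrest]
    simp only [List.length_append, List.length_cons, List.length_map]
    rw [hgslen, hrs'len, ht1]; ring
  have hL0perm : L0.Perm (flat (absS ++ tsegs) ++ flatT TS) := join_perm _ _ hlenSS
  -- decompose
  have hL0perm2 : L0.Perm (flatK (t0 :: tl') ++ (flatK gs ++ (flat tsegs ++ flatK (r0 :: rs')))) := by
    refine hL0perm.trans ?_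
    have e1' : flat absS = flatK (t0 :: tl') := by
      have : absS = (t0 :: tl').map baseSeg := by rw [habsS, hrest]; rfl
      rw [this, flat_base]
    have e2' : flatT TS = flatK [r0] ++ (flatK gs ++ flatK rs') := by
      rw [hTS, flatT_eq]
      simp [flatK]
    have e3' : flatK (r0 :: rs') = flatK [r0] ++ flatK rs' := by simp [flatK]
    rw [flat_append, e1', e2', e3', ← Multiset.coe_eq_coe]
    simp only [← Multiset.coe_add]
    abel
  have hinZ0 : ∀ x ∈ flatK (t0 :: tl'), x ∈ Z0 := by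
    intro x hx
    rw [mem_flatK] at hx
    obtain ⟨t, ht, i, rfl⟩ := hx
    rw [hZ0, Finset.mem_biUnion]
    exact ⟨t, (htlmem t).mp ht, Finset.mem_image_of_mem _ (Finset.mem_univ i)⟩
  have hgsZ : ∀ x ∈ flatK gs, x ∉ Z0 ∧ x ∈ Z1 := by
    intro x hx
    rw [mem_flatK] at hx
    obtain ⟨t, ht, i, rfl⟩ := hx
    refine ⟨(hgs2 t ht).2 i, ?_⟩
    rw [hZ1, Finset.mem_union]
    right
    rw [Finset.mem_biUnion]
    exact ⟨t, List.mem_toFinset.mpr ht, Finset.mem_image_of_mem _ (Finset.mem_univ i)⟩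
  have hrsR : ∀ x ∈ flatK (r0 :: rs'), x ∈ R ∧ x ∉ Z1 := by
    intro x hx
    rw [mem_flatK] at hx
    obtain ⟨t, ht, i, rfl⟩ := hx
    have h1 := hrsFC t ht
    refine ⟨?_, hFCavoid t h1 i⟩
    rw [hR, Finset.mem_biUnion]
    exact ⟨t, h1, Finset.mem_image_of_mem _ (Finset.mem_univ i)⟩
  have htsW : ∀ x ∈ flat tsegs, x ∉ Z1 ∧ x ∉ R := by
    intro x hx
    have h1 := husedW (ht4 x hx)
    rw [hW, Finset.mem_sdiff, Finset.mem_union, not_or] at h1
    exact h1.2
  have hZ01 : Z0 ⊆ Z1 := by rw [hZ1]; exact Finset.subset_union_left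
  have hL0nd : L0.Nodup := by
    rw [hL0perm2.nodup_iff, List.nodup_append, List.nodup_append, List.nodup_append]
    refine ⟨flatK_nodup _ (fun t ht => hFAinj t ((htlmem t).mp ht)) htlpw,
      ⟨flatK_nodup _ (fun t ht => (hgs2 t ht).1) hgs3,
        ⟨ht3, flatK_nodup _ (fun t ht => (hrs2 t ht).1) hrs3, ?_⟩, ?_⟩, ?_⟩
    · intro x hx y hy hxy
      subst hxy
      exact (htsW x hx).2 (hrsR x hy).1
    · intro x hx y hy hxy
      subst hxy
      rw [List.mem_append] at hy
      rcases hy with hy | hy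
      · exact (htsW x hy).1 (hgsZ x hx).2
      · exact (hrsR x hy).2 (hgsZ x hx).2
    · intro x hx y hy hxy
      subst hxy
      have hx' := hinZ0 x hx
      rw [List.mem_append, List.mem_append] at hy
      rcases hy with hy | hy | hy
      · exact (hgsZ x hy).1 hx'
      · exact (htsW x hy).1 (hZ01 hx')
      · exact (hrsR x hy).2 (hZ01 hx')
  have hL0path : LPath E u L0 (lastE u (absS ++ tsegs)) := by
    apply join_lpath E _ u TS hCon
    intro S hS
    rw [List.mem_append] at hS
    rcases hS with hS | hS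
    · exact habsok S hS
    · exact ht2 S hS
  have hL0len : L0.length + L.length = 7 * a + 3 * gs.length + 4 * s * L.length +
      3 * (1 + L.length) := by
    rw [hL0perm2.length_eq, List.length_append, List.length_append, List.length_append,
      length_flatK, length_flatK, length_flatK, List.length_cons, List.length_cons, hrs'len]
    have h1 : tl'.length + 1 = a := htllen
    rw [h1]
    omega
  -- leftover
  set U : Finset V := univ \ L0.toFinset with hU
  have hUc : U.card + L0.length = Fintype.card V := by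
    have h1 : L0.toFinset.card = L0.length := List.toFinset_card_of_nodup hL0nd
    rw [← h1, hU, Finset.card_sdiff_add_card_eq_card (Finset.subset_univ _), Finset.card_univ]
  have hUeven : Even U.card := by
    have h1 := hL0path.even_length
    rw [← hUc] at heven
    exact (Nat.even_add.mp heven).mpr h1
  have hUsmall : (U.card : ℝ) ≤ κA / 4 * n := by
    have h1 : (U.card : ℝ) + L0.length = n := by rw [hndef]; exact_mod_cast hUc
    have h2 : (L0.length : ℝ) + L.length = 7 * a + 3 * gs.length + 4 * s * L.length +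
      3 * (1 + L.length) := by exact_mod_cast hL0len
    have h3 : n ≤ (Z1.card : ℝ) + R.card + W.card := by
      have h4 : univ \ W = Z1 ∪ R := by
        rw [hW]; simp
      rw [h4] at hWsplit
      have h5 : ((Z1 ∪ R).card : ℝ) ≤ (Z1.card : ℝ) + R.card := by
        exact_mod_cast Finset.card_union_le _ _
      linarith only [h5, hWsplit]
    have h4 : (Z1.card : ℝ) ≤ 7 * a + 3 * gs.length := by exact_mod_cast hZ1c
    have h5 : 3 * (βC * n) ≤ 3 * (κA / 40 * n) := by
      have := mul_le_mul_of_nonneg_right hβC2 hnpos.le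
      linarith only [this]
    have h6 : (0 : ℝ) ≤ L.length := by positivity
    have h7 : η * W.card ≤ κA / 12 * n := by
      have h8 : η * (W.card : ℝ) ≤ η * n := mul_le_mul_of_nonneg_left hWle hηpos.le
      have h9 : η * n ≤ κA / 12 * n := mul_le_mul_of_nonneg_right hη2 hnpos.le
      exact h8.trans h9
    have h10 : 0 < κA * n := by positivity
    linarith only [h1, h2, h3, h4, h5, h6, h7, h10, hRr, hLc, hLlen2]
  obtain ⟨r, hr⟩ := hUeven
  obtain ⟨prs, hprs1, hprs2⟩ := pair_up r U.toList (by rw [Finset.length_toList, hr]; ring)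
  have havailA : Avail (fun x y t => t ∈ FA ∧ t ∈ A7 x y) (7 * r) := by
    apply avail_of_family (by norm_num) FA A7
    · intro x y t ht
      simp only [hA7, Finset.mem_filter] at ht
      exact ht.2.2.1
    · exact hFA3
    · intro x y
      have h1 := hFA4 x y
      have h2 : ((7 * r : ℕ) : ℝ) < ((FA ∩ A7 x y).card : ℝ) := by
        refine lt_of_lt_of_le ?_ h1
        push_cast
        rw [← hκA]
        have h3 : (r : ℝ) + r = U.card := by exact_mod_cast hr.symm
        have h10 : 0 < κA * n := by positivity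
        rw [← hndef]
        linarith only [h3, h10, hUsmall]
      exact_mod_cast h2
  obtain ⟨ta, hta1, hta2, hta3⟩ := greedy _ _ havailA prs ∅ (by
    rw [hprs2]; simp)
  have htaAbs : List.Forall₂ (fun (π : V × V) t => Abs E π.1 π.2 t) prs ta := by
    refine hta1.imp (fun π t h => ?_)
    have := h.2
    simp only [hA7, Finset.mem_filter] at this
    exact this.2.1
  have htaFA : ∀ t ∈ ta, t ∈ FA := by
    intro t ht
    obtain ⟨π, _, hπ⟩ := forall₂_right hta1 t ht
    exact hπ.1
  have htand : ta.Nodup := nodup_of_pairwise_tuples (by norm_num) ta hta3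
  have htabase : ∀ t ∈ ta, baseSeg t ∈ absS := by
    intro t ht
    have : absS = (t0 :: tl').map baseSeg := by rw [habsS, hrest]; rfl
    rw [this]
    exact List.mem_map_of_mem ((htlmem t).mpr (htaFA t ht))
  obtain ⟨Ss', hs'1, hs'2, hs'3, hs'4, hs'5⟩ := absorb E hE1 hE2 prs ta absS htaAbs htand
    htabase habsok
  set L1 : List V := join (Ss' ++ tsegs) TS with hL1
  have hcreq : creqs u (Ss' ++ tsegs) = creqs u (absS ++ tsegs) := by
    rw [creqs_append, creqs_append, hs'1, hs'2]
  have hlast : lastE u (Ss' ++ tsegs) = u := by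
    rw [lastE_append, hs'2, habsS]
    simp only [lastE]
    rfl
  have hCon1 : List.Forall₂ (fun (π : V × V) t => Con E π.1 π.2 t)
      (creqs u (Ss' ++ tsegs)) TS := by rw [hcreq]; exact hCon
  have hok1 : ∀ S ∈ Ss' ++ tsegs, S.Ok E := by
    intro S hS
    rw [List.mem_append] at hS
    rcases hS with hS | hS
    · exact hs'4 S hS
    · exact ht2 S hS
  have hL1path : LPath E u L1 u := by
    have := join_lpath E (Ss' ++ tsegs) u TS hCon1 hok1
    rw [hlast] at this
    exact this
  have hL1perm : L1.Perm (U.toList ++ L0) := by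
    have h1 : L1.Perm (flat (Ss' ++ tsegs) ++ flatT TS) := by
      apply join_perm
      rw [List.length_append, hs'3, ← List.length_append]
      exact hlenSS
    refine h1.trans ?_
    rw [← Multiset.coe_eq_coe] at hs'5 hL0perm ⊢
    rw [flat_append] at hL0perm ⊢
    simp only [← Multiset.coe_add] at hs'5 hL0perm ⊢
    rw [hL0perm, hs'5, hprs1]
    abel
  have hL1nd : L1.Nodup := by
    rw [hL1perm.nodup_iff, List.nodup_append]
    refine ⟨Finset.nodup_toList _, hL0nd, ?_⟩
    intro x hx y hy hxy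
    subst hxy
    rw [Finset.mem_toList, hU, Finset.mem_sdiff] at hx
    exact hx.2 (List.mem_toFinset.mpr hy)
  have hL1all : ∀ v, v ∈ L1 := by
    intro v
    rw [hL1perm.mem_iff, List.mem_append]
    by_cases hv : v ∈ L0
    · right; exact hv
    · left
      rw [Finset.mem_toList, hU, Finset.mem_sdiff]
      exact ⟨Finset.mem_univ _, fun h => hv (List.mem_toFinset.mp h)⟩
  have hcnt : ∀ c, (2 * s - 1) * nc c L ≤ cnt (C c) u L1 := by
    intro c
    refine (ht6 c).trans ?_
    refine le_trans ?_ (cnt_join_ge E (C c) (Ss' ++ tsegs) u TS hCon1 hok1)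
    rw [List.map_append, List.sum_append]
    exact Nat.le_add_left _ _
  -- choose the colour
  have hfin : ∀ c, (1 - η) * (W.card : ℝ) + β * W.card ≤ 8 * s * (nc c L : ℝ) →
      (1 / 4 + β / 16) * n ≤ (cnt (C c) u L1 : ℝ) := by
    intro c hc
    have h1 := final_ineq β s ρ η n W.card (nc c L) hβpos hβ1 hs3 hρ2 hρpos
      (hη1.trans hρ2) hnpos.le hWlow hc
    refine h1.trans ?_
    have h2 := hcnt c
    have h3 : (((2 * s - 1) * nc c L : ℕ) : ℝ) ≤ (cnt (C c) u L1 : ℝ) := by exact_mod_cast h2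
    have h4 : ((2 * s - 1 : ℕ) : ℝ) = 2 * s - 1 := by
      rw [Nat.cast_sub (by omega)]; push_cast; ring
    rw [Nat.cast_mul, h4] at h3
    exact h3
  have hadd : (nc true L : ℝ) + nc false L = L.length := by exact_mod_cast nc_add L
  have himb := imb_eq L
  have hW0 : (0 : ℝ) ≤ W.card := by positivity
  have hβW : β * (W.card : ℝ) ≤ β0 * W.card := mul_le_mul_of_nonneg_right hβ2 hW0
  rcases le_or_gt 0 (imb L) with h | h
  · refine ⟨u, L1, true, hL1path, hL1nd, hL1all, hfin true ?_⟩
    rw [abs_of_nonneg (by positivity)] at hLimb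
    rw [himb] at hLimb
    have e : 8 * (s : ℝ) * nc true L = 4 * s * L.length + 4 * s * ((nc true L : ℝ) - nc false L) := by
      rw [← hadd]; ring
    rw [e]
    exact add_le_add hLc (hβW.trans hLimb)
  · refine ⟨u, L1, false, hL1path, hL1nd, hL1all, hfin false ?_⟩
    have h1 : 4 * (s : ℝ) * imb L < 0 := mul_neg_of_pos_of_neg (by positivity) h
    rw [abs_of_neg h1] at hLimb
    rw [himb] at hLimb
    have e : 8 * (s : ℝ) * nc false L = 4 * s * L.length +
        -(4 * s * ((nc true L : ℝ) - nc false L)) := by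
      rw [← hadd]; ring
    rw [e]
    exact add_le_add hLc (hβW.trans hLimb)

end Pool.Agent.LooseHC
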