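import Pool.Agent.Helper26.LooseHC.Blocks

set_option autoImplicit false

/-!
The mixing step.
-/

namespace Pool.Agent.LooseHC

open Finset

lemma sum_flatMap_replicate {β : Type*} (l : List β) (k : β → ℕ) (f : β → ℝ) :
    ((l.flatMap (fun j => List.replicate (k j) j)).map f).sum =
      (l.map (fun j => (k j : ℝ) * f j)).sum := by
  induction l with
  | nil => simp
  | cons a l ih =>
    rw [List.flatMap_cons, List.map_append, List.sum_append, ih, List.map_cons, List.sum_cons,
      List.map_replicate, List.sum_replicate, nsmul_eq_mul]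

lemma length_tiling_le {V : Type} [DecidableEq V] (C : Bool → V → V → V → Prop) (s : ℕ)
    (L : List (Tile V)) :
    (∀ T ∈ L, T.Valid C s) → L.Pairwise (fun T T' => Disjoint T.verts T'.verts) →
      (used L).card = 4 * s * L.length := by
  induction L with
  | nil => intro _ _; simp [used]
  | cons T L ih =>
    intro h1 h2
    rw [List.pairwise_cons] at h2
    have h3 := ih (fun T' hT' => h1 T' (List.mem_cons_of_mem _ hT')) h2.2
    have h4 : Disjoint T.verts (used L) := by
      rw [Finset.disjoint_left]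
      intro x hx hx'
      rw [mem_used] at hx'
      obtain ⟨T', hT', hx'⟩ := hx'
      exact (Finset.disjoint_left.mp (h2.1 T' hT')) hx hx'
    have h5 : used (T :: L) = T.verts ∪ used L := rfl
    rw [h5, Finset.card_union_of_disjoint h4, h3, (h1 T List.mem_cons_self).card_verts,
      List.length_cons]
    ring

/-- Error term. -/
noncomputable def err (s S n : ℝ) : ℝ := 5 * s * n / S + 8 * s + S

theorem mix (α : ℝ) (hα : 0 < α) (hα1 : α ≤ 1) (s : ℕ) (hs : 0 < s) :
    ∃ S₁ : ℕ, ∀ S : ℕ, S₁ ≤ S → ∃ n₁ : ℕ, ∀ {V : Type} [DecidableEq V]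
      (C : Bool → V → V → V → Prop),
      (∀ c a b d, C c a b d → C c b a d) → (∀ c a b d, C c a b d → C c a d b) →
      ∀ W : Finset V, n₁ ≤ W.card →
      (∀ v ∈ W, (7 / 16 + α) * (W.card : ℝ) ^ 2 ≤ dcount C W v) →
      ∀ L : List (Tile V), Tiling C S W L →
      ∃ (L' : List (Tile V)) (Bv : ℝ), Tiling C s W L' ∧
        (1 - α / 48) * (4 * S * L.length) + α / 48 * W.card - err s S W.card ≤
          4 * s * L'.length ∧
        |4 * s * imb L' - (1 - α / 48) * (4 * S * imb L) - Bv| ≤ err s S W.card ∧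
        α / 48 * (α / 160000) * W.card ≤ |Bv| := by
  classical
  set γ : ℝ := α / 8 with hγdef
  have hγ : 0 < γ := by positivity
  have hγ1 : γ ≤ 1 := by rw [hγdef]; linarith
  set ε : ℝ := α / 48 with hεdef
  have hε : 0 < ε := by positivity
  have hε1 : ε ≤ 1 / 48 := by rw [hεdef]; linarith
  have hεγ : ε = γ / 6 := by rw [hεdef, hγdef]; ring
  obtain ⟨S₁, hS₁⟩ := extract γ hγ hγ1 s
  refine ⟨S₁ + 1, ?_⟩
  intro S hS
  have hSpos : 0 < S := by omega
  have hSr : (0 : ℝ) < S := by exact_mod_cast hSpos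
  have hsr : (0 : ℝ) < s := by exact_mod_cast hs
  obtain ⟨M, hM⟩ := exists_nat_gt (40 / α)
  refine ⟨S * (M + 3), ?_⟩
  intro V _ C hsym1 hsym2 W hW hdeg L hL
  obtain ⟨𝓑, hB1, hB2, hB3, hB4⟩ := block_family C S hSpos W L hL
  -- index type
  let ι := {X // X ∈ 𝓑}
  let blk : ι → Finset V := Subtype.val
  have hcardι : Fintype.card ι = 𝓑.card := by simp [ι]
  set N : ℝ := (Fintype.card ι : ℝ) with hN
  have hcard : ∀ i : ι, (blk i).card = S := fun i => (hB1 i.1 i.2).2
  have hdisj : ∀ i j : ι, i ≠ j → Disjoint (blk i) (blk j) := by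
    intro i j hij
    exact hB2 i.1 i.2 j.1 j.2 (fun h => hij (Subtype.ext h))
  have hsub : ∀ i : ι, blk i ⊆ W := fun i => (hB1 i.1 i.2).1
  have hWlt : W.card < (Fintype.card ι + 1) * S := by rw [hcardι]; exact hB4
  have hNM : M + 2 ≤ Fintype.card ι := by
    by_contra hcon
    push Not at hcon
    have h1 : (Fintype.card ι + 1) * S ≤ (M + 3) * S := Nat.mul_le_mul_right _ (by omega)
    have h2 : S * (M + 3) = (M + 3) * S := by ring
    omega
  have hNr : 40 / α ≤ N := by
    have : ((M + 2 : ℕ) : ℝ) ≤ N := by rw [hN]; exact_mod_cast hNM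
    push_cast at this
    linarith
  have hN1 : 2 ≤ N := by
    have : ((M + 2 : ℕ) : ℝ) ≤ N := by rw [hN]; exact_mod_cast hNM
    push_cast at this
    have : (0 : ℝ) ≤ M := by positivity
    linarith
  have : Nonempty ι := by
    rw [← Fintype.card_pos_iff]; omega
  have hNS : N * S ≤ W.card := by
    have hcov : (univ.biUnion blk).card = Fintype.card ι * S := by
      rw [Finset.card_biUnion (fun i _ j _ hij => hdisj i j hij),
        Finset.sum_congr rfl (fun i _ => hcard i), Finset.sum_const, Finset.card_univ,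
        smul_eq_mul]
    have h1 : univ.biUnion blk ⊆ W := by
      rw [Finset.biUnion_subset]; intro i _; exact hsub i
    have h2 := Finset.card_le_card h1
    rw [hcov] at h2
    rw [hN]; exact_mod_cast h2
  have hNS2 : (W.card : ℝ) ≤ N * S + S := by
    have h1 : (W.card : ℝ) ≤ (((Fintype.card ι + 1) * S : ℕ) : ℝ) := by exact_mod_cast hWlt.le
    push_cast at h1
    rw [hN]; linarith
  -- reduced structure
  set T : ι → ι → ι → Prop := RT C blk (γ * (S : ℝ) ^ 3) with hT
  have hTdeg : ∀ p, (7 / 16 + α / 2) * (Fintype.card ι : ℝ) ^ 2 ≤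
      ((univ.filter (fun x : ι × ι => T p x.1 x.2)).card : ℝ) := by
    intro p
    refine le_trans ?_ (block_degree C α γ hα hγ blk W S hSpos hcard hdisj hsub hWlt hdeg p)
    rw [← hN]
    have h1 : 40 ≤ N * α := by rwa [div_le_iff₀ hα] at hNr
    have h2 : 5 * (N + 1) ≤ α / 4 * N ^ 2 := by nlinarith
    rw [hγdef]; nlinarith
  set col : ι × ι × ι → Bool := fun j =>
    decide (γ * (S : ℝ) ^ 3 ≤ ecount (C true) (blk j.1) (blk j.2.1) (blk j.2.2)) with hcol
  obtain ⟨J, w, hJT, hw0, hJcard, hJuse, hJsum, hJbias⟩ :=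
    lp_bias T (α / 2) (by positivity) (by linarith)
      (RT_symm1 C hsym1 blk _) (RT_symm2 C hsym2 blk _) hTdeg
      (fun p q r => sgn (col (p, q, r))) (fun p q r => sgn_cases _)
      (by
        intro p q r
        simp only [hcol]
        rw [ecount_symm1 (C true) (hsym1 true)])
      (by
        intro p q r
        simp only [hcol]
        rw [ecount_symm2 (C true) (hsym2 true)])
  set k : ι × ι × ι → ℕ := fun j => ⌊ε * w j * S / (2 * s)⌋₊ with hk
  have hk1 : ∀ j ∈ J, (k j : ℝ) ≤ ε * w j * S / (2 * s) := by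
    intro j hj
    apply Nat.floor_le
    have := hw0 j hj
    positivity
  have hk2 : ∀ j, ε * w j * S / (2 * s) - 1 ≤ (k j : ℝ) := by
    intro j
    have := Nat.lt_floor_add_one (ε * w j * S / (2 * s))
    simp only [hk]
    linarith
  set reqs : List (ι × ι × ι) := J.toList.flatMap (fun j => List.replicate (k j) j) with hreqs
  have hsumreqs : ∀ f : ι × ι × ι → ℝ, (reqs.map f).sum = ∑ j ∈ J, (k j : ℝ) * f j := by
    intro f
    rw [hreqs, sum_flatMap_replicate, Finset.sum_map_toList]
  have hlenreqs : (reqs.length : ℝ) = ∑ j ∈ J, (k j : ℝ) := by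
    have := hsumreqs (fun _ => 1)
    simp only [mul_one] at this
    rw [← this]
    simp
  have hmemreqs : ∀ j ∈ reqs, j ∈ J := by
    intro j hj
    rw [hreqs, List.mem_flatMap] at hj
    obtain ⟨a, ha, hj⟩ := hj
    rw [List.mem_replicate] at hj
    rw [hj.2]
    exact Finset.mem_toList.mp ha
  have huse : ∀ v, (reqs.map (fun j => 2 * (s : ℝ) * use j v)).sum ≤ γ / 6 * S := by
    intro v
    rw [hsumreqs, ← hεγ]
    calc ∑ j ∈ J, (k j : ℝ) * (2 * (s : ℝ) * use j v)
        ≤ ∑ j ∈ J, (ε * S) * (w j * use j v) := by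
          apply Finset.sum_le_sum
          intro j hj
          have h1 := hk1 j hj
          have h2 := use_nonneg j v
          calc (k j : ℝ) * (2 * (s : ℝ) * use j v)
              ≤ (ε * w j * S / (2 * s)) * (2 * (s : ℝ) * use j v) :=
                mul_le_mul_of_nonneg_right h1 (by positivity)
            _ = (ε * S) * (w j * use j v) := by field_simp
      _ = ε * S := by rw [← Finset.mul_sum, hJuse v, mul_one]
  obtain ⟨Lx, hLx1, hLx2, hLx3, hLx4, hLx5⟩ :=
    hS₁ C hsym1 hsym2 S (by omega) blk hcard hdisj col reqs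
      (by
        intro j hj
        have h1 := hJT j (hmemreqs j hj)
        rw [hT] at h1
        obtain ⟨a1, a2, a3, c, a4⟩ := h1
        refine ⟨a1, a2, a3, ?_⟩
        by_cases hc : γ * (S : ℝ) ^ 3 ≤ ecount (C true) (blk j.1) (blk j.2.1) (blk j.2.2)
        · have : col j = true := by simp only [hcol]; exact decide_eq_true hc
          rw [this]; exact hc
        · have : col j = false := by simp only [hcol]; exact decide_eq_false hc
          rw [this]
          cases c
          · exact a4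
          · exact absurd a4 hc) huse
  set U := used Lx with hU
  have hUb : ∀ i : ι, ((U ∩ blk i).card : ℝ) ≤ ε * S := by
    intro i
    rw [hεγ]
    exact (hLx5 i).trans (huse i)
  -- chopping the old tiles
  set h : ℕ := ⌊(1 - ε) * S / s⌋₊ with hh
  have hh1 : (h : ℝ) * s ≤ (1 - ε) * S := by
    have h1 : (h : ℝ) ≤ (1 - ε) * S / s := Nat.floor_le (by
      apply div_nonneg _ hsr.le
      apply mul_nonneg _ hSr.le
      linarith)
    rwa [le_div_iff₀ hsr] at h1
  have hh2 : (1 - ε) * S / s - 1 ≤ (h : ℝ) := by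
    have := Nat.lt_floor_add_one ((1 - ε) * S / s)
    rw [← hh] at this
    linarith
  have hpart : ∀ X ∈ 𝓑, h * s ≤ (X \ U).card := by
    intro X hX
    have h1 := hUb ⟨X, hX⟩
    have h2 := hcard ⟨X, hX⟩
    simp only [blk] at h1 h2
    have h3 : (X \ U).card + (X ∩ U).card = X.card := Finset.card_sdiff_add_card_inter X U
    rw [Finset.inter_comm, h2] at h3
    have h4 : ((X \ U).card : ℝ) + (U ∩ X).card = S := by exact_mod_cast h3
    have h5 : ((h * s : ℕ) : ℝ) ≤ ((X \ U).card : ℝ) := by
      push_cast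
      linarith
    exact_mod_cast h5
  obtain ⟨Lo, hLo1, hLo2, hLo3, hLo4⟩ := chop_all C S s h U L (fun T hT => (hL.1 T hT).1) hL.2
    (fun T hT => by
      obtain ⟨b1, b2, b3, b4⟩ := hB3 T hT
      exact ⟨hpart _ b1, hpart _ b2, hpart _ b3, hpart _ b4⟩)
  -- bound on number of tiles
  have hm : 4 * (S : ℝ) * L.length ≤ W.card := by
    have h1 := length_tiling_le C S L (fun T hT => (hL.1 T hT).1) hL.2
    have h2 : used L ⊆ W := by
      intro x hx
      rw [mem_used] at hx
      obtain ⟨T, hT, hx⟩ := hx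
      exact (hL.1 T hT).2 hx
    have h3 := Finset.card_le_card h2
    rw [h1] at h3
    exact_mod_cast h3
  set m : ℝ := (L.length : ℝ) with hmdef
  have hm0 : 0 ≤ m := by positivity
  have hm' : 4 * (s : ℝ) * m ≤ s * W.card / S := by
    rw [le_div_iff₀ hSr]
    have := mul_le_mul_of_nonneg_left hm hsr.le
    linarith
  have hN' : 4 * (s : ℝ) * N ≤ 4 * s * W.card / S := by
    rw [le_div_iff₀ hSr]
    have := mul_le_mul_of_nonneg_left hNS (show (0 : ℝ) ≤ 4 * s by positivity)
    linarith
  have hJr : (J.card : ℝ) ≤ N + 2 := by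
    have h1 : J.card ≤ Fintype.card ι + 2 := hJcard
    rw [hN]; exact_mod_cast h1
  refine ⟨Lx ++ Lo, 2 * ε * S * ∑ j ∈ J, w j * sgn (col j), ⟨?_, ?_⟩, ?_, ?_, ?_⟩
  · intro T hT
    rw [List.mem_append] at hT
    rcases hT with hT | hT
    · refine ⟨(hLx3 T hT).1, ?_⟩
      intro x hx
      obtain ⟨i, hi⟩ := (hLx3 T hT).2 x hx
      exact hsub i hi
    · obtain ⟨a, T', b, d⟩ := hLo2 T hT
      refine ⟨a, ?_⟩
      exact (d.trans Finset.sdiff_subset).trans (hL.1 T' b).2
  · rw [List.pairwise_append]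
    refine ⟨hLx4, hLo3, ?_⟩
    intro a ha b hb
    obtain ⟨_, T', _, d⟩ := hLo2 b hb
    refine Finset.disjoint_of_subset_left (verts_subset_used ha) ?_
    exact Finset.disjoint_of_subset_right d Finset.disjoint_sdiff
  · rw [List.length_append, hLx1, hLo1]
    push_cast
    rw [hlenreqs, ← hmdef]
    have h1 : ε * S / (2 * s) * (N / 2) - (N + 2) ≤ ∑ j ∈ J, (k j : ℝ) := by
      calc ε * S / (2 * s) * (N / 2) - (N + 2) ≤ ∑ j ∈ J, (ε * w j * S / (2 * s) - 1) := by
            rw [Finset.sum_sub_distrib, Finset.sum_const, nsmul_eq_mul, mul_one]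
            have : ∑ j ∈ J, ε * w j * S / (2 * s) = ε * S / (2 * s) * (N / 2) := by
              rw [← hJsum, Finset.mul_sum]
              apply Finset.sum_congr rfl
              intro j _; ring
            rw [this]; linarith
        _ ≤ ∑ j ∈ J, (k j : ℝ) := Finset.sum_le_sum (fun j _ => hk2 j)
    have h2 : 4 * (s : ℝ) * (ε * S / (2 * s) * (N / 2)) = ε * (N * S) := by
      field_simp; ring
    have h3 : 4 * (s : ℝ) * (((1 - ε) * S / s - 1) * m) = (1 - ε) * (4 * S * m) - 4 * s * m := by
      field_simp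
    have h4 : 4 * (s : ℝ) * (((1 - ε) * S / s - 1) * m) ≤ 4 * s * (h * m) := by
      apply mul_le_mul_of_nonneg_left _ (by positivity)
      exact mul_le_mul_of_nonneg_right hh2 hm0
    have h5 : 4 * (s : ℝ) * (ε * S / (2 * s) * (N / 2) - (N + 2)) ≤
        4 * s * ∑ j ∈ J, (k j : ℝ) := mul_le_mul_of_nonneg_left h1 (by positivity)
    have h6 : ε * W.card ≤ ε * (N * S) + S := by
      have h7 : ε * W.card ≤ ε * (N * S + S) := mul_le_mul_of_nonneg_left hNS2 hε.le
      have h8 : ε * S ≤ 1 * S := mul_le_mul_of_nonneg_right (by linarith) hSr.le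
      linarith
    unfold err
    have h9 : 5 * (s : ℝ) * W.card / S = 4 * s * W.card / S + s * W.card / S := by ring
    rw [h9]
    have h10 : 4 * (s : ℝ) * (∑ j ∈ J, (k j : ℝ) + h * m) =
        4 * s * ∑ j ∈ J, (k j : ℝ) + 4 * s * (h * m) := by ring
    have h11 : 4 * (s : ℝ) * (ε * S / (2 * s) * (N / 2) - (N + 2)) =
        ε * (N * S) - (4 * s * N + 8 * s) := by rw [mul_sub, h2]; ring
    rw [h3] at h4
    rw [h11] at h5
    rw [h10]
    linarith
  · have e1 : imb (Lx ++ Lo) = imb Lx + imb Lo := by simp [imb]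
    rw [e1, hLx2, hLo4, hsumreqs]
    have h1 : |4 * (s : ℝ) * ∑ j ∈ J, (k j : ℝ) * sgn (col j) -
        2 * ε * S * ∑ j ∈ J, w j * sgn (col j)| ≤ 4 * s * (N + 2) := by
      have h2 : 4 * (s : ℝ) * ∑ j ∈ J, (k j : ℝ) * sgn (col j) -
        2 * ε * S * ∑ j ∈ J, w j * sgn (col j) =
          ∑ j ∈ J, (4 * s * k j - 2 * ε * S * w j) * sgn (col j) := by
        rw [Finset.mul_sum, Finset.mul_sum, ← Finset.sum_sub_distrib]
        apply Finset.sum_congr rfl
        intro j _; ring
      rw [h2]
      calc |∑ j ∈ J, (4 * s * k j - 2 * ε * S * w j) * sgn (col j)|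
          ≤ ∑ j ∈ J, |(4 * s * k j - 2 * ε * S * w j) * sgn (col j)| :=
            Finset.abs_sum_le_sum_abs _ _
        _ ≤ ∑ j ∈ J, 4 * (s : ℝ) := by
            apply Finset.sum_le_sum
            intro j hj
            have h3 := hk1 j hj
            have h4 := hk2 j
            have h5 : 4 * (s : ℝ) * (ε * w j * S / (2 * s)) = 2 * ε * S * w j := by
              field_simp; ring
            have h6 : 4 * (s : ℝ) * k j ≤ 2 * ε * S * w j := by
              rw [← h5]; exact mul_le_mul_of_nonneg_left h3 (by positivity)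
            have h7 : 2 * ε * S * w j - 4 * s ≤ 4 * (s : ℝ) * k j := by
              rw [← h5]
              have := mul_le_mul_of_nonneg_left h4 (show (0 : ℝ) ≤ 4 * s by positivity)
              linarith
            have h8 : |sgn (col j)| = 1 := by
              rcases sgn_cases (col j) with h | h <;> rw [h] <;> norm_num
            rw [abs_mul, h8, mul_one, abs_le]
            constructor <;> linarith
        _ = J.card * (4 * (s : ℝ)) := by rw [Finset.sum_const, nsmul_eq_mul]
        _ ≤ 4 * s * (N + 2) := by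
          have := mul_le_mul_of_nonneg_right hJr (show (0 : ℝ) ≤ 4 * s by positivity)
          linarith
    have h2 : |4 * (s : ℝ) * (h * imb L) - (1 - ε) * (4 * S * imb L)| ≤ 4 * s * m := by
      have h3 : 4 * (s : ℝ) * (h * imb L) - (1 - ε) * (4 * S * imb L) =
          4 * (h * s - (1 - ε) * S) * imb L := by ring
      rw [h3, abs_mul]
      have h4 : |4 * (h * s - (1 - ε) * S)| ≤ 4 * (s : ℝ) := by
        rw [abs_le]
        have h5 : ((1 - ε) * S / s - 1) * s ≤ (h : ℝ) * s := mul_le_mul_of_nonneg_right hh2 hsr.le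
        have h6 : ((1 - ε) * S / s - 1) * s = (1 - ε) * S - s := by field_simp
        rw [h6] at h5
        constructor <;> linarith
      exact mul_le_mul h4 (abs_imb_le L) (abs_nonneg _) (by positivity)
    have h3 : 4 * (s : ℝ) * (∑ j ∈ J, (k j : ℝ) * sgn (col j) + h * imb L) -
        (1 - ε) * (4 * S * imb L) - 2 * ε * S * ∑ j ∈ J, w j * sgn (col j) =
        (4 * (s : ℝ) * ∑ j ∈ J, (k j : ℝ) * sgn (col j) -
        2 * ε * S * ∑ j ∈ J, w j * sgn (col j)) +
        (4 * (s : ℝ) * (h * imb L) - (1 - ε) * (4 * S * imb L)) := by ring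
    rw [h3]
    refine (abs_add_le _ _).trans ?_
    unfold err
    have h9 : 5 * (s : ℝ) * W.card / S = 4 * s * W.card / S + s * W.card / S := by ring
    rw [h9]
    linarith
  · rw [abs_mul, abs_of_pos (by positivity : 0 < 2 * ε * (S : ℝ))]
    have h1 : α / 2 / 80000 * N ≤ |∑ j ∈ J, w j * sgn (col j)| := by
      rw [le_abs]
      rcases hJbias with h | h
      · left; exact h
      · right
        have : ∑ j ∈ J, w j * sgn (col j) ≤ -(α / 2 / 80000 * N) := h
        linarith
    have h2 : (W.card : ℝ) ≤ 2 * (N * S) := by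
      have := mul_le_mul_of_nonneg_right hN1 hSr.le
      linarith
    calc ε * (α / 160000) * W.card ≤ ε * (α / 160000) * (2 * (N * S)) :=
          mul_le_mul_of_nonneg_left h2 (by positivity)
      _ = 2 * ε * S * (α / 2 / 80000 * N) := by ring
      _ ≤ 2 * ε * S * |∑ j ∈ J, w j * sgn (col j)| :=
          mul_le_mul_of_nonneg_left h1 (by positivity)

end Pool.Agent.LooseHC
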