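import Pool.Agent.Helper26.LooseHC.Mix

set_option autoImplicit false

/-!
Almost perfect monochromatic tilings with a colour imbalance.
-/

namespace Pool.Agent.LooseHC

open Finset

/-- Existence of `s`-tilings covering a `1 - (1 - α/48)^j - η` proportion. -/
lemma cover (α : ℝ) (hα : 0 < α) (hα1 : α ≤ 1) (j : ℕ) :
    ∀ s : ℕ, 0 < s → ∀ η : ℝ, 0 < η → ∃ n₀ : ℕ, ∀ {V : Type} [DecidableEq V]
      (C : Bool → V → V → V → Prop),
      (∀ c a b d, C c a b d → C c b a d) → (∀ c a b d, C c a b d → C c a d b) →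
      ∀ W : Finset V, n₀ ≤ W.card →
      (∀ v ∈ W, (7 / 16 + α) * (W.card : ℝ) ^ 2 ≤ dcount C W v) →
      ∃ L : List (Tile V), Tiling C s W L ∧
        (1 - (1 - α / 48) ^ j - η) * (W.card : ℝ) ≤ 4 * s * L.length := by
  induction j with
  | zero =>
    intro s hs η hη
    refine ⟨0, ?_⟩
    intro V _ C _ _ W _ _
    refine ⟨[], ⟨by simp, List.Pairwise.nil⟩, ?_⟩
    have : (0 : ℝ) ≤ W.card := by positivity
    simp only [pow_zero, List.length_nil, Nat.cast_zero, mul_zero]
    have := mul_nonneg hη.le this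
    linarith
  | succ j ih =>
    intro s hs η hη
    obtain ⟨S₁, hS₁⟩ := mix α hα hα1 s hs
    obtain ⟨S₂, hS₂⟩ := exists_nat_gt (20 * (s : ℝ) / η)
    set S := max S₁ (S₂ + 1) with hS
    have hSpos : 0 < S := by rw [hS]; omega
    have hSr : (0 : ℝ) < S := by exact_mod_cast hSpos
    obtain ⟨n₁, hn₁⟩ := hS₁ S (le_max_left _ _)
    obtain ⟨n₂, hn₂⟩ := ih S hSpos (η / 2) (by positivity)
    obtain ⟨n₃, hn₃⟩ := exists_nat_gt ((8 * s + S) / (η / 4) : ℝ)
    refine ⟨max n₁ (max n₂ n₃), ?_⟩
    intro V _ C hsym1 hsym2 W hW hdeg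
    obtain ⟨L, hL, hLc⟩ := hn₂ C hsym1 hsym2 W
      ((le_max_left _ _).trans ((le_max_right _ _).trans hW)) hdeg
    obtain ⟨L', Bv, hL', hc, _, _⟩ := hn₁ C hsym1 hsym2 W ((le_max_left _ _).trans hW) hdeg L hL
    refine ⟨L', hL', ?_⟩
    refine le_trans ?_ hc
    have h1 : 5 * (s : ℝ) * W.card / S ≤ η / 4 * W.card := by
      have h2 : 20 * (s : ℝ) / η < S := by
        have : ((S₂ + 1 : ℕ) : ℝ) ≤ S := by exact_mod_cast le_max_right _ _
        push_cast at this
        linarith
      rw [div_lt_iff₀ hη] at h2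
      rw [div_le_iff₀ hSr]
      have h3 := mul_le_mul_of_nonneg_right h2.le (show (0 : ℝ) ≤ W.card by positivity)
      linarith
    have h3 : 8 * (s : ℝ) + S ≤ η / 4 * W.card := by
      have h4 : (n₃ : ℝ) ≤ W.card := by
        exact_mod_cast (le_max_right _ _).trans ((le_max_right _ _).trans hW)
      rw [div_lt_iff₀ (by positivity)] at hn₃
      have := mul_le_mul_of_nonneg_right h4 (show (0 : ℝ) ≤ η / 4 by positivity)
      linarith
    have h5 : err s S W.card ≤ η / 2 * W.card := by unfold err; linarith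
    have h6 : (1 - α / 48) * ((1 - (1 - α / 48) ^ j - η / 2) * (W.card : ℝ)) ≤
        (1 - α / 48) * (4 * S * L.length) := mul_le_mul_of_nonneg_left hLc (by linarith)
    have h7 : (0 : ℝ) ≤ W.card := by positivity
    have h8 : 0 ≤ α / 48 * (η / 2) * (W.card : ℝ) := by positivity
    rw [pow_succ]
    linarith

/-- Main tiling theorem. -/
theorem tiling_main (α : ℝ) (hα : 0 < α) (hα1 : α ≤ 1) :
    ∃ β : ℝ, 0 < β ∧ ∀ s : ℕ, 0 < s → ∀ η : ℝ, 0 < η → ∃ n₀ : ℕ, ∀ {V : Type} [DecidableEq V]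
      (C : Bool → V → V → V → Prop),
      (∀ c a b d, C c a b d → C c b a d) → (∀ c a b d, C c a b d → C c a d b) →
      ∀ W : Finset V, n₀ ≤ W.card →
      (∀ v ∈ W, (7 / 16 + α) * (W.card : ℝ) ^ 2 ≤ dcount C W v) →
      ∃ L : List (Tile V), Tiling C s W L ∧ (1 - η) * (W.card : ℝ) ≤ 4 * s * L.length ∧
        β * W.card ≤ |4 * s * imb L| := by
  set β : ℝ := α / 48 * (α / 160000) / 4 with hβ
  have hβpos : 0 < β := by positivity
  refine ⟨β, hβpos, ?_⟩
  intro s hs η0 hη0
  set η : ℝ := min η0 β with hη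
  have hηpos : 0 < η := lt_min hη0 hβpos
  have hη1 : η ≤ η0 := min_le_left _ _
  have hη2 : η ≤ β := min_le_right _ _
  obtain ⟨S₁, hS₁⟩ := mix α hα hα1 s hs
  obtain ⟨S₂, hS₂⟩ := exists_nat_gt (20 * (s : ℝ) / η)
  set S := max S₁ (S₂ + 2 * s + 1) with hS
  have hSpos : 0 < S := by rw [hS]; omega
  have hSr : (0 : ℝ) < S := by exact_mod_cast hSpos
  have hsr : (0 : ℝ) < s := by exact_mod_cast hs
  obtain ⟨n₁, hn₁⟩ := hS₁ S (le_max_left _ _)
  -- choose j
  obtain ⟨j, hj⟩ := exists_pow_lt_of_lt_one (show 0 < η / 4 by positivity)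
    (show 1 - α / 48 < 1 by linarith)
  obtain ⟨n₂, hn₂⟩ := cover α hα hα1 j S hSpos (η / 4) (by positivity)
  obtain ⟨n₃, hn₃⟩ := exists_nat_gt ((8 * s + S) / (η / 4) : ℝ)
  refine ⟨max n₁ (max n₂ n₃), ?_⟩
  intro V _ C hsym1 hsym2 W hW hdeg
  obtain ⟨L, hL, hLc⟩ := hn₂ C hsym1 hsym2 W
    ((le_max_left _ _).trans ((le_max_right _ _).trans hW)) hdeg
  have hW0 : (0 : ℝ) ≤ W.card := by positivity
  have hS20 : 20 * (s : ℝ) ≤ η * S := by
    have h2 : 20 * (s : ℝ) / η < S := by
      have : ((S₂ + 2 * s + 1 : ℕ) : ℝ) ≤ S := by exact_mod_cast le_max_right _ _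
      push_cast at this
      linarith
    rw [div_lt_iff₀ hηpos] at h2
    linarith
  have h1 : 5 * (s : ℝ) * W.card / S ≤ η / 4 * W.card := by
    rw [div_le_iff₀ hSr]
    have := mul_le_mul_of_nonneg_right hS20 hW0
    linarith
  have h3 : 8 * (s : ℝ) + S ≤ η / 4 * W.card := by
    have h4 : (n₃ : ℝ) ≤ W.card := by
      exact_mod_cast (le_max_right _ _).trans ((le_max_right _ _).trans hW)
    rw [div_lt_iff₀ (by positivity)] at hn₃
    have := mul_le_mul_of_nonneg_right h4 (show (0 : ℝ) ≤ η / 4 by positivity)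
    linarith
  have h5 : err s S W.card ≤ η / 2 * W.card := by unfold err; linarith
  have hLc' : (1 - η / 2) * (W.card : ℝ) ≤ 4 * S * L.length := by
    refine le_trans ?_ hLc
    apply mul_le_mul_of_nonneg_right _ hW0
    linarith
  by_cases hcase : 2 * β * W.card ≤ |4 * S * imb L|
  · -- chop directly
    obtain ⟨L', g1, g2, g3, g4⟩ := chop_all C S s (S / s) ∅ L (fun T hT => (hL.1 T hT).1) hL.2
      (fun T hT => by
        have v := (hL.1 T hT).1
        simp only [Finset.sdiff_empty]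
        rw [v.cA, v.cB, v.cD, v.cD']
        have := Nat.div_mul_le_self S s
        exact ⟨this, this, this, this⟩)
    have hdiv : (S : ℝ) - s ≤ ((S / s : ℕ) : ℝ) * s := by
      have h6 : S < S / s * s + s := Nat.lt_div_mul_add hs
      have h7 : (S : ℝ) ≤ ((S / s * s + s : ℕ) : ℝ) := by exact_mod_cast h6.le
      push_cast at h7
      linarith
    have hSs : (s : ℝ) ≤ S / 2 := by
      have : ((S₂ + 2 * s + 1 : ℕ) : ℝ) ≤ S := by exact_mod_cast le_max_right _ _
      push_cast at this
      have : (0 : ℝ) ≤ S₂ := by positivity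
      linarith
    refine ⟨L', ⟨?_, g3⟩, ?_, ?_⟩
    · intro T hT
      obtain ⟨a, T', b, d⟩ := g2 T hT
      exact ⟨a, (d.trans Finset.sdiff_subset).trans (hL.1 T' b).2⟩
    · rw [g1]
      have hm0 : (0 : ℝ) ≤ L.length := by positivity
      have hmS : 4 * (S : ℝ) * L.length ≤ W.card := by
        have h6 := length_tiling_le C S L (fun T hT => (hL.1 T hT).1) hL.2
        have h7 : used L ⊆ W := by
          intro x hx
          rw [mem_used] at hx
          obtain ⟨T, hT, hx⟩ := hx
          exact (hL.1 T hT).2 hx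
        have h8 := Finset.card_le_card h7
        rw [h6] at h8
        exact_mod_cast h8
      have h6 : 4 * ((S : ℝ) - s) * L.length ≤ 4 * (((S / s : ℕ) : ℝ) * s) * L.length := by
        apply mul_le_mul_of_nonneg_right _ hm0
        linarith
      have h7 : 4 * (s : ℝ) * L.length ≤ η / 2 * W.card := by
        have : 4 * (s : ℝ) * L.length ≤ η / 5 * S * L.length := by
          apply mul_le_mul_of_nonneg_right _ hm0
          linarith
        have h9 := mul_le_mul_of_nonneg_left hmS hηpos.le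
        have h10 := mul_nonneg hηpos.le hW0
        linarith
      push_cast at h6 ⊢
      have h8 : (1 - η0) * (W.card : ℝ) ≤ (1 - η) * W.card :=
        mul_le_mul_of_nonneg_right (by linarith) hW0
      linarith
    · rw [g4]
      have h6 : 4 * (s : ℝ) * (((S / s : ℕ) : ℝ) * imb L) = (((S / s : ℕ) : ℝ) * s / S) *
          (4 * S * imb L) := by field_simp
      rw [h6, abs_mul]
      have h7 : 1 / 2 ≤ |((S / s : ℕ) : ℝ) * s / S| := by
        rw [abs_of_nonneg (by positivity), le_div_iff₀ hSr]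
        linarith
      calc β * W.card = 1 / 2 * (2 * β * W.card) := by ring
        _ ≤ |((S / s : ℕ) : ℝ) * s / S| * |4 * S * imb L| :=
          mul_le_mul h7 hcase (by positivity) (abs_nonneg _)
  · push Not at hcase
    obtain ⟨L', Bv, hL', hc, himb, hB⟩ :=
      hn₁ C hsym1 hsym2 W ((le_max_left _ _).trans hW) hdeg L hL
    refine ⟨L', hL', ?_, ?_⟩
    · refine le_trans ?_ hc
      have h6 : (1 - α / 48) * ((1 - η / 2) * (W.card : ℝ)) ≤
        (1 - α / 48) * (4 * S * L.length) := mul_le_mul_of_nonneg_left hLc' (by linarith)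
      have h8 : (1 - η0) * (W.card : ℝ) ≤ (1 - η) * W.card :=
        mul_le_mul_of_nonneg_right (by linarith) hW0
      have h9 : 0 ≤ α / 48 * (η / 2) * (W.card : ℝ) := by positivity
      linarith
    · have hB' : 4 * β * W.card ≤ |Bv| := by
        have : 4 * β * (W.card : ℝ) = α / 48 * (α / 160000) * W.card := by rw [hβ]; ring
        rw [this]; exact hB
      have h6 : |Bv| ≤ |4 * s * imb L'| + |(1 - α / 48) * (4 * S * imb L)| + err s S W.card := by
        have h7 : Bv = 4 * s * imb L' + -((1 - α / 48) * (4 * S * imb L)) +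
          -(4 * s * imb L' - (1 - α / 48) * (4 * S * imb L) - Bv) := by ring
        calc |Bv| = |4 * s * imb L' + -((1 - α / 48) * (4 * S * imb L)) +
          -(4 * s * imb L' - (1 - α / 48) * (4 * S * imb L) - Bv)| := by rw [← h7]
          _ ≤ |4 * s * imb L' + -((1 - α / 48) * (4 * S * imb L))| +
            |-(4 * s * imb L' - (1 - α / 48) * (4 * S * imb L) - Bv)| := abs_add_le _ _
          _ ≤ |4 * s * imb L'| + |-((1 - α / 48) * (4 * S * imb L))| +
            |-(4 * s * imb L' - (1 - α / 48) * (4 * S * imb L) - Bv)| := by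
              have := abs_add_le (4 * s * imb L') (-((1 - α / 48) * (4 * S * imb L)))
              linarith
          _ ≤ _ := by
              rw [abs_neg, abs_neg]
              linarith
      have h7 : |(1 - α / 48) * (4 * S * imb L)| ≤ 2 * β * W.card := by
        rw [abs_mul, abs_of_nonneg (by linarith : (0 : ℝ) ≤ 1 - α / 48)]
        calc (1 - α / 48) * |4 * S * imb L| ≤ 1 * |4 * S * imb L| :=
              mul_le_mul_of_nonneg_right (by linarith) (abs_nonneg _)
          _ ≤ 2 * β * W.card := by linarith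
      have h8 : η / 2 * W.card ≤ β * W.card := mul_le_mul_of_nonneg_right (by linarith) hW0
      linarith

end Pool.Agent.LooseHC
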