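import Pool.Agent.Helper26.LooseHC.Select
import Pool.Agent.Helper26.LooseHC.TilingMain

set_option autoImplicit false

/-!
Loose paths as lists, joining of segments, greedy selection, absorption.
-/

namespace Pool.Agent.LooseHC

open Finset

section

variable {V : Type}

/-- `LPath E a l b`: the vertex list `a :: l` is a loose path (private and link vertices
alternate, links at even positions) from `a` to `b`. -/
inductive LPath (E : V → V → V → Prop) : V → List V → V → Prop
  | nil (a : V) : LPath E a [] a
  | cons {a x y b : V} {l : List V} (h : E a x y) (hp : LPath E y l b) :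
      LPath E a (x :: y :: l) b

lemma LPath.append {E : V → V → V → Prop} {a b c : V} {l l' : List V}
    (h : LPath E a l b) (h' : LPath E b l' c) : LPath E a (l ++ l') c := by
  induction h with
  | nil a => exact h'
  | cons h _ ih => exact LPath.cons h (ih h')

lemma LPath.even_length {E : V → V → V → Prop} {a b : V} {l : List V}
    (h : LPath E a l b) : Even l.length := by
  induction h with
  | nil a => exact ⟨0, rfl⟩
  | cons h _ ih =>
    obtain ⟨k, hk⟩ := ih
    exact ⟨k + 1, by simp [hk]; ring⟩

lemma LPath.mono {E E' : V → V → V → Prop} (hE : ∀ a b c, E a b c → E' a b c) {a b : V}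
    {l : List V} (h : LPath E a l b) : LPath E' a l b := by
  induction h with
  | nil a => exact LPath.nil a
  | cons h _ ih => exact LPath.cons (hE _ _ _ h) ih

/-- number of edges of the path `a :: l` that satisfy `P` -/
noncomputable def cnt (P : V → V → V → Prop) : V → List V → ℕ
  | a, x :: y :: l => (open Classical in if P a x y then 1 else 0) + cnt P y l
  | _, _ => 0

lemma LPath.cnt_append {E : V → V → V → Prop} (P : V → V → V → Prop) {a b : V} {l : List V}
    (h : LPath E a l b) (l' : List V) : cnt P a (l ++ l') = cnt P a l + cnt P b l' := by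
  induction h with
  | nil a => simp [cnt]
  | cons h _ ih =>
    simp only [List.cons_append, cnt, ih]
    ring

lemma LPath.cnt_self {E : V → V → V → Prop} {a b : V} {l : List V}
    (h : LPath E a l b) : 2 * cnt E a l = l.length := by
  induction h with
  | nil a => simp [cnt]
  | cons h _ ih =>
    simp only [cnt, List.length_cons]
    rw [if_pos h]
    omega

/-- A segment: start, list of the other vertices, end. -/
structure Seg (V : Type) where
  s : V
  l : List V
  e : V

/-- The segment is a loose path. -/
def Seg.Ok (E : V → V → V → Prop) (S : Seg V) : Prop := LPath E S.s S.l S.e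

/-- connection requests -/
def creqs : V → List (Seg V) → List (V × V)
  | _, [] => []
  | u, S :: Ss => (u, S.s) :: creqs S.e Ss

/-- final end -/
def lastE : V → List (Seg V) → V
  | u, [] => u
  | _, S :: Ss => lastE S.e Ss

/-- join segments by connecting triples -/
def join : List (Seg V) → List (Fin 3 → V) → List V
  | S :: Ss, t :: ts => [t 0, t 1, t 2, S.s] ++ (S.l ++ join Ss ts)
  | _, _ => []

lemma creqs_append (u : V) (A B : List (Seg V)) :
    creqs u (A ++ B) = creqs u A ++ creqs (lastE u A) B := by
  induction A generalizing u with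
  | nil => rfl
  | cons S A ih => simp [creqs, lastE, ih]

lemma lastE_append (u : V) (A B : List (Seg V)) :
    lastE u (A ++ B) = lastE (lastE u A) B := by
  induction A generalizing u with
  | nil => rfl
  | cons S A ih => simp [lastE, ih]

lemma length_creqs (u : V) (A : List (Seg V)) : (creqs u A).length = A.length := by
  induction A generalizing u with
  | nil => rfl
  | cons S A ih => simp [creqs, ih]

lemma join_lpath (E : V → V → V → Prop) :
    ∀ (Ss : List (Seg V)) (u : V) (ts : List (Fin 3 → V)),
      List.Forall₂ (fun (π : V × V) t => Con E π.1 π.2 t) (creqs u Ss) ts →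
      (∀ S ∈ Ss, S.Ok E) → LPath E u (join Ss ts) (lastE u Ss) := by
  intro Ss
  induction Ss with
  | nil =>
    intro u ts h _
    simp only [creqs, List.forall₂_nil_left_iff] at h
    subst h
    exact LPath.nil u
  | cons S Ss ih =>
    intro u ts h hok
    simp only [creqs] at h
    rw [List.forall₂_cons_left_iff] at h
    obtain ⟨t, ts', hc, hrest, rfl⟩ := h
    have h1 := ih S.e ts' hrest (fun S' hS' => hok S' (List.mem_cons_of_mem _ hS'))
    have h2 : S.Ok E := hok S List.mem_cons_self
    have h3 : LPath E u [t 0, t 1, t 2, S.s] S.s :=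
      LPath.cons hc.1 (LPath.cons hc.2 (LPath.nil _))
    exact h3.append (LPath.append h2 h1)

lemma cnt_join_ge (E : V → V → V → Prop) (P : V → V → V → Prop) :
    ∀ (Ss : List (Seg V)) (u : V) (ts : List (Fin 3 → V)),
      List.Forall₂ (fun (π : V × V) t => Con E π.1 π.2 t) (creqs u Ss) ts →
      (∀ S ∈ Ss, S.Ok E) → (Ss.map (fun S => cnt P S.s S.l)).sum ≤ cnt P u (join Ss ts) := by
  intro Ss
  induction Ss with
  | nil => intro u ts _ _; simp
  | cons S Ss ih =>
    intro u ts h hok
    simp only [creqs] at h
    rw [List.forall₂_cons_left_iff] at h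
    obtain ⟨t, ts', hc, hrest, rfl⟩ := h
    have h1 := ih S.e ts' hrest (fun S' hS' => hok S' (List.mem_cons_of_mem _ hS'))
    have h2 : S.Ok E := hok S List.mem_cons_self
    have h3 : LPath E u [t 0, t 1, t 2, S.s] S.s :=
      LPath.cons hc.1 (LPath.cons hc.2 (LPath.nil _))
    simp only [join, List.map_cons, List.sum_cons]
    rw [h3.cnt_append, LPath.cnt_append P h2]
    omega

/-- vertices of segments -/
def flat (Ss : List (Seg V)) : List V := Ss.flatMap (fun S => S.s :: S.l)

/-- vertices of triples -/
def flatT (ts : List (Fin 3 → V)) : List V := ts.flatMap (fun t => [t 0, t 1, t 2])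

lemma join_perm : ∀ (Ss : List (Seg V)) (ts : List (Fin 3 → V)), Ss.length = ts.length →
    (join Ss ts).Perm (flat Ss ++ flatT ts) := by
  intro Ss
  induction Ss with
  | nil =>
    intro ts h
    have : ts = [] := List.eq_nil_of_length_eq_zero (by simpa using h.symm)
    subst this
    simp [join, flat, flatT]
  | cons S Ss ih =>
    intro ts h
    cases ts with
    | nil => simp at h
    | cons t ts =>
      have h1 := ih ts (by simpa using h)
      rw [← Multiset.coe_eq_coe] at h1 ⊢
      simp only [join, flat, flatT, List.flatMap_cons] at h1 ⊢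
      simp only [← Multiset.coe_add] at h1 ⊢
      rw [h1]
      have e1 : (([t 0, t 1, t 2, S.s] : List V) : Multiset V) =
        (([t 0, t 1, t 2] : List V) : Multiset V) + (([S.s] : List V) : Multiset V) := rfl
      have e2 : ((S.s :: S.l : List V) : Multiset V) =
        (([S.s] : List V) : Multiset V) + (S.l : Multiset V) := rfl
      rw [e1, e2]
      abel

end

section

variable {V : Type} [DecidableEq V]

/-- Availability of tuples avoiding small sets. -/
def Avail {k : ℕ} (Sc : V → V → (Fin k → V) → Prop) (M : ℕ) : Prop :=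
  ∀ x y (Z : Finset V), Z.card ≤ M → ∃ t, Sc x y t ∧ Function.Injective t ∧ ∀ i, t i ∉ Z

lemma greedy {k : ℕ} (Sc : V → V → (Fin k → V) → Prop) (M : ℕ) (h : Avail Sc M)
    (reqs : List (V × V)) : ∀ Z : Finset V, Z.card + k * reqs.length ≤ M →
      ∃ ts : List (Fin k → V),
        List.Forall₂ (fun (π : V × V) t => Sc π.1 π.2 t) reqs ts ∧
        (∀ t ∈ ts, Function.Injective t ∧ ∀ i, t i ∉ Z) ∧
        ts.Pairwise (fun t t' => ∀ i j, t i ≠ t' j) := by
  induction reqs with
  | nil => intro Z _; exact ⟨[], List.Forall₂.nil, by simp, List.Pairwise.nil⟩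
  | cons π reqs ih =>
    intro Z hZ
    rw [List.length_cons] at hZ
    obtain ⟨t, h1, h2, h3⟩ := h π.1 π.2 Z (by nlinarith)
    have hc : (Z ∪ Finset.univ.image t).card + k * reqs.length ≤ M := by
      have h4 := Finset.card_union_le Z (Finset.univ.image t)
      have h5 : (Finset.univ.image t).card ≤ k := by
        refine Finset.card_image_le.trans ?_
        rw [Finset.card_univ, Fintype.card_fin]
      have : k * (reqs.length + 1) = k * reqs.length + k := by ring
      omega
    obtain ⟨ts, g1, g2, g3⟩ := ih _ hc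
    refine ⟨t :: ts, List.Forall₂.cons h1 g1, ?_, ?_⟩
    · intro t' ht'
      rw [List.mem_cons] at ht'
      rcases ht' with rfl | ht'
      · exact ⟨h2, h3⟩
      · refine ⟨(g2 t' ht').1, fun i hi => (g2 t' ht').2 i ?_⟩
        exact Finset.mem_union_left _ hi
    · rw [List.pairwise_cons]
      refine ⟨?_, g3⟩
      intro t' ht' i j hij
      apply (g2 t' ht').2 j
      rw [← hij]
      exact Finset.mem_union_right _ (Finset.mem_image_of_mem _ (Finset.mem_univ i))

lemma avail_of_family {k : ℕ} (hk : 0 < k) (F : Finset (Fin k → V)) (A : V → V → Finset (Fin k → V))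
    (hinj : ∀ x y, ∀ t ∈ A x y, Function.Injective t)
    (hdisj : ∀ t ∈ F, ∀ t' ∈ F, t ≠ t' → ∀ i j, t i ≠ t' j) (M : ℕ)
    (hM : ∀ x y, M < (F ∩ A x y).card) :
    Avail (fun x y t => t ∈ F ∧ t ∈ A x y) M := by
  intro x y Z hZ
  by_contra hcon
  push Not at hcon
  have h1 : ∀ t ∈ F ∩ A x y, ∃ i, t i ∈ Z := by
    intro t ht
    rw [Finset.mem_inter] at ht
    exact hcon t ht (hinj x y t ht.2)
  have : Nonempty (Fin k) := ⟨⟨0, hk⟩⟩
  choose! g hg using h1
  have h2 : (F ∩ A x y).card ≤ Z.card := by
    apply Finset.card_le_card_of_injOn (fun t => t (g t))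
    · intro t ht
      exact hg t ht
    · intro t ht t' ht' h
      by_contra hne
      have ht1 : t ∈ F := (Finset.mem_inter.mp ht).1
      have ht2 : t' ∈ F := (Finset.mem_inter.mp ht').1
      exact hdisj t ht1 t' ht2 hne _ _ h
  have := hM x y
  omega

/-- base segment of an absorber -/
def baseSeg (t : Fin 7 → V) : Seg V := ⟨t 0, [t 1, t 2, t 3, t 4, t 5, t 6], t 6⟩

/-- augmented segment of an absorber -/
def plusSeg (x y : V) (t : Fin 7 → V) : Seg V :=
  ⟨t 0, [t 2, t 1, x, t 3, y, t 5, t 4, t 6], t 6⟩

omit [DecidableEq V] in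
lemma baseSeg_ok (E : V → V → V → Prop) (x y : V) (t : Fin 7 → V) (h : Abs E x y t) :
    (baseSeg t).Ok E :=
  LPath.cons h.1 (LPath.cons h.2.1 (LPath.cons h.2.2.1 (LPath.nil _)))

omit [DecidableEq V] in
lemma plusSeg_ok (E : V → V → V → Prop) (hsym1 : ∀ a b c, E a b c → E b a c)
    (hsym2 : ∀ a b c, E a b c → E a c b) (x y : V) (t : Fin 7 → V) (h : Abs E x y t) :
    (plusSeg x y t).Ok E := by
  obtain ⟨h1, _, h3, h4, h5⟩ := h
  refine LPath.cons (hsym2 _ _ _ h1) (LPath.cons h4 (LPath.cons h5 (LPath.cons ?_ (LPath.nil _))))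
  exact hsym1 _ _ _ h3

omit [DecidableEq V] in
lemma baseSeg_injective : Function.Injective (baseSeg (V := V)) := by
  intro t t' h
  have h0 : t 0 = t' 0 := congrArg Seg.s h
  have h1 := congrArg Seg.l h
  simp only [baseSeg, List.cons.injEq, and_true] at h1
  obtain ⟨e1, e2, e3, e4, e5, e6⟩ := h1
  funext i
  fin_cases i <;> assumption

omit [DecidableEq V] in
lemma creqs_congr (u : V) (X Y : List (Seg V)) (S S' : Seg V) (hs : S.s = S'.s) (he : S.e = S'.e) :
    creqs u (X ++ S :: Y) = creqs u (X ++ S' :: Y) := by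
  rw [creqs_append, creqs_append]
  simp only [creqs]
  rw [hs, he]

omit [DecidableEq V] in
lemma lastE_congr (u : V) (X Y : List (Seg V)) (S S' : Seg V) (he : S.e = S'.e) :
    lastE u (X ++ S :: Y) = lastE u (X ++ S' :: Y) := by
  rw [lastE_append, lastE_append]
  simp only [lastE]
  rw [he]

omit [DecidableEq V] in
lemma absorb (E : V → V → V → Prop) (hsym1 : ∀ a b c, E a b c → E b a c)
    (hsym2 : ∀ a b c, E a b c → E a c b) :
    ∀ (prs : List (V × V)) (ta : List (Fin 7 → V)) (Ss : List (Seg V)),
      List.Forall₂ (fun (π : V × V) t => Abs E π.1 π.2 t) prs ta → ta.Nodup →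
      (∀ t ∈ ta, baseSeg t ∈ Ss) → (∀ S ∈ Ss, S.Ok E) →
      ∃ Ss' : List (Seg V), (∀ u, creqs u Ss' = creqs u Ss) ∧ (∀ u, lastE u Ss' = lastE u Ss) ∧
        Ss'.length = Ss.length ∧ (∀ S ∈ Ss', S.Ok E) ∧
        (flat Ss').Perm ((prs.flatMap (fun p => [p.1, p.2])) ++ flat Ss) := by
  intro prs
  induction prs with
  | nil =>
    intro ta Ss _ _ _ hok
    exact ⟨Ss, fun _ => rfl, fun _ => rfl, rfl, hok, by simp⟩
  | cons π prs ih =>
    intro ta Ss h hnd hmem hok
    rw [List.forall₂_cons_left_iff] at h
    obtain ⟨t, ta', hA, hrest, rfl⟩ := h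
    rw [List.nodup_cons] at hnd
    obtain ⟨X, Y, hXY⟩ := List.append_of_mem (hmem t List.mem_cons_self)
    have hmem' : ∀ t' ∈ ta', baseSeg t' ∈ X ++ plusSeg π.1 π.2 t :: Y := by
      intro t' ht'
      have h1 := hmem t' (List.mem_cons_of_mem _ ht')
      rw [hXY, List.mem_append, List.mem_cons] at h1
      have hne : baseSeg t' ≠ baseSeg t := by
        intro h2
        have := baseSeg_injective h2
        subst this
        exact hnd.1 ht'
      rw [List.mem_append, List.mem_cons]
      tauto
    have hok' : ∀ S ∈ X ++ plusSeg π.1 π.2 t :: Y, S.Ok E := by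
      intro S hS
      rw [List.mem_append, List.mem_cons] at hS
      rcases hS with hS | rfl | hS
      · exact hok S (by rw [hXY]; simp [hS])
      · exact plusSeg_ok E hsym1 hsym2 _ _ _ hA
      · exact hok S (by rw [hXY]; simp [hS])
    obtain ⟨Ss', c1, c2, c3, c4, c5⟩ := ih ta' _ hrest hnd.2 hmem' hok'
    refine ⟨Ss', ?_, ?_, ?_, c4, ?_⟩
    · intro u
      rw [c1, hXY]
      exact creqs_congr u X Y _ _ rfl rfl
    · intro u
      rw [c2, hXY]
      exact lastE_congr u X Y _ _ rfl
    · rw [c3, hXY]; simp
    · refine c5.trans ?_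
      rw [hXY]
      simp only [flat, List.flatMap_append, List.flatMap_cons]
      rw [← Multiset.coe_eq_coe]
      simp only [← Multiset.coe_add]
      have e1 : (((plusSeg π.1 π.2 t).s :: (plusSeg π.1 π.2 t).l : List V) : Multiset V) =
        (([π.1, π.2] : List V) : Multiset V) +
          (((baseSeg t).s :: (baseSeg t).l : List V) : Multiset V) := by
        rw [Multiset.coe_add, Multiset.coe_eq_coe]
        simp only [plusSeg, baseSeg]
        -- permutation of explicit lists
        rw [← Multiset.coe_eq_coe]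
        simp only [← Multiset.cons_coe, List.cons_append, List.nil_append]
        have sw : ∀ (a b : V) (s : Multiset V), a ::ₘ b ::ₘ s = b ::ₘ a ::ₘ s :=
          fun a b s => Multiset.cons_swap a b s
        rw [sw (t 2) (t 1)]
        rw [sw (t 2) π.1, sw (t 1) π.1, sw (t 0) π.1]
        rw [sw (t 3) π.2, sw (t 2) π.2, sw (t 1) π.2, sw (t 0) π.2]
        rw [sw (t 5) (t 4)]
      rw [e1]
      abel

end

end Pool.Agent.LooseHC
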