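import Pool.Agent.Helper26.LooseHC.TilePath

set_option autoImplicit false

/-!
Auxiliary lemmas for the assembly.
-/

namespace Pool.Agent.LooseHC

open Finset

section

variable {V : Type} [Fintype V] [DecidableEq V]

lemma avail_of_count {k : ℕ} (Sc : V → V → (Fin k → V) → Prop)
    [∀ x y t, Decidable (Sc x y t)] (c : ℝ) (M : ℕ)
    (hcount : ∀ x y, c * (Fintype.card V : ℝ) ^ k ≤
      ((univ.filter (fun t : Fin k → V => Sc x y t)).card : ℝ))
    (hM : ((k : ℝ) ^ 2 + k * M) * (Fintype.card V : ℝ) ^ (k - 1) <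
      c * (Fintype.card V : ℝ) ^ k) : Avail Sc M := by
  classical
  intro x y Z hZ
  by_contra hcon
  push Not at hcon
  have h1 : univ.filter (fun t : Fin k → V => Sc x y t) ⊆
      univ.filter (fun t : Fin k → V => ¬ (Function.Injective t ∧ ∀ i, t i ∉ Z)) := by
    intro t ht
    rw [Finset.mem_filter] at ht ⊢
    refine ⟨Finset.mem_univ _, ?_⟩
    rintro ⟨h2, h3⟩
    obtain ⟨i, hi⟩ := hcon t ht.2 h2
    exact h3 i hi
  have h2 : ((univ.filter (fun t : Fin k → V => Sc x y t)).card : ℝ) ≤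
      ((univ.filter (fun t : Fin k → V => ¬ (Function.Injective t ∧ ∀ i, t i ∉ Z))).card : ℝ) := by
    exact_mod_cast Finset.card_le_card h1
  have h3 := card_bad (k := k) Z
  have h4 : (Z.card : ℝ) ≤ M := by exact_mod_cast hZ
  have h5 : ((k : ℝ) ^ 2 + k * Z.card) * (Fintype.card V : ℝ) ^ (k - 1) ≤
      ((k : ℝ) ^ 2 + k * M) * (Fintype.card V : ℝ) ^ (k - 1) := by
    apply mul_le_mul_of_nonneg_right _ (by positivity)
    have : (k : ℝ) * Z.card ≤ k * M := mul_le_mul_of_nonneg_left h4 (by positivity)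
    linarith
  have h6 := hcount x y
  linarith

lemma filter_good_ge {k : ℕ} (Sc : (Fin k → V) → Prop) [∀ t, Decidable (Sc t)]
    [∀ (Z : Finset V) (t : Fin k → V), Decidable (Sc t ∧ Function.Injective t ∧ ∀ i, t i ∉ Z)]
    (Z : Finset V) :
    ((univ.filter (fun t : Fin k → V => Sc t)).card : ℝ) ≤
      ((univ.filter (fun t : Fin k → V =>
        Sc t ∧ Function.Injective t ∧ ∀ i, t i ∉ Z)).card : ℝ) +
      ((k : ℝ) ^ 2 + k * Z.card) * (Fintype.card V : ℝ) ^ (k - 1) := by
  classical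
  have h1 : univ.filter (fun t : Fin k → V => Sc t) ⊆
      (univ.filter (fun t : Fin k → V => Sc t ∧ Function.Injective t ∧ ∀ i, t i ∉ Z)) ∪
      (univ.filter (fun t : Fin k → V => ¬ (Function.Injective t ∧ ∀ i, t i ∉ Z))) := by
    intro t ht
    rw [Finset.mem_filter] at ht
    rw [Finset.mem_union, Finset.mem_filter, Finset.mem_filter]
    by_cases h : Function.Injective t ∧ ∀ i, t i ∉ Z
    · left; exact ⟨Finset.mem_univ _, ht.2, h⟩
    · right; exact ⟨Finset.mem_univ _, h⟩
  have h2 := (Finset.card_le_card h1).trans (Finset.card_union_le _ _)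
  have h3 : ((univ.filter (fun t : Fin k → V => Sc t)).card : ℝ) ≤
      ((univ.filter (fun t : Fin k → V =>
        Sc t ∧ Function.Injective t ∧ ∀ i, t i ∉ Z)).card : ℝ) +
      ((univ.filter (fun t : Fin k → V =>
        ¬ (Function.Injective t ∧ ∀ i, t i ∉ Z))).card : ℝ) := by exact_mod_cast h2
  have h4 := card_bad (k := k) Z
  linarith

end

section

variable {V : Type} [DecidableEq V]

/-- vertices of a list of tuples -/
def flatK {k : ℕ} (ts : List (Fin k → V)) : List V := ts.flatMap List.ofFn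

omit [DecidableEq V] in
lemma flatK_nodup {k : ℕ} (ts : List (Fin k → V)) (h1 : ∀ t ∈ ts, Function.Injective t)
    (h2 : ts.Pairwise (fun t t' => ∀ i j, t i ≠ t' j)) : (flatK ts).Nodup := by
  unfold flatK
  rw [List.nodup_flatMap]
  refine ⟨fun t ht => List.nodup_ofFn.mpr (h1 t ht), ?_⟩
  refine h2.imp ?_
  intro t t' h
  simp only [Function.onFun]
  intro x hx hx'
  rw [List.mem_ofFn'] at hx hx'
  obtain ⟨i, rfl⟩ := hx
  obtain ⟨j, hj⟩ := hx'
  exact h i j hj.symm

omit [DecidableEq V] in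
lemma mem_flatK {k : ℕ} {ts : List (Fin k → V)} {x : V} :
    x ∈ flatK ts ↔ ∃ t ∈ ts, ∃ i, t i = x := by
  unfold flatK
  simp [List.mem_flatMap, List.mem_ofFn']

omit [DecidableEq V] in
lemma length_flatK {k : ℕ} (ts : List (Fin k → V)) : (flatK ts).length = k * ts.length := by
  induction ts with
  | nil => simp [flatK]
  | cons t ts ih =>
    simp only [flatK, List.flatMap_cons, List.length_append, List.length_ofFn,
      List.length_cons] at ih ⊢
    rw [ih]; ring

omit [DecidableEq V] in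
lemma flatT_eq (ts : List (Fin 3 → V)) : flatT ts = flatK ts := by
  unfold flatT flatK
  congr 1

omit [DecidableEq V] in
lemma flat_base (ts : List (Fin 7 → V)) : flat (ts.map baseSeg) = flatK ts := by
  unfold flat flatK
  rw [List.flatMap_map]
  congr 1

omit [DecidableEq V] in
lemma pair_up : ∀ (n : ℕ) (l : List V), l.length = 2 * n →
    ∃ prs : List (V × V), prs.flatMap (fun p => [p.1, p.2]) = l ∧ prs.length = n := by
  intro n
  induction n with
  | zero =>
    intro l hl
    have : l = [] := List.eq_nil_of_length_eq_zero (by simpa using hl)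
    exact ⟨[], by simp [this], rfl⟩
  | succ n ih =>
    intro l hl
    match l, hl with
    | x :: y :: l', hl =>
      obtain ⟨prs, h1, h2⟩ := ih l' (by simp at hl; omega)
      exact ⟨(x, y) :: prs, by simp [h1], by simp [h2]⟩

lemma card_biUnion_image_le {k : ℕ} (F : Finset (Fin k → V)) :
    (F.biUnion (fun t => Finset.univ.image t)).card ≤ k * F.card := by
  refine Finset.card_biUnion_le.trans ?_
  calc ∑ t ∈ F, (Finset.univ.image t).card ≤ ∑ _t ∈ F, k := by
        apply Finset.sum_le_sum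
        intro t _
        refine Finset.card_image_le.trans ?_
        rw [Finset.card_univ, Fintype.card_fin]
    _ = k * F.card := by rw [Finset.sum_const, smul_eq_mul, mul_comm]

omit [DecidableEq V] in
lemma flat_append (A B : List (Seg V)) : flat (A ++ B) = flat A ++ flat B := by
  simp [flat]

omit [DecidableEq V] in
lemma flatT_append (A B : List (Fin 3 → V)) : flatT (A ++ B) = flatT A ++ flatT B := by
  simp [flatT]

omit [DecidableEq V] in
lemma nodup_of_pairwise_tuples {k : ℕ} (hk : 0 < k) (ts : List (Fin k → V))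
    (h : ts.Pairwise (fun t t' => ∀ i j, t i ≠ t' j)) : ts.Nodup := by
  refine h.imp ?_
  intro t t' h1 h2
  exact h1 ⟨0, hk⟩ ⟨0, hk⟩ (by rw [h2])

lemma final_ineq (β s ρ η n w x : ℝ) (hβ0 : 0 < β) (hβ1 : β ≤ 1) (hs : 4 / β < s)
    (hρ : ρ ≤ β / 8) (hρ0 : 0 < ρ) (hη : η ≤ β / 8) (hn : 0 ≤ n) (hw : (1 - ρ) * n ≤ w)
    (hx : (1 - η) * w + β * w ≤ 8 * s * x) :
    (1 / 4 + β / 16) * n ≤ (2 * s - 1) * x := by
  rw [div_lt_iff₀ hβ0] at hs
  have hs4 : 4 < s := by nlinarith
  have h1 : (1 + 7 * β / 8) * ((1 - β / 8) * n) ≤ 8 * s * x := by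
    have h2 : (1 - β / 8) * n ≤ w := by
      refine le_trans ?_ hw
      exact mul_le_mul_of_nonneg_right (by linarith) hn
    have h3 : 0 ≤ (1 - β / 8) * n := mul_nonneg (by linarith) hn
    have h4 : (1 + 7 * β / 8) * ((1 - β / 8) * n) ≤ (1 + 7 * β / 8) * w :=
      mul_le_mul_of_nonneg_left h2 (by linarith)
    have h5 : (1 + 7 * β / 8) * w ≤ (1 - η + β) * w :=
      mul_le_mul_of_nonneg_right (by linarith) (by linarith)
    nlinarith
  -- (2s-1) x ≥ (1/4)(1 - β/8) 8 s x
  have hx0 : 0 ≤ x := by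
    have h3 : 0 ≤ (1 - β / 8) * n := mul_nonneg (by linarith) hn
    have h6 : 0 ≤ (1 + 7 * β / 8) * ((1 - β / 8) * n) := mul_nonneg (by linarith) h3
    by_contra hcon
    push Not at hcon
    have : 8 * s * x < 0 := by nlinarith
    linarith
  have h2 : (1 / 4) * (1 - β / 8) * (8 * s * x) ≤ (2 * s - 1) * x := by
    have : (1 / 4) * (1 - β / 8) * (8 * s * x) = (2 * s - s * β / 4) * x := by ring
    rw [this]
    apply mul_le_mul_of_nonneg_right _ hx0
    linarith
  have h3 : (1 / 4) * (1 - β / 8) * ((1 + 7 * β / 8) * ((1 - β / 8) * n)) ≤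
      (1 / 4) * (1 - β / 8) * (8 * s * x) :=
    mul_le_mul_of_nonneg_left h1 (by nlinarith)
  refine le_trans ?_ (h3.trans h2)
  have h4 : (1 / 4 + β / 16) ≤ (1 / 4) * (1 - β / 8) * ((1 + 7 * β / 8) * (1 - β / 8)) := by
    nlinarith [mul_pos hβ0 hβ0, mul_pos (mul_pos hβ0 hβ0) hβ0]
  calc (1 / 4 + β / 16) * n ≤ ((1 / 4) * (1 - β / 8) * ((1 + 7 * β / 8) * (1 - β / 8))) * n :=
        mul_le_mul_of_nonneg_right h4 hn
    _ = _ := by ring

end

end Pool.Agent.LooseHC
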