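import Pool.Agent.Helper26.LooseHC.Counts2

set_option autoImplicit false

/-!
The selection lemma: small disjoint families of tuples meeting all dense sets of tuples.
-/

namespace Pool.Agent.LooseHC

open Finset

/-- Exponential moment bound: few `f` hit `A` rarely. -/
lemma few_rare {Tt : Type} [Fintype Tt] [DecidableEq Tt] (m : ℕ) (A : Finset Tt) (c : ℝ)
    (hA : c * (Fintype.card Tt : ℝ) ≤ (A.card : ℝ)) :
    ((univ.filter (fun f : Fin m → Tt =>
      ((univ.filter (fun i => f i ∈ A)).card : ℝ) ≤ c * m / 4)).card : ℝ) ≤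
      (Fintype.card (Fin m → Tt) : ℝ) * Real.exp (-(c * m / 4)) := by
  classical
  set w : Tt → ℝ := fun t => if t ∈ A then 1 / 2 else 1 with hw
  have hsum : ∑ t, w t = (Fintype.card Tt : ℝ) - (A.card : ℝ) / 2 := by
    have : ∀ t, w t = 1 - (if t ∈ A then 1 / 2 else 0) := by
      intro t; simp only [hw]; split_ifs <;> norm_num
    rw [Finset.sum_congr rfl (fun t _ => this t), Finset.sum_sub_distrib, Finset.sum_const,
      Finset.card_univ, nsmul_eq_mul, mul_one, Finset.sum_ite_mem, Finset.univ_inter,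
      Finset.sum_const, nsmul_eq_mul]
    ring
  have hprod : ∀ f : Fin m → Tt, ∏ i, w (f i) =
      (1 / 2 : ℝ) ^ (univ.filter (fun i => f i ∈ A)).card := by
    intro f
    simp only [hw]
    rw [Finset.prod_ite]
    simp
  have hpow : ∑ f : Fin m → Tt, (1 / 2 : ℝ) ^ (univ.filter (fun i => f i ∈ A)).card =
      ((Fintype.card Tt : ℝ) - (A.card : ℝ) / 2) ^ m := by
    rw [← hsum, Fintype.sum_pow]
    apply Finset.sum_congr rfl
    intro f _
    rw [hprod]
  have hAle : (A.card : ℝ) ≤ Fintype.card Tt := by exact_mod_cast Finset.card_le_univ A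
  have hup : ((Fintype.card Tt : ℝ) - (A.card : ℝ) / 2) ^ m ≤
      (Fintype.card (Fin m → Tt) : ℝ) * Real.exp (-(c * m / 2)) := by
    have h1 : (Fintype.card Tt : ℝ) - (A.card : ℝ) / 2 ≤
        (Fintype.card Tt : ℝ) * Real.exp (-(c / 2)) := by
      have h2 := Real.one_sub_le_exp_neg (c / 2)
      have h3 : (0 : ℝ) ≤ Fintype.card Tt := by positivity
      nlinarith
    have h4 : (0 : ℝ) ≤ A.card := by positivity
    calc ((Fintype.card Tt : ℝ) - (A.card : ℝ) / 2) ^ m ≤
        ((Fintype.card Tt : ℝ) * Real.exp (-(c / 2))) ^ m :=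
          pow_le_pow_left₀ (by linarith) h1 m
      _ = _ := by
          rw [mul_pow, ← Real.exp_nat_mul, Fintype.card_fun, Fintype.card_fin]
          push_cast
          congr 2
          ring
  set Bad := univ.filter (fun f : Fin m → Tt =>
      ((univ.filter (fun i => f i ∈ A)).card : ℝ) ≤ c * m / 4) with hBad
  have hlow : (Bad.card : ℝ) * Real.exp (-(c * m / 4)) ≤
      ∑ f : Fin m → Tt, (1 / 2 : ℝ) ^ (univ.filter (fun i => f i ∈ A)).card := by
    rw [← nsmul_eq_mul, ← Finset.sum_const]
    refine le_trans ?_ (Finset.sum_le_sum_of_subset_of_nonneg (Finset.subset_univ Bad)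
      (fun _ _ _ => by positivity))
    apply Finset.sum_le_sum
    intro f hf
    rw [hBad, Finset.mem_filter] at hf
    have h1 : Real.exp (-1) ≤ 1 / 2 := by
      rw [Real.exp_neg]
      have : (2 : ℝ) ≤ Real.exp 1 := by
        have := Real.add_one_le_exp (1 : ℝ); linarith
      rw [one_div]
      exact inv_anti₀ (by norm_num) this
    calc Real.exp (-(c * m / 4)) ≤
        Real.exp (-((univ.filter (fun i => f i ∈ A)).card : ℝ)) := by
          apply Real.exp_le_exp.mpr
          linarith [hf.2]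
      _ = Real.exp (-1) ^ (univ.filter (fun i => f i ∈ A)).card := by
          rw [← Real.exp_nat_mul]; congr 1; ring
      _ ≤ (1 / 2) ^ (univ.filter (fun i => f i ∈ A)).card :=
          pow_le_pow_left₀ (Real.exp_pos _).le h1 _
  have h5 : (Bad.card : ℝ) * Real.exp (-(c * m / 4)) ≤
      (Fintype.card (Fin m → Tt) : ℝ) * Real.exp (-(c * m / 2)) := by
    rw [hpow] at hlow; exact hlow.trans hup
  have h6 : Real.exp (-(c * m / 2)) = Real.exp (-(c * m / 4)) * Real.exp (-(c * m / 4)) := by
    rw [← Real.exp_add]; congr 1; ring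
  rw [h6, ← mul_assoc] at h5
  exact le_of_mul_le_mul_right h5 (Real.exp_pos _)

/-- Collisions of a sequence of tuples. -/
noncomputable def coll {V : Type} [DecidableEq V] {m k : ℕ} (f : Fin m → Fin k → V) :
    Finset ((Fin m × Fin k) × (Fin m × Fin k)) :=
  univ.filter (fun q => q.1.1 < q.2.1 ∧ f q.1.1 q.1.2 = f q.2.1 q.2.2)

lemma coll_sum {V : Type} [Fintype V] [DecidableEq V] (m k : ℕ) (hm : 0 < m) (hk : 0 < k) :
    (Fintype.card V) * ∑ f : Fin m → Fin k → V, (coll f).card ≤
      m ^ 2 * k ^ 2 * Fintype.card (Fin m → Fin k → V) := by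
  classical
  have h1 : ∑ f : Fin m → Fin k → V, (coll f).card =
      ∑ q : (Fin m × Fin k) × (Fin m × Fin k),
        (univ.filter (fun f : Fin m → Fin k → V =>
          q.1.1 < q.2.1 ∧ f q.1.1 q.1.2 = f q.2.1 q.2.2)).card := by
    unfold coll
    simp only [Finset.card_filter]
    rw [Finset.sum_comm]
  have h2 : ∀ q : (Fin m × Fin k) × (Fin m × Fin k),
      (univ.filter (fun f : Fin m → Fin k → V =>
          q.1.1 < q.2.1 ∧ f q.1.1 q.1.2 = f q.2.1 q.2.2)).card ≤
        (Fintype.card V) ^ (m * k - 1) := by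
    intro q
    by_cases hq : q.1.1 < q.2.1
    · have hne : q.1 ≠ q.2 := by
        intro h; rw [h] at hq; exact lt_irrefl _ hq
      have h3 := card_coincide (V := V) q.1 q.2 hne
      rw [Fintype.card_prod, Fintype.card_fin, Fintype.card_fin] at h3
      refine le_trans ?_ h3
      apply Finset.card_le_card_of_injOn (fun f p => f p.1 p.2)
      · intro f hf
        simp only [Finset.coe_filter, Finset.mem_univ, true_and, Set.mem_ofPred_eq] at hf ⊢
        exact hf.2
      · intro f _ f' _ h
        funext i a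
        exact congrFun h (i, a)
    · have : (univ.filter (fun f : Fin m → Fin k → V =>
          q.1.1 < q.2.1 ∧ f q.1.1 q.1.2 = f q.2.1 q.2.2)) = ∅ := by
        apply Finset.filter_false_of_mem
        intro f _ h
        exact hq h.1
      rw [this]; simp
  have h3 : ∑ f : Fin m → Fin k → V, (coll f).card ≤ (m * k * (m * k)) *
      (Fintype.card V) ^ (m * k - 1) := by
    rw [h1]
    refine (Finset.sum_le_sum (fun q _ => h2 q)).trans ?_
    rw [Finset.sum_const, Finset.card_univ, smul_eq_mul]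
    simp only [Fintype.card_prod, Fintype.card_fin]
    exact le_rfl
  have h4 : Fintype.card (Fin m → Fin k → V) = (Fintype.card V) ^ (m * k) := by
    rw [Fintype.card_fun, Fintype.card_fun, Fintype.card_fin, Fintype.card_fin, ← pow_mul,
      mul_comm k m]
  have h5 : (Fintype.card V) * (Fintype.card V) ^ (m * k - 1) = (Fintype.card V) ^ (m * k) := by
    rw [← pow_succ']
    congr 1
    have : 0 < m * k := Nat.mul_pos hm hk
    omega
  calc (Fintype.card V) * ∑ f : Fin m → Fin k → V, (coll f).card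
      ≤ (Fintype.card V) * ((m * k * (m * k)) * (Fintype.card V) ^ (m * k - 1)) :=
        Nat.mul_le_mul_left _ h3
    _ = m ^ 2 * k ^ 2 * ((Fintype.card V) * (Fintype.card V) ^ (m * k - 1)) := by ring
    _ = _ := by rw [h5, h4]

/-- Extraction of a disjoint family from a good sequence. -/
lemma extract_family {V : Type} [DecidableEq V] {m k : ℕ} (hk : 0 < k)
    (f : Fin m → Fin k → V) (A : V → V → Finset (Fin k → V)) :
    ∃ F : Finset (Fin k → V), F.card ≤ m ∧ (∀ t ∈ F, ∃ x y, t ∈ A x y) ∧
      (∀ t ∈ F, ∀ t' ∈ F, t ≠ t' → ∀ i j, t i ≠ t' j) ∧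
      ∀ x y, (univ.filter (fun i => f i ∈ A x y)).card ≤ (F ∩ A x y).card + (coll f).card := by
  classical
  set B : Finset (Fin m) := univ.filter (fun j => ∃ i, i < j ∧ ∃ a b, f i a = f j b) with hB
  have hBcard : B.card ≤ (coll f).card := by
    have h1 : B ⊆ (coll f).image (fun q => q.2.1) := by
      intro j hj
      rw [hB, Finset.mem_filter] at hj
      obtain ⟨_, i, hij, a, b, hab⟩ := hj
      rw [Finset.mem_image]
      refine ⟨((i, a), (j, b)), ?_, rfl⟩
      unfold coll
      rw [Finset.mem_filter]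
      exact ⟨Finset.mem_univ _, hij, hab⟩
    exact (Finset.card_le_card h1).trans Finset.card_image_le
  set G : Finset (Fin m) := univ.filter (fun j => j ∉ B ∧ ∃ x y, f j ∈ A x y) with hG
  have hsep : ∀ i j, i ∉ B → j ∉ B → i ≠ j → ∀ a b, f i a ≠ f j b := by
    intro i j hi hj hij a b hab
    rcases lt_or_gt_of_ne hij with h | h
    · apply hj
      rw [hB, Finset.mem_filter]
      exact ⟨Finset.mem_univ _, i, h, a, b, hab⟩
    · apply hi
      rw [hB, Finset.mem_filter]
      exact ⟨Finset.mem_univ _, j, h, b, a, hab.symm⟩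
  refine ⟨G.image f, ?_, ?_, ?_, ?_⟩
  · refine Finset.card_image_le.trans ?_
    have := Finset.card_le_univ G
    rwa [Fintype.card_fin] at this
  · intro t ht
    rw [Finset.mem_image] at ht
    obtain ⟨i, hi, rfl⟩ := ht
    rw [hG, Finset.mem_filter] at hi
    exact hi.2.2
  · intro t ht t' ht' htt a b
    rw [Finset.mem_image] at ht ht'
    obtain ⟨i, hi, rfl⟩ := ht
    obtain ⟨j, hj, rfl⟩ := ht'
    rw [hG, Finset.mem_filter] at hi hj
    exact hsep i j hi.2.1 hj.2.1 (fun h => htt (by rw [h])) a b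
  · intro x y
    have h1 : univ.filter (fun i => f i ∈ A x y) ⊆
        (univ.filter (fun i => i ∉ B ∧ f i ∈ A x y)) ∪ B := by
      intro i hi
      rw [Finset.mem_filter] at hi
      rw [Finset.mem_union, Finset.mem_filter]
      by_cases h : i ∈ B
      · right; exact h
      · left; exact ⟨Finset.mem_univ _, h, hi.2⟩
    refine (Finset.card_le_card h1).trans ((Finset.card_union_le _ _).trans
      (Nat.add_le_add ?_ hBcard))
    apply Finset.card_le_card_of_injOn f
    · intro i hi
      simp only [Finset.coe_filter, Finset.mem_univ, true_and, Set.mem_ofPred_eq] at hi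
      simp only [Finset.coe_inter, Set.mem_inter_iff, Finset.mem_coe, Finset.mem_image]
      refine ⟨⟨i, ?_, rfl⟩, hi.2⟩
      rw [hG, Finset.mem_filter]
      exact ⟨Finset.mem_univ _, hi.1, x, y, hi.2⟩
    · intro i hi j hj hij
      simp only [Finset.coe_filter, Finset.mem_univ, true_and, Set.mem_ofPred_eq] at hi hj
      by_contra hne
      exact hsep i j hi.1 hj.1 hne ⟨0, hk⟩ ⟨0, hk⟩ (congrFun hij _)

theorem selection (k : ℕ) (hk : 0 < k) (c : ℝ) (hc0 : 0 < c) (_hc1 : c ≤ 1) (β : ℝ) (hβ0 : 0 < β)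
    (hβ1 : β * k ^ 2 ≤ c / 16) :
    ∃ n₀ : ℕ, ∀ {V : Type} [Fintype V] [DecidableEq V], n₀ ≤ Fintype.card V →
      ∀ (A : V → V → Finset (Fin k → V)),
      (∀ x y, c * (Fintype.card V : ℝ) ^ k ≤ ((A x y).card : ℝ)) →
      ∃ F : Finset (Fin k → V), (F.card : ℝ) ≤ β * Fintype.card V ∧
        (∀ t ∈ F, ∃ x y, t ∈ A x y) ∧
        (∀ t ∈ F, ∀ t' ∈ F, t ≠ t' → ∀ i j, t i ≠ t' j) ∧
        ∀ x y, c * β / 16 * (Fintype.card V : ℝ) ≤ ((F ∩ A x y).card : ℝ) := by
  classical
  obtain ⟨n₀, hn₀⟩ := exists_nat_gt (max (2 / β) (12288 / (c * β) ^ 3))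
  refine ⟨n₀, ?_⟩
  intro V _ _ hn A hA
  set n : ℝ := (Fintype.card V : ℝ) with hndef
  have hnn : (n₀ : ℝ) ≤ n := by rw [hndef]; exact_mod_cast hn
  have hn1 : 2 / β < n := lt_of_le_of_lt (le_max_left _ _) (lt_of_lt_of_le hn₀ hnn)
  have hn2 : 12288 / (c * β) ^ 3 < n := lt_of_le_of_lt (le_max_right _ _) (lt_of_lt_of_le hn₀ hnn)
  rw [div_lt_iff₀ hβ0] at hn1
  rw [div_lt_iff₀ (by positivity)] at hn2
  have hnpos : 0 < n := by nlinarith
  set m : ℕ := ⌊β * n⌋₊ with hm
  have hm1 : (m : ℝ) ≤ β * n := Nat.floor_le (by positivity)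
  have hm2 : β * n - 1 < (m : ℝ) := by
    have := Nat.lt_floor_add_one (β * n)
    rw [← hm] at this; linarith
  have hm3 : β * n / 2 ≤ (m : ℝ) := by linarith
  have hmpos : 0 < m := by
    have : (0 : ℝ) < m := by nlinarith
    exact_mod_cast this
  have hmr : (0 : ℝ) < m := by exact_mod_cast hmpos
  set Ω : ℝ := (Fintype.card (Fin m → Fin k → V) : ℝ) with hΩ
  have hΩpos : 0 < Ω := by
    have : Nonempty V := by
      rw [← Fintype.card_pos_iff]
      have : (0 : ℝ) < (Fintype.card V : ℝ) := hnpos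
      exact_mod_cast this
    rw [hΩ]
    exact_mod_cast Fintype.card_pos
  -- exists good f
  have hgood : ∃ f : Fin m → Fin k → V, ((coll f).card : ℝ) < c * m / 8 ∧
      ∀ x y, c * m / 4 < ((univ.filter (fun i => f i ∈ A x y)).card : ℝ) := by
    by_contra hcon
    push Not at hcon
    -- all f are bad
    have hcover : (univ : Finset (Fin m → Fin k → V)) ⊆
        (univ.filter (fun f : Fin m → Fin k → V => c * m / 8 ≤ ((coll f).card : ℝ))) ∪
        ((univ : Finset (V × V)).biUnion (fun p => univ.filter (fun f : Fin m → Fin k → V =>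
          ((univ.filter (fun i => f i ∈ A p.1 p.2)).card : ℝ) ≤ c * m / 4))) := by
      intro f _
      rw [Finset.mem_union, Finset.mem_filter, Finset.mem_biUnion]
      by_cases h : c * m / 8 ≤ ((coll f).card : ℝ)
      · left; exact ⟨Finset.mem_univ _, h⟩
      · right
        push Not at h
        obtain ⟨x, y, hxy⟩ := hcon f h
        exact ⟨(x, y), Finset.mem_univ _, by rw [Finset.mem_filter]; exact ⟨Finset.mem_univ _, hxy⟩⟩
    have h1 := (Finset.card_le_card hcover).trans ((Finset.card_union_le _ _).trans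
      (Nat.add_le_add_left Finset.card_biUnion_le _))
    rw [Finset.card_univ] at h1
    have h2 : Ω ≤ ((univ.filter (fun f : Fin m → Fin k → V =>
          c * m / 8 ≤ ((coll f).card : ℝ))).card : ℝ) +
        ∑ p : V × V, ((univ.filter (fun f : Fin m → Fin k → V =>
          ((univ.filter (fun i => f i ∈ A p.1 p.2)).card : ℝ) ≤ c * m / 4)).card : ℝ) := by
      rw [hΩ]; exact_mod_cast h1
    -- Markov
    have h3 : ((univ.filter (fun f : Fin m → Fin k → V =>
          c * m / 8 ≤ ((coll f).card : ℝ))).card : ℝ) ≤ Ω / 2 := by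
      have h4 := coll_sum (V := V) m k hmpos hk
      have h5 : n * ∑ f : Fin m → Fin k → V, ((coll f).card : ℝ) ≤
          (m : ℝ) ^ 2 * k ^ 2 * Ω := by
        rw [hndef, hΩ]; exact_mod_cast h4
      have h6 : ((univ.filter (fun f : Fin m → Fin k → V =>
          c * m / 8 ≤ ((coll f).card : ℝ))).card : ℝ) * (c * m / 8) ≤
          ∑ f : Fin m → Fin k → V, ((coll f).card : ℝ) := by
        rw [← nsmul_eq_mul, ← Finset.sum_const]
        refine le_trans ?_ (Finset.sum_le_sum_of_subset_of_nonneg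
          (Finset.subset_univ (univ.filter (fun f : Fin m → Fin k → V =>
          c * m / 8 ≤ ((coll f).card : ℝ)))) (fun _ _ _ => by positivity))
        apply Finset.sum_le_sum
        intro f hf
        rw [Finset.mem_filter] at hf
        exact hf.2
      set X : ℝ := ((univ.filter (fun f : Fin m → Fin k → V =>
          c * m / 8 ≤ ((coll f).card : ℝ))).card : ℝ) with hX
      have h7 : n * (X * (c * m / 8)) ≤ (m : ℝ) ^ 2 * k ^ 2 * Ω :=
        (mul_le_mul_of_nonneg_left h6 hnpos.le).trans h5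
      have h8 : (m : ℝ) ^ 2 * k ^ 2 * Ω ≤ (n * (c * m / 8)) * (Ω / 2) := by
        have h9 : (m : ℝ) * (k : ℝ) ^ 2 ≤ n * (c / 16) := by
          calc (m : ℝ) * (k : ℝ) ^ 2 ≤ (β * n) * (k : ℝ) ^ 2 :=
                mul_le_mul_of_nonneg_right hm1 (by positivity)
            _ = n * (β * k ^ 2) := by ring
            _ ≤ n * (c / 16) := mul_le_mul_of_nonneg_left hβ1 hnpos.le
        calc (m : ℝ) ^ 2 * k ^ 2 * Ω = (m * Ω) * ((m : ℝ) * (k : ℝ) ^ 2) := by ring
          _ ≤ (m * Ω) * (n * (c / 16)) := mul_le_mul_of_nonneg_left h9 (by positivity)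
          _ = _ := by ring
      have h9 : (n * (c * m / 8)) * X ≤ (n * (c * m / 8)) * (Ω / 2) := by
        calc (n * (c * m / 8)) * X = n * (X * (c * m / 8)) := by ring
          _ ≤ _ := h7.trans h8
      exact le_of_mul_le_mul_left h9 (by positivity)
    have h10 : ∑ p : V × V, ((univ.filter (fun f : Fin m → Fin k → V =>
          ((univ.filter (fun i => f i ∈ A p.1 p.2)).card : ℝ) ≤ c * m / 4)).card : ℝ) ≤
          n ^ 2 * (Ω * Real.exp (-(c * m / 4))) := by
      calc _ ≤ ∑ _p : V × V, (Ω * Real.exp (-(c * m / 4))) := by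
            apply Finset.sum_le_sum
            intro p _
            apply few_rare m (A p.1 p.2) c
            rw [Fintype.card_fun, Fintype.card_fin]
            push_cast
            exact hA p.1 p.2
        _ = _ := by
            rw [Finset.sum_const, Finset.card_univ, nsmul_eq_mul, Fintype.card_prod]
            push_cast
            ring
    have h11 : n ^ 2 * Real.exp (-(c * m / 4)) < 1 / 2 := by
      set y : ℝ := c * m / 4 with hy
      have hypos : 0 < y := by positivity
      have h12 : y ^ 3 / 6 ≤ Real.exp y := by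
        have := Real.pow_div_factorial_le_exp y hypos.le 3
        simpa [Nat.factorial] using this
      have h13 : c * β * n / 8 ≤ y := by rw [hy]; nlinarith
      have h14 : (c * β * n / 8) ^ 3 ≤ y ^ 3 := pow_le_pow_left₀ (by positivity) h13 3
      have h15 : 2 * n ^ 2 < y ^ 3 / 6 := by
        have : 12288 * n ^ 2 < n * (c * β) ^ 3 * n ^ 2 :=
          mul_lt_mul_of_pos_right hn2 (by positivity)
        have h16 : (c * β * n / 8) ^ 3 = n * (c * β) ^ 3 * n ^ 2 / 512 := by ring
        rw [h16] at h14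
        have h17 : 0 < n ^ 2 := by positivity
        linarith
      rw [Real.exp_neg, ← div_eq_mul_inv, div_lt_iff₀ (Real.exp_pos _)]
      linarith
    have h12 : n ^ 2 * (Ω * Real.exp (-(c * m / 4))) < Ω / 2 := by
      calc n ^ 2 * (Ω * Real.exp (-(c * m / 4))) = Ω * (n ^ 2 * Real.exp (-(c * m / 4))) := by ring
        _ < Ω * (1 / 2) := mul_lt_mul_of_pos_left h11 hΩpos
        _ = Ω / 2 := by ring
    linarith
  obtain ⟨f, hf1, hf2⟩ := hgood
  obtain ⟨F, hF1, hF2, hF3, hF4⟩ := extract_family hk f A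
  refine ⟨F, ?_, hF2, hF3, ?_⟩
  · refine le_trans ?_ hm1
    exact_mod_cast hF1
  · intro x y
    have h1 := hF4 x y
    have h2 : ((univ.filter (fun i => f i ∈ A x y)).card : ℝ) ≤
        ((F ∩ A x y).card : ℝ) + (coll f).card := by exact_mod_cast h1
    have h3 := hf2 x y
    have h4 : c * β / 16 * n ≤ c * m / 8 := by nlinarith
    linarith

end Pool.Agent.LooseHC
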