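import Pool.Agent.Helper26.LooseHC.LP2
import Pool.Agent.Helper26.LooseHC.Common

set_option autoImplicit false

/-!
Monochromatic complete tripartite tiles and the greedy extraction of tiles from dense blocks.
-/

namespace Pool.Agent.LooseHC

open Finset

variable {V : Type} [DecidableEq V]

/-- A tile: four vertex sets and a colour. -/
structure Tile (V : Type) where
  A : Finset V
  B : Finset V
  D : Finset V
  D' : Finset V
  c : Bool

/-- Vertex set of a tile. -/
def Tile.verts (T : Tile V) : Finset V := T.A ∪ T.B ∪ (T.D ∪ T.D')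

/-- Validity of a tile of size `s`: the triples `a, b, d` with `a ∈ A`, `b ∈ B`, `d ∈ D ∪ D'` are
all edges of colour `c`. -/
structure Tile.Valid (C : Bool → V → V → V → Prop) (s : ℕ) (T : Tile V) : Prop where
  cA : T.A.card = s
  cB : T.B.card = s
  cD : T.D.card = s
  cD' : T.D'.card = s
  dAB : Disjoint T.A T.B
  dAD : Disjoint T.A T.D
  dAD' : Disjoint T.A T.D'
  dBD : Disjoint T.B T.D
  dBD' : Disjoint T.B T.D'
  dDD' : Disjoint T.D T.D'
  comp : ∀ a ∈ T.A, ∀ b ∈ T.B, ∀ d, d ∈ T.D ∨ d ∈ T.D' → C T.c a b d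

/-- sign of a colour -/
def sgn (c : Bool) : ℝ := if c then 1 else -1

lemma sgn_cases (c : Bool) : sgn c = 1 ∨ sgn c = -1 := by
  cases c <;> simp [sgn]

/-- The tiles in the list are valid and pairwise disjoint. -/
def Tiling (C : Bool → V → V → V → Prop) (s : ℕ) (W : Finset V) (L : List (Tile V)) : Prop :=
  (∀ T ∈ L, T.Valid C s ∧ T.verts ⊆ W) ∧ L.Pairwise (fun T T' => Disjoint T.verts T'.verts)

/-- colour imbalance of a list of tiles -/
def imb (L : List (Tile V)) : ℝ := (L.map (fun T => sgn T.c)).sum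

lemma Tile.Valid.card_verts {C : Bool → V → V → V → Prop} {s : ℕ} {T : Tile V}
    (h : T.Valid C s) : T.verts.card = 4 * s := by
  unfold Tile.verts
  rw [Finset.card_union_of_disjoint, Finset.card_union_of_disjoint h.dAB,
    Finset.card_union_of_disjoint h.dDD', h.cA, h.cB, h.cD, h.cD']
  · ring
  · rw [Finset.disjoint_union_left, Finset.disjoint_union_right, Finset.disjoint_union_right]
    exact ⟨⟨h.dAD, h.dAD'⟩, ⟨h.dBD, h.dBD'⟩⟩

omit [DecidableEq V] in
lemma abs_imb_le (L : List (Tile V)) : |imb L| ≤ L.length := by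
  induction L with
  | nil => simp [imb]
  | cons T L ih =>
    simp only [imb, List.map_cons, List.sum_cons, List.length_cons] at ih ⊢
    push_cast
    have h1 : |sgn T.c| ≤ 1 := by rcases sgn_cases T.c with h | h <;> rw [h] <;> norm_num
    calc |sgn T.c + (L.map (fun T => sgn T.c)).sum| ≤ |sgn T.c| + |(L.map (fun T => sgn T.c)).sum| :=
          abs_add_le _ _
      _ ≤ (L.length : ℝ) + 1 := by linarith

/-- Chop four large sets into `h` tiles. -/
lemma chop (C : Bool → V → V → V → Prop) (s : ℕ) (c : Bool) (h : ℕ) :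
    ∀ (A B D D' : Finset V), h * s ≤ A.card → h * s ≤ B.card → h * s ≤ D.card → h * s ≤ D'.card →
      Disjoint A B → Disjoint A D → Disjoint A D' → Disjoint B D → Disjoint B D' →
      Disjoint D D' → (∀ a ∈ A, ∀ b ∈ B, ∀ d, d ∈ D ∨ d ∈ D' → C c a b d) →
      ∃ L : List (Tile V), L.length = h ∧
        (∀ T ∈ L, T.Valid C s ∧ T.verts ⊆ A ∪ B ∪ (D ∪ D') ∧ T.c = c) ∧
        L.Pairwise (fun T T' => Disjoint T.verts T'.verts) := by
  induction h with
  | zero =>
    intro A B D D' _ _ _ _ _ _ _ _ _ _ _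
    exact ⟨[], rfl, by simp, List.Pairwise.nil⟩
  | succ h ih =>
    intro A B D D' hA hB hD hD' dAB dAD dAD' dBD dBD' dDD' hC
    have hs : s ≤ (h + 1) * s := by nlinarith
    obtain ⟨A1, hA1, cA1⟩ := Finset.exists_subset_card_eq (hs.trans hA)
    obtain ⟨B1, hB1, cB1⟩ := Finset.exists_subset_card_eq (hs.trans hB)
    obtain ⟨D1, hD1, cD1⟩ := Finset.exists_subset_card_eq (hs.trans hD)
    obtain ⟨D1', hD1', cD1'⟩ := Finset.exists_subset_card_eq (hs.trans hD')
    have e : ∀ (X X1 : Finset V), (h + 1) * s ≤ X.card → X1 ⊆ X → X1.card = s →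
        h * s ≤ (X \ X1).card := by
      intro X X1 h1 h2 h3
      rw [Finset.card_sdiff_of_subset h2, h3]
      have : (h + 1) * s = h * s + s := by ring
      omega
    obtain ⟨L, hL1, hL2, hL3⟩ := ih (A \ A1) (B \ B1) (D \ D1) (D' \ D1')
      (e _ _ hA hA1 cA1) (e _ _ hB hB1 cB1) (e _ _ hD hD1 cD1) (e _ _ hD' hD1' cD1')
      (dAB.mono Finset.sdiff_subset Finset.sdiff_subset)
      (dAD.mono Finset.sdiff_subset Finset.sdiff_subset)
      (dAD'.mono Finset.sdiff_subset Finset.sdiff_subset)
      (dBD.mono Finset.sdiff_subset Finset.sdiff_subset)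
      (dBD'.mono Finset.sdiff_subset Finset.sdiff_subset)
      (dDD'.mono Finset.sdiff_subset Finset.sdiff_subset)
      (fun a ha b hb d hd => hC a (Finset.mem_sdiff.mp ha).1 b (Finset.mem_sdiff.mp hb).1 d
        (hd.imp (fun h => (Finset.mem_sdiff.mp h).1) (fun h => (Finset.mem_sdiff.mp h).1)))
    refine ⟨⟨A1, B1, D1, D1', c⟩ :: L, by simp [hL1], ?_, ?_⟩
    · intro T hT
      rw [List.mem_cons] at hT
      rcases hT with rfl | hT
      · refine ⟨⟨cA1, cB1, cD1, cD1', dAB.mono hA1 hB1, dAD.mono hA1 hD1, dAD'.mono hA1 hD1',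
          dBD.mono hB1 hD1, dBD'.mono hB1 hD1', dDD'.mono hD1 hD1', ?_⟩, ?_, rfl⟩
        · intro a ha b hb d hd
          exact hC a (hA1 ha) b (hB1 hb) d (hd.imp (fun h => hD1 h) (fun h => hD1' h))
        · unfold Tile.verts
          exact Finset.union_subset_union (Finset.union_subset_union hA1 hB1)
            (Finset.union_subset_union hD1 hD1')
      · obtain ⟨h1, h2, h3⟩ := hL2 T hT
        refine ⟨h1, h2.trans ?_, h3⟩
        exact Finset.union_subset_union (Finset.union_subset_union Finset.sdiff_subset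
          Finset.sdiff_subset) (Finset.union_subset_union Finset.sdiff_subset Finset.sdiff_subset)
    · rw [List.pairwise_cons]
      refine ⟨?_, hL3⟩
      intro T hT
      obtain ⟨_, h2, _⟩ := hL2 T hT
      apply Finset.disjoint_of_subset_right h2
      unfold Tile.verts
      simp only
      rw [Finset.disjoint_left]
      intro v hv hv'
      simp only [Finset.mem_union, Finset.mem_sdiff] at hv hv'
      rw [Finset.disjoint_left] at dAB dAD dAD' dBD dBD' dDD'
      rcases hv with (h | h) | (h | h) <;> rcases hv' with (h' | h') | (h' | h')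
      · exact h'.2 h
      · exact dAB (hA1 h) h'.1
      · exact dAD (hA1 h) h'.1
      · exact dAD' (hA1 h) h'.1
      · exact dAB h'.1 (hB1 h)
      · exact h'.2 h
      · exact dBD (hB1 h) h'.1
      · exact dBD' (hB1 h) h'.1
      · exact dAD h'.1 (hD1 h)
      · exact dBD h'.1 (hD1 h)
      · exact h'.2 h
      · exact dDD' (hD1 h) h'.1
      · exact dAD' h'.1 (hD1' h)
      · exact dBD' h'.1 (hD1' h)
      · exact dDD' h'.1 (hD1' h)
      · exact h'.2 h

/-- Chop all tiles in a tiling, avoiding a set `U`. -/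
lemma chop_all (C : Bool → V → V → V → Prop) (S s h : ℕ) (U : Finset V) :
    ∀ (L : List (Tile V)), (∀ T ∈ L, T.Valid C S) →
      L.Pairwise (fun T T' => Disjoint T.verts T'.verts) →
      (∀ T ∈ L, h * s ≤ (T.A \ U).card ∧ h * s ≤ (T.B \ U).card ∧ h * s ≤ (T.D \ U).card ∧
        h * s ≤ (T.D' \ U).card) →
      ∃ L' : List (Tile V), L'.length = h * L.length ∧
        (∀ T' ∈ L', T'.Valid C s ∧ ∃ T ∈ L, T'.verts ⊆ T.verts \ U) ∧
        L'.Pairwise (fun T T' => Disjoint T.verts T'.verts) ∧ imb L' = h * imb L := by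
  intro L
  induction L with
  | nil => intro _ _ _; exact ⟨[], by simp, by simp, List.Pairwise.nil, by simp [imb]⟩
  | cons T L ih =>
    intro hval hpw hU
    rw [List.pairwise_cons] at hpw
    obtain ⟨L', h1, h2, h3, h4⟩ := ih (fun T' hT' => hval T' (List.mem_cons_of_mem _ hT')) hpw.2
      (fun T' hT' => hU T' (List.mem_cons_of_mem _ hT'))
    have v := hval T List.mem_cons_self
    obtain ⟨u1, u2, u3, u4⟩ := hU T List.mem_cons_self
    obtain ⟨M, m1, m2, m3⟩ := chop C s T.c h (T.A \ U) (T.B \ U) (T.D \ U) (T.D' \ U) u1 u2 u3 u4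
      (v.dAB.mono Finset.sdiff_subset Finset.sdiff_subset)
      (v.dAD.mono Finset.sdiff_subset Finset.sdiff_subset)
      (v.dAD'.mono Finset.sdiff_subset Finset.sdiff_subset)
      (v.dBD.mono Finset.sdiff_subset Finset.sdiff_subset)
      (v.dBD'.mono Finset.sdiff_subset Finset.sdiff_subset)
      (v.dDD'.mono Finset.sdiff_subset Finset.sdiff_subset)
      (fun a ha b hb d hd => v.comp a (Finset.mem_sdiff.mp ha).1 b (Finset.mem_sdiff.mp hb).1 d
        (hd.imp (fun h => (Finset.mem_sdiff.mp h).1) (fun h => (Finset.mem_sdiff.mp h).1)))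
    have hsub : ∀ T' ∈ M, T'.verts ⊆ T.verts \ U := by
      intro T' hT'
      refine (m2 T' hT').2.1.trans ?_
      unfold Tile.verts
      intro x hx
      simp only [Finset.mem_union, Finset.mem_sdiff] at hx ⊢
      tauto
    refine ⟨M ++ L', ?_, ?_, ?_, ?_⟩
    · rw [List.length_append, m1, h1, List.length_cons]; ring
    · intro T' hT'
      rw [List.mem_append] at hT'
      rcases hT' with hT' | hT'
      · exact ⟨(m2 T' hT').1, T, List.mem_cons_self, hsub T' hT'⟩
      · obtain ⟨a, T'', b, d⟩ := h2 T' hT'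
        exact ⟨a, T'', List.mem_cons_of_mem _ b, d⟩
    · rw [List.pairwise_append]
      refine ⟨m3, h3, ?_⟩
      intro a ha b hb
      obtain ⟨_, T'', hT'', hb'⟩ := h2 b hb
      have := hpw.1 T'' hT''
      exact this.mono ((hsub a ha).trans Finset.sdiff_subset) (hb'.trans Finset.sdiff_subset)
    · have hM : imb M = h * sgn T.c := by
        unfold imb
        have : M.map (fun T => sgn T.c) = List.replicate h (sgn T.c) := by
          rw [List.eq_replicate_iff]
          refine ⟨by simp [m1], ?_⟩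
          intro b hb
          rw [List.mem_map] at hb
          obtain ⟨a, ha, rfl⟩ := hb
          rw [(m2 a ha).2.2]
        rw [this, List.sum_replicate, nsmul_eq_mul]
      have e1 : imb (M ++ L') = imb M + imb L' := by simp [imb]
      have e2 : imb (T :: L) = sgn T.c + imb L := by simp [imb]
      rw [e1, e2, hM, h4]; ring

end Pool.Agent.LooseHC
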