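import Pool.Agent.Helper26.LooseHC.Path

set_option autoImplicit false

/-!
Loose paths inside tiles.
-/

namespace Pool.Agent.LooseHC

open Finset

variable {V : Type} [DecidableEq V]

lemma tile_tail (P : V → V → V → Prop) (hsym1 : ∀ a b c, P a b c → P b a c)
    (hsym2 : ∀ a b c, P a b c → P a c b) (s : ℕ) :
    ∀ (u : V) (A B D D' : Finset V), A.card = s → B.card = s → D.card = s → D'.card = s →
      (∀ a ∈ A, ∀ d ∈ D', P u d a) →
      (∀ a ∈ A, ∀ b ∈ B, ∀ d, d ∈ D ∨ d ∈ D' → P a b d) →
      ∃ (l : List V) (e : V), LPath P u l e ∧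
        (l : Multiset V) = A.val + B.val + D.val + D'.val := by
  induction s with
  | zero =>
    intro u A B D D' hA hB hD hD' _ _
    rw [Finset.card_eq_zero] at hA hB hD hD'
    subst hA hB hD hD'
    exact ⟨[], u, LPath.nil u, by simp⟩
  | succ s ih =>
    intro u A B D D' hA hB hD hD' h1 h2
    obtain ⟨a, ha⟩ : A.Nonempty := by rw [← Finset.card_pos]; omega
    obtain ⟨b, hb⟩ : B.Nonempty := by rw [← Finset.card_pos]; omega
    obtain ⟨d, hd⟩ : D.Nonempty := by rw [← Finset.card_pos]; omega
    obtain ⟨d', hd'⟩ : D'.Nonempty := by rw [← Finset.card_pos]; omega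
    obtain ⟨l, e, hl, hm⟩ := ih b (A.erase a) (B.erase b) (D.erase d) (D'.erase d')
      (by rw [Finset.card_erase_of_mem ha]; omega) (by rw [Finset.card_erase_of_mem hb]; omega)
      (by rw [Finset.card_erase_of_mem hd]; omega) (by rw [Finset.card_erase_of_mem hd']; omega)
      (by
        intro a' ha' x hx
        have ha'' := Finset.mem_of_mem_erase ha'
        have hx' := Finset.mem_of_mem_erase hx
        exact hsym2 _ _ _ (hsym1 _ _ _ (h2 a' ha'' b hb x (Or.inr hx'))))
      (by
        intro a' ha' b' hb' x hx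
        refine h2 a' (Finset.mem_of_mem_erase ha') b' (Finset.mem_of_mem_erase hb') x ?_
        exact hx.imp Finset.mem_of_mem_erase Finset.mem_of_mem_erase)
    refine ⟨d' :: a :: d :: b :: l, e, ?_, ?_⟩
    · refine LPath.cons (h1 a ha d' hd') (LPath.cons ?_ hl)
      exact hsym2 _ _ _ (h2 a ha b hb d (Or.inl hd))
    · have eA : A.val = a ::ₘ (A.erase a).val := by
        rw [Finset.erase_val, Multiset.cons_erase (Finset.mem_val.mpr ha)]
      have eB : B.val = b ::ₘ (B.erase b).val := by
        rw [Finset.erase_val, Multiset.cons_erase (Finset.mem_val.mpr hb)]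
      have eD : D.val = d ::ₘ (D.erase d).val := by
        rw [Finset.erase_val, Multiset.cons_erase (Finset.mem_val.mpr hd)]
      have eD' : D'.val = d' ::ₘ (D'.erase d').val := by
        rw [Finset.erase_val, Multiset.cons_erase (Finset.mem_val.mpr hd')]
      rw [eA, eB, eD, eD']
      simp only [← Multiset.cons_coe, hm, ← Multiset.singleton_add]
      abel

lemma tile_seg (C : Bool → V → V → V → Prop) (hsym1 : ∀ c a b d, C c a b d → C c b a d)
    (hsym2 : ∀ c a b d, C c a b d → C c a d b) (s : ℕ) (hs : 0 < s) (T : Tile V)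
    (hT : T.Valid C s) :
    ∃ S : Seg V, S.Ok (C T.c) ∧ (S.s :: S.l).Nodup ∧ (∀ v ∈ S.s :: S.l, v ∈ T.verts) ∧
      (S.s :: S.l).length + 1 = 4 * s ∧ cnt (C T.c) S.s S.l + 1 = 2 * s := by
  obtain ⟨a, ha⟩ : T.A.Nonempty := by rw [← Finset.card_pos, hT.cA]; exact hs
  obtain ⟨b, hb⟩ : T.B.Nonempty := by rw [← Finset.card_pos, hT.cB]; exact hs
  obtain ⟨d, hd⟩ : T.D.Nonempty := by rw [← Finset.card_pos, hT.cD]; exact hs
  obtain ⟨d', hd'⟩ : T.D'.Nonempty := by rw [← Finset.card_pos, hT.cD']; exact hs
  obtain ⟨l, e, hl, hm⟩ := tile_tail (C T.c) (hsym1 T.c) (hsym2 T.c) (s - 1) b (T.A.erase a)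
    (T.B.erase b) (T.D.erase d) (T.D'.erase d')
    (by rw [Finset.card_erase_of_mem ha, hT.cA]) (by rw [Finset.card_erase_of_mem hb, hT.cB])
    (by rw [Finset.card_erase_of_mem hd, hT.cD]) (by rw [Finset.card_erase_of_mem hd', hT.cD'])
    (by
      intro a' ha' x hx
      have ha'' := Finset.mem_of_mem_erase ha'
      have hx' := Finset.mem_of_mem_erase hx
      exact hsym2 _ _ _ _ (hsym1 _ _ _ _ (hT.comp a' ha'' b hb x (Or.inr hx'))))
    (by
      intro a' ha' b' hb' x hx
      refine hT.comp a' (Finset.mem_of_mem_erase ha') b' (Finset.mem_of_mem_erase hb') x ?_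
      exact hx.imp Finset.mem_of_mem_erase Finset.mem_of_mem_erase)
  have hok : LPath (C T.c) a (d :: b :: l) e :=
    LPath.cons (hsym2 _ _ _ _ (hT.comp a ha b hb d (Or.inl hd))) hl
  have hmul : ((a :: d :: b :: l : List V) : Multiset V) =
      T.A.val + T.B.val + T.D.val + (T.D'.erase d').val := by
    have eA : T.A.val = a ::ₘ (T.A.erase a).val := by
      rw [Finset.erase_val, Multiset.cons_erase (Finset.mem_val.mpr ha)]
    have eB : T.B.val = b ::ₘ (T.B.erase b).val := by
      rw [Finset.erase_val, Multiset.cons_erase (Finset.mem_val.mpr hb)]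
    have eD : T.D.val = d ::ₘ (T.D.erase d).val := by
      rw [Finset.erase_val, Multiset.cons_erase (Finset.mem_val.mpr hd)]
    rw [eA, eB, eD]
    simp only [← Multiset.cons_coe, hm, ← Multiset.singleton_add]
    abel
  have hlen : (a :: d :: b :: l).length + 1 = 4 * s := by
    have h1 := congrArg Multiset.card hmul
    rw [Multiset.coe_card, Multiset.card_add, Multiset.card_add, Multiset.card_add] at h1
    simp only [Finset.card_val] at h1
    rw [hT.cA, hT.cB, hT.cD, Finset.card_erase_of_mem hd', hT.cD'] at h1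
    omega
  refine ⟨⟨a, d :: b :: l, e⟩, hok, ?_, ?_, hlen, ?_⟩
  · rw [← Multiset.coe_nodup, hmul, Multiset.nodup_add, Multiset.nodup_add, Multiset.nodup_add]
    refine ⟨⟨⟨T.A.nodup, T.B.nodup, ?_⟩, T.D.nodup, ?_⟩, (T.D'.erase d').nodup, ?_⟩
    · exact Finset.disjoint_val.mpr hT.dAB
    · rw [Multiset.disjoint_left]
      intro x hx hx'
      rw [Multiset.mem_add] at hx
      rcases hx with hx | hx
      · exact (Finset.disjoint_left.mp hT.dAD) hx hx'
      · exact (Finset.disjoint_left.mp hT.dBD) hx hx'
    · rw [Multiset.disjoint_left]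
      intro x hx hx'
      have hx'' : x ∈ T.D' := Finset.mem_of_mem_erase (Finset.mem_val.mp hx')
      rw [Multiset.mem_add, Multiset.mem_add] at hx
      rcases hx with (hx | hx) | hx
      · exact (Finset.disjoint_left.mp hT.dAD') hx hx''
      · exact (Finset.disjoint_left.mp hT.dBD') hx hx''
      · exact (Finset.disjoint_left.mp hT.dDD') hx hx''
  · intro v hv
    have hv' : v ∈ ((a :: d :: b :: l : List V) : Multiset V) := hv
    rw [hmul] at hv'
    simp only [Multiset.mem_add, Finset.mem_val] at hv'
    unfold Tile.verts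
    simp only [Finset.mem_union]
    rcases hv' with ((h | h) | h) | h
    · left; left; exact h
    · left; right; exact h
    · right; left; exact h
    · right; right; exact Finset.mem_of_mem_erase h
  · have h1 := hok.cnt_self
    simp only [List.length_cons] at h1 hlen
    show cnt (C T.c) a (d :: b :: l) + 1 = 2 * s
    omega

/-- number of tiles of colour `c` -/
def nc (c : Bool) (L : List (Tile V)) : ℕ := L.countP (fun T => T.c == c)

omit [DecidableEq V] in
lemma nc_add (L : List (Tile V)) : nc true L + nc false L = L.length := by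
  induction L with
  | nil => simp [nc]
  | cons T L ih =>
    simp only [nc, List.countP_cons, List.length_cons] at ih ⊢
    cases T.c
    · rw [if_neg (by decide), if_pos (by decide)]; omega
    · rw [if_pos (by decide), if_neg (by decide)]; omega

omit [DecidableEq V] in
lemma imb_eq (L : List (Tile V)) : imb L = (nc true L : ℝ) - nc false L := by
  induction L with
  | nil => simp [nc, imb]
  | cons T L ih =>
    have e : imb (T :: L) = sgn T.c + imb L := by simp [imb]
    rw [e, ih]
    simp only [nc, List.countP_cons]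
    cases T.c
    · rw [if_neg (by decide), if_pos (by decide)]; simp only [sgn]; push_cast; norm_num; ring
    · rw [if_pos (by decide), if_neg (by decide)]; simp only [sgn]; push_cast; norm_num; ring

/-- The segments of a tiling. -/
lemma tile_segs (C : Bool → V → V → V → Prop) (hsym1 : ∀ c a b d, C c a b d → C c b a d)
    (hsym2 : ∀ c a b d, C c a b d → C c a d b) (s : ℕ) (hs : 0 < s) :
    ∀ (L : List (Tile V)), (∀ T ∈ L, T.Valid C s) →
      L.Pairwise (fun T T' => Disjoint T.verts T'.verts) →
      ∃ Ss : List (Seg V), Ss.length = L.length ∧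
        (∀ S ∈ Ss, S.Ok (fun a b d => ∃ c, C c a b d)) ∧
        (flat Ss).Nodup ∧ (∀ v ∈ flat Ss, v ∈ used L) ∧
        (flat Ss).length + L.length = 4 * s * L.length ∧
        ∀ c, (2 * s - 1) * nc c L ≤ (Ss.map (fun S => cnt (C c) S.s S.l)).sum := by
  intro L
  induction L with
  | nil => intro _ _; exact ⟨[], by simp [flat, nc]⟩
  | cons T L ih =>
    intro hval hpw
    rw [List.pairwise_cons] at hpw
    obtain ⟨Ss, h1, h2, h3, h4, h5, h6⟩ :=
      ih (fun T' hT' => hval T' (List.mem_cons_of_mem _ hT')) hpw.2
    obtain ⟨S, g1, g2, g3, g4, g5⟩ := tile_seg C hsym1 hsym2 s hs T (hval T List.mem_cons_self)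
    have hflat : flat (S :: Ss) = (S.s :: S.l) ++ flat Ss := by simp [flat]
    refine ⟨S :: Ss, by simp [h1], ?_, ?_, ?_, ?_, ?_⟩
    · intro S' hS'
      rw [List.mem_cons] at hS'
      rcases hS' with rfl | hS'
      · exact LPath.mono (fun a b c h => ⟨T.c, h⟩) g1
      · exact h2 S' hS'
    · rw [hflat, List.nodup_append]
      refine ⟨g2, h3, ?_⟩
      intro a ha b hb hab
      subst hab
      have ha' := g3 a ha
      have hb' := h4 a hb
      rw [mem_used] at hb'
      obtain ⟨T', hT', hb'⟩ := hb'
      exact (Finset.disjoint_left.mp (hpw.1 T' hT')) ha' hb'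
    · intro v hv
      rw [hflat, List.mem_append] at hv
      have hu : used (T :: L) = T.verts ∪ used L := rfl
      rw [hu, Finset.mem_union]
      exact hv.imp (g3 v) (h4 v)
    · rw [hflat, List.length_append, List.length_cons (a := T)]
      have : 4 * s * (L.length + 1) = 4 * s * L.length + 4 * s := by ring
      omega
    · intro c
      have h7 := h6 c
      rw [List.map_cons, List.sum_cons]
      simp only [nc, List.countP_cons] at h7 ⊢
      by_cases hc : T.c = c
      · subst hc
        simp only [beq_self_eq_true, if_true]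
        have : (2 * s - 1) * (List.countP (fun T_1 => T_1.c == T.c) L + 1) =
          (2 * s - 1) * (List.countP (fun T_1 => T_1.c == T.c) L) + (2 * s - 1) := by ring
        omega
      · have : (T.c == c) = false := by simpa using hc
        rw [this]
        simp only [Bool.false_eq_true, if_false, add_zero]
        omega

end Pool.Agent.LooseHC
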