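import Mathlib

set_option autoImplicit false

/-!
The two-variable inequality (finite Hoeffding Shrikhande inequality, at the threshold `7/16`).
-/

namespace Pool.Agent.LooseHC

open Finset

/-- Averaging over thresholds. -/
lemma exists_threshold {ι : Type*} [Fintype ι] (x : ι → ℝ) (hx : ∀ i, 0 ≤ x i)
    (q : ℕ) (hq : 1 ≤ q) :
    ∃ s : ℝ, 0 < s ∧ s ≤ 1 / 2 ∧
      (((univ.filter (fun i => s ≤ x i)).card : ℝ) + ((univ.filter (fun i => 1 - s ≤ x i)).card : ℝ)
        ≤ 2 * (∑ i, x i) + (Fintype.card ι : ℝ) / q) := by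
  classical
  have hq0 : (0 : ℝ) < q := by exact_mod_cast hq
  have hne : (Finset.Icc 1 q).Nonempty := ⟨1, by simp [hq]⟩
  -- pointwise bound
  have hpt : ∀ i, ∑ j ∈ Finset.Icc 1 q, (((if (j : ℝ) / (2 * q) ≤ x i then (1 : ℝ) else 0)) +
      (if 1 - (j : ℝ) / (2 * q) ≤ x i then (1 : ℝ) else 0)) ≤ 2 * q * x i + 1 := by
    intro i
    rw [Finset.sum_add_distrib]
    have h1 : ∑ j ∈ Finset.Icc 1 q, (if (j : ℝ) / (2 * q) ≤ x i then (1 : ℝ) else 0)
        = (((Finset.Icc 1 q).filter (fun j => ((j : ℕ) : ℝ) / (2 * q) ≤ x i)).card : ℝ) := by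
      rw [Finset.sum_ite]; simp
    have h2 : ∑ j ∈ Finset.Icc 1 q, (if 1 - (j : ℝ) / (2 * q) ≤ x i then (1 : ℝ) else 0)
        = (((Finset.Icc 1 q).filter (fun j => 1 - ((j : ℕ) : ℝ) / (2 * q) ≤ x i)).card : ℝ) := by
      rw [Finset.sum_ite]; simp
    rw [h1, h2]
    -- second set injects into Icc q (2q-1)
    set A := (Finset.Icc 1 q).filter (fun j => ((j : ℕ) : ℝ) / (2 * q) ≤ x i) with hA
    set B := (Finset.Icc 1 q).filter (fun j => 1 - ((j : ℕ) : ℝ) / (2 * q) ≤ x i) with hB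
    set B' := B.image (fun j => 2 * q - j) with hB'
    have hBc : B'.card = B.card := by
      apply Finset.card_image_of_injOn
      intro a ha b hb hab
      simp only [hB, Finset.coe_filter, Finset.mem_Icc, Set.mem_ofPred_eq] at ha hb
      simp only at hab
      omega
    have hcards : A.card + B.card ≤ (A ∪ B').card + (A ∩ B').card := by
      rw [Finset.card_union_add_card_inter, hBc]
    have hinter : (A ∩ B').card ≤ 1 := by
      rw [Finset.card_le_one]
      intro a ha b hb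
      simp only [hA, hB', hB, Finset.mem_inter, Finset.mem_filter, Finset.mem_Icc, Finset.mem_image] at ha hb
      obtain ⟨⟨⟨_, ha1⟩, _⟩, a', ⟨⟨_, ha2⟩, _⟩, ha3⟩ := ha
      obtain ⟨⟨⟨_, hb1⟩, _⟩, b', ⟨⟨_, hb2⟩, _⟩, hb3⟩ := hb
      omega
    have hun : ((A ∪ B').card : ℝ) ≤ 2 * q * x i := by
      have hsub : A ∪ B' ⊆ Finset.Icc 1 ⌊2 * q * x i⌋₊ := by
        intro a ha
        rw [Finset.mem_union] at ha
        rcases ha with ha | ha
        · simp only [hA, Finset.mem_filter, Finset.mem_Icc] at ha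
          rw [Finset.mem_Icc]
          refine ⟨ha.1.1, Nat.le_floor ?_⟩
          have := ha.2
          rw [div_le_iff₀ (by positivity)] at this
          linarith
        · simp only [hB', hB, Finset.mem_filter, Finset.mem_Icc, Finset.mem_image] at ha
          obtain ⟨j, ⟨⟨hj1, hj2⟩, hj3⟩, rfl⟩ := ha
          rw [Finset.mem_Icc]
          refine ⟨by omega, Nat.le_floor ?_⟩
          have hj3' : (1 : ℝ) ≤ x i + (j : ℝ) / (2 * q) := by linarith
          have h5 : (2 * (q : ℝ)) * 1 ≤ 2 * q * (x i + (j : ℝ) / (2 * q)) :=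
            mul_le_mul_of_nonneg_left hj3' (by positivity)
          have h6 : 2 * (q : ℝ) * ((j : ℝ) / (2 * q)) = j := by field_simp
          rw [Nat.cast_sub (by omega)]
          push_cast
          nlinarith
      have h7 := Finset.card_le_card hsub
      rw [Nat.card_Icc] at h7
      have h8 : ((A ∪ B').card : ℝ) ≤ (⌊2 * q * x i⌋₊ : ℝ) := by
        have : (A ∪ B').card ≤ ⌊2 * q * x i⌋₊ := by omega
        exact_mod_cast this
      have h9 : (⌊2 * q * x i⌋₊ : ℝ) ≤ 2 * q * x i := Nat.floor_le (by have := hx i; positivity)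
      linarith
    have h10 : ((A.card : ℝ) + B.card) ≤ ((A ∪ B').card : ℝ) + ((A ∩ B').card : ℝ) := by
      exact_mod_cast hcards
    have h11 : ((A ∩ B').card : ℝ) ≤ 1 := by exact_mod_cast hinter
    linarith
  -- sum over i
  have hsum : ∑ j ∈ Finset.Icc 1 q,
      (((univ.filter (fun i => (j : ℝ) / (2 * q) ≤ x i)).card : ℝ) +
        ((univ.filter (fun i => 1 - (j : ℝ) / (2 * q) ≤ x i)).card : ℝ))
      ≤ ∑ j ∈ Finset.Icc 1 q, (2 * (∑ i, x i) + (Fintype.card ι : ℝ) / q) := by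
    have h1 : ∀ j ∈ Finset.Icc 1 q,
      (((univ.filter (fun i => (j : ℝ) / (2 * q) ≤ x i)).card : ℝ) +
        ((univ.filter (fun i => 1 - (j : ℝ) / (2 * q) ≤ x i)).card : ℝ))
        = ∑ i, (((if (j : ℝ) / (2 * q) ≤ x i then (1 : ℝ) else 0)) +
      (if 1 - (j : ℝ) / (2 * q) ≤ x i then (1 : ℝ) else 0)) := by
      intro j _
      rw [Finset.sum_add_distrib, Finset.sum_ite, Finset.sum_ite]; simp
    rw [Finset.sum_congr rfl h1, Finset.sum_comm]
    calc ∑ i, ∑ j ∈ Finset.Icc 1 q, (((if (j : ℝ) / (2 * q) ≤ x i then (1 : ℝ) else 0)) +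
      (if 1 - (j : ℝ) / (2 * q) ≤ x i then (1 : ℝ) else 0)) ≤ ∑ i, (2 * q * x i + 1) :=
          Finset.sum_le_sum (fun i _ => hpt i)
      _ = ∑ j ∈ Finset.Icc 1 q, (2 * (∑ i, x i) + (Fintype.card ι : ℝ) / q) := by
          rw [Finset.sum_add_distrib, ← Finset.mul_sum, Finset.sum_const, Finset.sum_const,
            Nat.card_Icc, Finset.card_univ]
          simp only [nsmul_eq_mul, Nat.add_sub_cancel, mul_one]
          field_simp
  obtain ⟨j, hj, hle⟩ := Finset.exists_le_of_sum_le hne hsum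
  rw [Finset.mem_Icc] at hj
  have hj1 : (1 : ℝ) ≤ j := by exact_mod_cast hj.1
  have hj2 : (j : ℝ) ≤ q := by exact_mod_cast hj.2
  refine ⟨(j : ℝ) / (2 * q), by positivity, ?_, hle⟩
  rw [div_le_iff₀ (by positivity)]
  linarith

lemma opt_aux (f g M N : ℝ) (hf0 : 0 ≤ f) (hfg : f ≤ g) (hgN : g ≤ N) (hM2 : f + g ≤ 2 * M)
    (hMN : M ≤ 2 / 5 * N) (_hM0 : 0 ≤ M) : g * g + 2 * f * (N - g) ≤ 2 * M * N - M ^ 2 := by
  have hNg : 0 ≤ N - g := by linarith
  rcases le_total M g with hMg | hMg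
  · have h3 : f * (N - g) ≤ (2 * M - g) * (N - g) :=
      mul_le_mul_of_nonneg_right (by linarith) hNg
    have h4 : 0 ≤ (g - M) * (2 * N + M - 3 * g) := mul_nonneg (by linarith) (by linarith)
    nlinarith [h3, h4]
  · have h3 : f * (N - g) ≤ g * (N - g) := mul_le_mul_of_nonneg_right hfg hNg
    have h4 : 0 ≤ (M - g) * (2 * N - M - g) := mul_nonneg (by linarith) (by linarith)
    nlinarith [h3, h4]

lemma opt_aux2 (α M N : ℝ) (hα : 0 ≤ α) (hα2 : α ≤ 9 / 16) (hM0 : 0 ≤ M) (hN : 0 < N)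
    (hcon : M < (1 / 4 + α / 4) * N) (h3 : (7 / 16 + α) * N ^ 2 ≤ 2 * M * N - M ^ 2) : False := by
  set c : ℝ := 1 / 4 + α / 4 with hc
  have hc1 : c ≤ 2 / 5 := by rw [hc]; linarith
  have hc0 : 0 ≤ c := by rw [hc]; linarith
  have h4 : 0 < (c * N - M) * (2 * N - M - c * N) := by
    apply mul_pos (by linarith)
    have : c * N ≤ 2 / 5 * N := mul_le_mul_of_nonneg_right hc1 hN.le
    linarith
  have h5 : (2 * c - c ^ 2) * N ^ 2 ≤ (7 / 16 + α) * N ^ 2 := by
    apply mul_le_mul_of_nonneg_right _ (by positivity)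
    rw [hc]; nlinarith
  nlinarith [h3, h4, h5]

/-- Two-variable inequality. -/
theorem two_var {ι : Type*} [Fintype ι] (x : ι → ℝ) (hx : ∀ i, 0 ≤ x i) (α : ℝ) (hα : 0 ≤ α)
    (h : (7 / 16 + α) * (Fintype.card ι : ℝ) ^ 2 ≤
      ((univ.filter (fun p : ι × ι => 1 ≤ x p.1 + x p.2)).card : ℝ)) :
    (1 / 4 + α / 4) * (Fintype.card ι : ℝ) ≤ ∑ i, x i := by
  classical
  set N : ℝ := (Fintype.card ι : ℝ) with hN
  set X : ℝ := ∑ i, x i with hX
  have hX0 : 0 ≤ X := Finset.sum_nonneg (fun i _ => hx i)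
  have hN0 : 0 ≤ N := by positivity
  rcases eq_or_lt_of_le hN0 with hN0' | hNpos
  · rw [← hN0']; simpa using hX0
  -- alpha <= 9/16
  have hα2 : α ≤ 9 / 16 := by
    have h1 : ((univ.filter (fun p : ι × ι => 1 ≤ x p.1 + x p.2)).card : ℝ) ≤ N ^ 2 := by
      have := Finset.card_le_univ (univ.filter (fun p : ι × ι => 1 ≤ x p.1 + x p.2))
      rw [Fintype.card_prod] at this
      have h2 : ((univ.filter (fun p : ι × ι => 1 ≤ x p.1 + x p.2)).card : ℝ) ≤
        ((Fintype.card ι * Fintype.card ι : ℕ) : ℝ) := by exact_mod_cast this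
      rw [Nat.cast_mul] at h2
      rw [hN]; nlinarith
    have h2 : (7 / 16 + α) * N ^ 2 ≤ 1 * N ^ 2 := by linarith
    have h3 := le_of_mul_le_mul_right h2 (by positivity)
    linarith
  -- the key estimate for each q
  have key : ∀ q : ℕ, 1 ≤ q → (1 / 4 + α / 4) * N ≤ X + N / (2 * q) := by
    intro q hq
    have hq0 : (0 : ℝ) < q := by exact_mod_cast hq
    obtain ⟨s, hs0, hs1, hs⟩ := exists_threshold x hx q hq
    set G := univ.filter (fun i => s ≤ x i) with hG
    set F := univ.filter (fun i => 1 - s ≤ x i) with hF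
    have hFG : F ⊆ G := by
      intro i hi
      simp only [hF, hG, Finset.mem_filter, Finset.mem_univ, true_and] at hi ⊢
      linarith
    have hcount : (univ.filter (fun p : ι × ι => 1 ≤ x p.1 + x p.2)) ⊆
        (G ×ˢ G) ∪ ((F ×ˢ Gᶜ) ∪ (Gᶜ ×ˢ F)) := by
      rintro ⟨a, b⟩ hab
      simp only [Finset.mem_filter, Finset.mem_univ, true_and] at hab
      simp only [Finset.mem_union, Finset.mem_product, Finset.mem_compl, hG, hF, Finset.mem_filter,
        Finset.mem_univ, true_and]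
      by_cases ha : s ≤ x a
      · by_cases hb : s ≤ x b
        · left; exact ⟨ha, hb⟩
        · right; left
          push Not at hb
          exact ⟨by linarith, not_le.mpr hb⟩
      · right; right
        push Not at ha
        exact ⟨not_le.mpr ha, by linarith⟩
    set g : ℝ := (G.card : ℝ) with hg
    set f : ℝ := (F.card : ℝ) with hf
    have hGc : ((Gᶜ).card : ℝ) = N - g := by
      rw [Finset.card_compl, Nat.cast_sub (Finset.card_le_univ G)]
    have hfg : f ≤ g := by
      have := Finset.card_le_card hFG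
      rw [hf, hg]; exact_mod_cast this
    have hgN : g ≤ N := by
      rw [hg, hN]; exact_mod_cast Finset.card_le_univ G
    have hf0 : 0 ≤ f := by positivity
    have hcard : ((univ.filter (fun p : ι × ι => 1 ≤ x p.1 + x p.2)).card : ℝ) ≤
        g * g + 2 * f * (N - g) := by
      have h1 := Finset.card_le_card hcount
      have h2 : ((G ×ˢ G) ∪ ((F ×ˢ Gᶜ) ∪ (Gᶜ ×ˢ F))).card ≤
          G.card * G.card + (F.card * (Gᶜ).card + (Gᶜ).card * F.card) := by
        refine (Finset.card_union_le _ _).trans ?_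
        rw [Finset.card_product]
        refine Nat.add_le_add_left ?_ _
        refine (Finset.card_union_le _ _).trans ?_
        rw [Finset.card_product, Finset.card_product]
      have h3 : ((univ.filter (fun p : ι × ι => 1 ≤ x p.1 + x p.2)).card : ℝ) ≤
          ((G.card * G.card + (F.card * (Gᶜ).card + (Gᶜ).card * F.card) : ℕ) : ℝ) := by
        exact_mod_cast h1.trans h2
      push_cast at h3
      rw [hGc] at h3
      linarith
    set M : ℝ := X + N / (2 * q) with hM
    have hM2 : f + g ≤ 2 * M := by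
      have : 2 * M = 2 * X + N / q := by rw [hM]; field_simp
      rw [this]; linarith
    have hM0 : 0 ≤ M := by linarith
    by_contra hcon
    push Not at hcon
    have hMN : M ≤ 2 / 5 * N := by
      have : (1 / 4 + α / 4) * N ≤ 2 / 5 * N := mul_le_mul_of_nonneg_right (by linarith) hN0
      linarith
    have h1 : (7 / 16 + α) * N ^ 2 ≤ g * g + 2 * f * (N - g) := h.trans hcard
    have h2 : g * g + 2 * f * (N - g) ≤ 2 * M * N - M ^ 2 :=
      opt_aux f g M N hf0 hfg hgN hM2 hMN hM0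
    have h3 : (7 / 16 + α) * N ^ 2 ≤ 2 * M * N - M ^ 2 := h1.trans h2
    exact opt_aux2 α M N hα hα2 hM0 hNpos hcon h3
  -- let q → ∞
  by_contra hcon
  push Not at hcon
  obtain ⟨q, hq⟩ := exists_nat_gt (N / ((1 / 4 + α / 4) * N - X))
  have hd : 0 < (1 / 4 + α / 4) * N - X := by linarith
  have hq0 : (0 : ℝ) < q := lt_of_le_of_lt (by positivity) hq
  have hq1 : 1 ≤ q := by exact_mod_cast hq0
  have h1 := key q hq1
  rw [div_lt_iff₀ hd] at hq
  have h2 : N / (2 * q) < (1 / 4 + α / 4) * N - X := by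
    rw [div_lt_iff₀ (by positivity)]
    nlinarith
  linarith

end Pool.Agent.LooseHC
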